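import Mathlib

/-!
# Symplectic embeddings of balls: definitions

`W` is a finite-dimensional complex inner product space, read as a real symplectic vector space with
the form `om u v = Im ⟪u, v⟫`.
-/

open Set Metric Topology
open scoped ContDiff

set_option linter.unusedSectionVars false

namespace H88W

variable {W : Type*} [NormedAddCommGroup W] [InnerProductSpace ℂ W] [FiniteDimensional ℂ W]

/-- The standard symplectic form. -/
noncomputable def om (u v : W) : ℝ := (inner ℂ u v).im

/-- `A` is a linear symplectic map. -/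
def IsSymp (A : W →L[ℝ] W) : Prop := ∀ u v : W, om (A u) (A v) = om u v

/-- `ψ` is, on the open ball of radius `a`, a symplectic embedding into the open ball of radius
`b`. -/
structure IsEmb (a b : ℝ) (ψ : W → W) : Prop where
  smooth : ContDiffOn ℝ (⊤ : ℕ∞) ψ (ball 0 a)
  inj : InjOn ψ (ball 0 a)
  maps : MapsTo ψ (ball 0 a) (ball 0 b)
  symp : ∀ z ∈ ball (0 : W) a, IsSymp (fderiv ℝ ψ z)

variable (W) in
/-- The set of symplectic embeddings of the open ball of radius `a` in the open ball of radius `b`.
A map on the ball is stored as a map on `W` that is `0` outside the ball. -/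
def Emb (a b : ℝ) : Type _ := {ψ : W → W // IsEmb a b ψ ∧ ∀ z, z ∉ ball (0 : W) a → ψ z = 0}

theorem iteratedFDeriv_continuousOn {a : ℝ} {ψ : W → W}
    (h : ContDiffOn ℝ (⊤ : ℕ∞) ψ (ball 0 a)) (k : ℕ) :
    ContinuousOn (fun z => iteratedFDeriv ℝ k ψ z) (ball 0 a) := by
  have h1 := h.continuousOn_iteratedFDerivWithin (m := k) (by exact_mod_cast le_top)
    isOpen_ball.uniqueDiffOn
  refine h1.congr ?_
  intro z hz
  exact (iteratedFDerivWithin_of_isOpen k isOpen_ball hz).symm

/-- The `k`-th derivative of an embedding, a continuous map on the open ball. -/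
noncomputable def jet {a b : ℝ} (k : ℕ) (ψ : Emb W a b) :
    C(ball (0 : W) a, ContinuousMultilinearMap ℝ (fun _ : Fin k => W) W) where
  toFun z := iteratedFDeriv ℝ k ψ.1 z
  continuous_toFun :=
    continuousOn_iff_continuous_domRestrict.1 (iteratedFDeriv_continuousOn ψ.2.1.smooth k)

/-- The `C^∞` compact-open topology: the coarsest one that makes every `jet k` continuous for the
compact-open topology. -/
noncomputable instance {a b : ℝ} : TopologicalSpace (Emb W a b) :=
  ⨅ k : ℕ, TopologicalSpace.induced (jet k) ContinuousMap.compactOpen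

theorem continuous_jet {a b : ℝ} (k : ℕ) : Continuous (jet k : Emb W a b → _) :=
  continuous_iInf_dom continuous_induced_dom

/-- To be continuous into `Emb W a b` is to have every jet continuous. -/
theorem continuous_emb {X : Type*} [TopologicalSpace X] {a b : ℝ} {f : X → Emb W a b}
    (h : ∀ k : ℕ, Continuous fun x => jet k (f x)) : Continuous f :=
  continuous_iInf_rng.2 fun k => continuous_induced_rng.2 (h k)

theorem tendsto_emb {X : Type*} {l : Filter X} {a b : ℝ} {f : X → Emb W a b} {g : Emb W a b}
    (h : ∀ k : ℕ, Filter.Tendsto (fun x => jet k (f x)) l (𝓝 (jet k g))) :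
    Filter.Tendsto f l (𝓝 g) := by
  rw [nhds_iInf, Filter.tendsto_iInf]
  intro k
  rw [nhds_induced, Filter.tendsto_comap_iff]
  exact h k

/-- Pairs `(A, c)`, `A` linear symplectic, with `‖A x + c‖ < s` for all `x` in `U`. -/
def Fit (U : Set W) (s : ℝ) : Set ((W →L[ℝ] W) × W) :=
  {p | IsSymp p.1 ∧ ∀ x ∈ U, ‖p.1 x + p.2‖ < s}

/-- The rescaled map `z ↦ s⁻¹ (A (ψ (s z)) + c)` on the ball of radius `l`, and `0` outside. -/
noncomputable def sc (l : ℝ) (ψ : W → W) (s : ℝ) (A : W →L[ℝ] W) (c : W) : W → W :=
  indicator (ball 0 l) fun z => s⁻¹ • (A (ψ (s • z)) + c)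

/-- The triples `(s, A, c)` with `0 < s ≤ 1`, `A` linear symplectic and `‖A (ψ (s z)) + c‖ < s` on
the ball of radius `l`. -/
def Dom (l : ℝ) (ψ : W → W) : Set (ℝ × (W →L[ℝ] W) × W) :=
  {p | 0 < p.1 ∧ p.1 ≤ 1 ∧ IsSymp p.2.1 ∧ ∀ z ∈ ball (0 : W) l, ‖p.2.1 (ψ (p.1 • z)) + p.2.2‖ < p.1}

/-- The identity of `W` is a symplectic map. -/
theorem isSymp_id : IsSymp (ContinuousLinearMap.id ℝ W) := fun _ _ => rfl

/-- The restriction of the identity to the ball of radius `a`. -/
theorem isEmb_incl {a b : ℝ} (h : a ≤ b) : IsEmb (W := W) a b (indicator (ball 0 a) id) where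
  smooth := by
    refine contDiffOn_id.congr ?_
    intro z hz
    exact indicator_of_mem hz _
  inj := by
    intro x hx y hy hxy
    rwa [indicator_of_mem hx, indicator_of_mem hy] at hxy
  maps := by
    intro z hz
    rw [indicator_of_mem hz]
    exact ball_subset_ball h hz
  symp := by
    intro z hz
    have h1 : indicator (ball (0 : W) a) id =ᶠ[𝓝 z] id := by
      filter_upwards [isOpen_ball.mem_nhds hz] with y hy
      exact indicator_of_mem hy _
    rw [h1.fderiv_eq, fderiv_id]
    exact isSymp_id

/-- The inclusion of the ball of radius `a` in the ball of radius `b`. -/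
noncomputable def incl {a b : ℝ} (h : a ≤ b) : Emb W a b :=
  ⟨indicator (ball 0 a) id, isEmb_incl h, fun _ hz => indicator_of_notMem hz _⟩

end H88W
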