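import Mathlib

/-!
# P1: the positive part of a linear symplectic map

Proof. The operator `T = A* A` is symmetric and positive definite; take an orthonormal eigenbasis `b`
(`LinearMap.IsSymmetric.eigenvectorBasis`) and let `P` be its positive square root, so that
`⟪P x, P y⟫ = ⟪A x, A y⟫`. From `⟪J (A x), A y⟫ = ⟪J x, y⟫`: `A* J A = J`, hence `⟪J (T x), T y⟫ = ⟪J x, y⟫`, so
`⟪J (b i), b j⟫ ≠ 0` gives `l i * l j = 1` for the eigenvalues, and `⟪J (P x), P y⟫ = ⟪J x, y⟫`.
-/

open scoped InnerProductSpace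

namespace H88W

theorem polar {E : Type*} [NormedAddCommGroup E] [InnerProductSpace ℝ E] [FiniteDimensional ℝ E]
    (J : E →ₗ[ℝ] E) (hJ : ∀ x y, inner ℝ (J x) (J y) = inner ℝ x y) (hJJ : ∀ x, J (J x) = -x)
    (A : E →ₗ[ℝ] E) (hA : ∀ x y, inner ℝ (J (A x)) (A y) = inner ℝ (J x) y) :
    ∃ P : E →ₗ[ℝ] E, (∀ x y, inner ℝ (P x) y = inner ℝ x (P y)) ∧
      (∀ x, x ≠ 0 → 0 < inner ℝ (P x) x) ∧
      (∀ x y, inner ℝ (J (P x)) (P y) = inner ℝ (J x) y) ∧ ∀ x, ‖P x‖ = ‖A x‖ := by
  classical
  have hA0 : ∀ x, A x = 0 → x = 0 := by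
    intro x hx
    have h1 : inner ℝ (J x) (J x) = (0 : ℝ) := by
      rw [← hA x (J x), hx, map_zero, inner_zero_left]
    rw [hJ] at h1
    exact inner_self_eq_zero.1 h1
  have hAi : Function.Injective A := (injective_iff_map_eq_zero A).2 hA0
  have hAs : Function.Surjective A := LinearMap.injective_iff_surjective.1 hAi
  have hadj : ∀ x, LinearMap.adjoint A (J (A x)) = J x := by
    intro x
    refine ext_inner_right ℝ fun y => ?_
    rw [LinearMap.adjoint_inner_left, hA]
  obtain ⟨T, hTd⟩ : ∃ T : E →ₗ[ℝ] E, ∀ x, T x = LinearMap.adjoint A (A x) :=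
    ⟨(LinearMap.adjoint A) ∘ₗ A, fun _ => rfl⟩
  have hTx : ∀ x y, inner ℝ (T x) y = inner ℝ (A x) (A y) := by
    intro x y
    rw [hTd, LinearMap.adjoint_inner_left]
  have hT : T.IsSymmetric := by
    intro x y
    rw [hTx, real_inner_comm (T y) x, hTx, real_inner_comm]
  have hJT : ∀ x y, inner ℝ (J (T x)) (T y) = inner ℝ (J x) y := by
    intro x y
    obtain ⟨x', hx'⟩ := hAs (-(J (A x)))
    obtain ⟨y', hy'⟩ := hAs (-(J (A y)))
    have e1 : J (A x') = A x := by rw [hx', map_neg, hJJ, neg_neg]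
    have e2 : J (A y') = A y := by rw [hy', map_neg, hJJ, neg_neg]
    have f1 : T x = J x' := by rw [hTd, ← e1, hadj]
    have f2 : T y = J y' := by rw [hTd, ← e2, hadj]
    rw [f1, f2, hJ, ← hA x y, ← e1, ← e2, hJ, hA]
  set b := hT.eigenvectorBasis rfl with hb
  set l := hT.eigenvalues rfl with hl
  have hTb : ∀ i, T (b i) = l i • b i := fun i => hT.apply_eigenvectorBasis rfl i
  have hbb : ∀ i, inner ℝ (b i) (b i) = (1 : ℝ) := by
    intro i
    rw [real_inner_self_eq_norm_sq, b.orthonormal.1 i]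
    norm_num
  have hlpos : ∀ i, 0 < l i := by
    intro i
    have h1 : inner ℝ (T (b i)) (b i) = l i := by
      rw [hTb, real_inner_smul_left, hbb, mul_one]
    rw [hTx] at h1
    rw [← h1, real_inner_self_eq_norm_sq]
    have h2 : A (b i) ≠ 0 := by
      intro h
      have h3 := hbb i
      rw [hA0 _ h, inner_zero_left] at h3
      exact zero_ne_one h3
    exact pow_pos (norm_pos_iff.2 h2) 2
  have hll : ∀ i j, inner ℝ (J (b i)) (b j) * (l i * l j) = inner ℝ (J (b i)) (b j) := by
    intro i j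
    have h1 := hJT (b i) (b j)
    rw [hTb, hTb, map_smul, real_inner_smul_left, real_inner_smul_right] at h1
    linarith
  -- the square root
  obtain ⟨P, hPb⟩ : ∃ P : E →ₗ[ℝ] E, ∀ i, P (b i) = √(l i) • b i :=
    ⟨b.toBasis.constr ℝ (fun i => √(l i) • b i), fun i => by
      have h := b.toBasis.constr_basis ℝ (fun i => √(l i) • b i) i
      rwa [OrthonormalBasis.coe_toBasis] at h⟩
  have hsym : ∀ x y, inner ℝ (P x) y = inner ℝ x (P y) := by
    have h : (innerₗ E).compl₁₂ P LinearMap.id = (innerₗ E).compl₁₂ LinearMap.id P := by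
      refine LinearMap.ext_basis b.toBasis b.toBasis fun i j => ?_
      simp only [OrthonormalBasis.coe_toBasis, LinearMap.compl₁₂_apply, LinearMap.id_apply, innerₗ_apply_apply,
        hPb, real_inner_smul_left, real_inner_smul_right]
      by_cases hij : i = j
      · rw [hij]
      · rw [b.orthonormal.2 hij, mul_zero, mul_zero]
    intro x y
    have h1 := LinearMap.congr_fun (LinearMap.congr_fun h x) y
    simpa only [LinearMap.compl₁₂_apply, LinearMap.id_apply, innerₗ_apply_apply] using h1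
  have hPin : ∀ i x, inner ℝ (b i) (P x) = √(l i) * inner ℝ (b i) x := by
    intro i x
    rw [← hsym, hPb, real_inner_smul_left]
  refine ⟨P, hsym, ?_, ?_, ?_⟩
  · intro x hx
    have h1 : inner ℝ (P x) x = ∑ i, √(l i) * (inner ℝ (b i) x) ^ 2 := by
      rw [← b.sum_inner_mul_inner (P x) x]
      refine Finset.sum_congr rfl fun i _ => ?_
      rw [real_inner_comm, hPin]
      ring
    rw [h1]
    have h2 : ∀ i, 0 ≤ √(l i) * (inner ℝ (b i) x) ^ 2 := fun i => by positivity
    rcases (Finset.sum_nonneg fun i _ => h2 i : (0 : ℝ) ≤ ∑ i, √(l i) * (inner ℝ (b i) x) ^ 2).lt_or_eq with h3 | h3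
    · exact h3
    · exfalso
      apply hx
      have h4 := (Finset.sum_eq_zero_iff_of_nonneg fun i _ => h2 i).1 h3.symm
      have h5 : ∀ i, inner ℝ (b i) x = (0 : ℝ) := by
        intro i
        have h6 := h4 i (Finset.mem_univ i)
        rcases mul_eq_zero.1 h6 with h7 | h7
        · exact absurd h7 (Real.sqrt_pos.2 (hlpos i)).ne'
        · exact pow_eq_zero_iff (two_ne_zero) |>.1 h7
      have h8 : inner ℝ x x = (0 : ℝ) := by
        rw [← b.sum_inner_mul_inner x x]
        exact Finset.sum_eq_zero fun i _ => by rw [h5, mul_zero]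
      exact inner_self_eq_zero.1 h8
  · have h : (innerₗ E).compl₁₂ (J ∘ₗ P) P = (innerₗ E).compl₁₂ J LinearMap.id := by
      refine LinearMap.ext_basis b.toBasis b.toBasis fun i j => ?_
      simp only [OrthonormalBasis.coe_toBasis, LinearMap.compl₁₂_apply, LinearMap.id_apply, LinearMap.comp_apply,
        innerₗ_apply_apply]
      rw [hPb, hPb, map_smul, real_inner_smul_left, real_inner_smul_right]
      by_cases h0 : inner ℝ (J (b i)) (b j) = (0 : ℝ)
      · rw [h0, mul_zero, mul_zero]
      · have h1 : l i * l j = 1 := mul_left_cancel₀ h0 (by rw [hll, mul_one])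
        have h2 : √(l i) * √(l j) = 1 := by
          rw [← Real.sqrt_mul (hlpos i).le, h1, Real.sqrt_one]
        calc √(l i) * (√(l j) * inner ℝ (J (b i)) (b j))
            = (√(l i) * √(l j)) * inner ℝ (J (b i)) (b j) := by ring
          _ = inner ℝ (J (b i)) (b j) := by rw [h2, one_mul]
    intro x y
    have h1 := LinearMap.congr_fun (LinearMap.congr_fun h x) y
    simpa only [LinearMap.compl₁₂_apply, LinearMap.id_apply, LinearMap.comp_apply, innerₗ_apply_apply] using h1
  · intro x
    have h1 : ‖P x‖ ^ 2 = ‖A x‖ ^ 2 := by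
      rw [← real_inner_self_eq_norm_sq, ← real_inner_self_eq_norm_sq, ← hTx, ← b.sum_inner_mul_inner (P x) (P x),
        ← b.sum_inner_mul_inner (T x) x]
      refine Finset.sum_congr rfl fun i _ => ?_
      have h2 := Real.mul_self_sqrt (hlpos i).le
      have h3 : inner ℝ (P x) (b i) = √(l i) * inner ℝ (b i) x := by rw [real_inner_comm, hPin]
      have h4 : inner ℝ (T x) (b i) = l i * inner ℝ (b i) x := by
        rw [hT x (b i), hTb, real_inner_smul_right, real_inner_comm]
      rw [h3, hPin, h4]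
      calc √(l i) * inner ℝ (b i) x * (√(l i) * inner ℝ (b i) x)
          = (√(l i) * √(l i)) * (inner ℝ (b i) x * inner ℝ (b i) x) := by ring
        _ = l i * inner ℝ (b i) x * inner ℝ (b i) x := by rw [h2]; ring
    exact (pow_left_inj₀ (norm_nonneg _) (norm_nonneg _) two_ne_zero).1 h1

end H88W
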