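import Mathlib

/-!
# P2: the interpolation between a positive symplectic map and the identity

`P` is symmetric, positive and symplectic (`P J P = J`), `p` a point. For `τ` in `[0,1]`:
`B τ = (P + τ) (1 + τ P)⁻¹`, `θ = (1 - τ)/(1 + τ)`, `M = (1 - θ) + θ P²`, `c τ = θ M⁻¹ P² p`.

* `B τ` is symplectic: for `P J = J P⁻¹`, so `J` conjugates `f(P)` to `f(P⁻¹)`, and
  `(P⁻¹ + τ)(1 + τ P⁻¹)⁻¹ = (1 + τ P)(P + τ)⁻¹`. In coordinates: with `x = (1 + τ P) x'`, `y = (1 + τ P) y'`: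
  `⟪J (P + τ) x', (P + τ) y'⟫ = ⟪J (1 + τ P) x', (1 + τ P) y'⟫` as both are
  `(1 + τ²) ⟪J x', y'⟫ + τ (⟪J P x', y'⟫ + ⟪J x', P y'⟫)`.
* (I) `‖B τ y‖² ≤ (1 - θ) ‖y‖² + θ ‖P y‖²`: with `w = (1 + τ P)⁻¹ y`, `(1 + τ)` times the difference of the
  right side and the left side is
  `τ (1 - τ) (τ ‖P (P - 1) w‖² + 2 (1 + τ) ⟪P (P - 1) w, (P - 1) w⟫ + (2 + τ) ‖(P - 1) w‖²) ≥ 0`.
* (II) with `y = x - c`: `(1 - θ) ‖x - c‖² + θ ‖P (x - c)‖² ≤ (1 - θ) ‖x‖² + θ ‖P (x - p)‖²`, for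
  `(1 - θ) c + θ P² c = θ P² p`: the difference is `(1 - θ) ‖c‖² + θ ‖P c‖² - 2 θ ⟪P² p, c⟫ + θ ‖P p‖²`
  with a sign, i.e. RHS - LHS `= θ ‖P p‖² - ((1 - θ) ‖c‖² + θ ‖P c‖²) = θ ⟪P² p, p - c⟫`, and
  `θ ⟪P² (p - c), p - c⟫ ≥ 0`, `θ ⟪P² (p - c), c⟫ = (1 - θ) ‖c‖² ≥ 0`.
* continuity in `τ`: inverse of `1 + τ P` and of `M` (units) is continuous
  (`NormedRing.inverse_continuousAt`, or `ContinuousLinearMap` via `Ring.inverse`).
-/

open scoped InnerProductSpace

namespace H88W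

/-- Chunk P2a: the interpolating map at one time `τ`, with the two properties. -/
theorem interp_symp {E : Type*} [NormedAddCommGroup E] [InnerProductSpace ℝ E]
    [FiniteDimensional ℝ E]
    (J : E →ₗ[ℝ] E) (hJ : ∀ x y, inner ℝ (J x) (J y) = inner ℝ x y) (hJJ : ∀ x, J (J x) = -x)
    (P : E →ₗ[ℝ] E) (hs : ∀ x y, inner ℝ (P x) y = inner ℝ x (P y))
    (hP : ∀ x y, inner ℝ (J (P x)) (P y) = inner ℝ (J x) y) (τ : ℝ) (x y : E) :
    inner ℝ (J (P x + τ • x)) (P y + τ • y) = inner ℝ (J (x + τ • P x)) (y + τ • P y) := by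
  simp only [map_add, map_smul, inner_add_left, inner_add_right, real_inner_smul_left,
    real_inner_smul_right, hP]
  ring

theorem interp_ineq {E : Type*} [NormedAddCommGroup E] [InnerProductSpace ℝ E]
    (P : E →ₗ[ℝ] E) (hs : ∀ x y, inner ℝ (P x) y = inner ℝ x (P y))
    (hp : ∀ x, 0 ≤ inner ℝ (P x) x) {τ : ℝ} (h0 : 0 ≤ τ) (h1 : τ ≤ 1) (w : E) :
    (1 + τ) * ‖P w + τ • w‖ ^ 2 ≤
      2 * τ * ‖w + τ • P w‖ ^ 2 + (1 - τ) * ‖P (w + τ • P w)‖ ^ 2 := by
  have e1 := real_inner_self_eq_norm_sq (P (P w - w))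
  have e2 := hp (P w - w)
  have e3 := real_inner_self_eq_norm_sq (P w - w)
  have p1 : 0 ≤ inner ℝ (P (P w - w)) (P (P w - w)) := by rw [e1]; positivity
  have p3 : 0 ≤ inner ℝ (P w - w) (P w - w) := by rw [e3]; positivity
  have h2 : 0 ≤ 1 - τ := by linarith
  have q1 : 0 ≤ τ * (1 - τ) * τ * inner ℝ (P (P w - w)) (P (P w - w)) := by positivity
  have q2 : 0 ≤ τ * (1 - τ) * (2 * (1 + τ)) * inner ℝ (P (P w - w)) (P w - w) := by positivity
  have q3 : 0 ≤ τ * (1 - τ) * (2 + τ) * inner ℝ (P w - w) (P w - w) := by positivity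
  have c1 : inner ℝ (P w) w = (inner ℝ w (P w) : ℝ) := real_inner_comm _ _
  have c2 : inner ℝ (P (P w)) w = (inner ℝ (P w) (P w) : ℝ) := hs _ _
  have c3 : inner ℝ (P (P w)) (P w) = (inner ℝ (P w) (P (P w)) : ℝ) := real_inner_comm _ _
  rw [← real_inner_self_eq_norm_sq, ← real_inner_self_eq_norm_sq, ← real_inner_self_eq_norm_sq]
  simp only [map_add, map_sub, map_smul, inner_add_left, inner_add_right, inner_sub_left,
    inner_sub_right, real_inner_smul_left, real_inner_smul_right, c1, c2, c3] at q1 q2 q3 ⊢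
  linarith

theorem interp_sq {E : Type*} [NormedAddCommGroup E] [InnerProductSpace ℝ E]
    (P : E →ₗ[ℝ] E) (hs : ∀ x y, inner ℝ (P x) y = inner ℝ x (P y))
    {τ : ℝ} (h0 : 0 ≤ τ) (h1 : τ ≤ 1) (p c x : E)
    (hc : (2 * τ) • c + (1 - τ) • P (P c) = (1 - τ) • P (P p)) :
    2 * τ * ‖x - c‖ ^ 2 + (1 - τ) * ‖P (x - c)‖ ^ 2 ≤
      2 * τ * ‖x‖ ^ 2 + (1 - τ) * ‖P (x - p)‖ ^ 2 := by
  have r1 : (inner ℝ ((2 * τ) • c + (1 - τ) • P (P c)) x : ℝ) = inner ℝ ((1 - τ) • P (P p)) x := by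
    rw [hc]
  have r2 : (inner ℝ ((2 * τ) • c + (1 - τ) • P (P c)) c : ℝ) = inner ℝ ((1 - τ) • P (P p)) c := by
    rw [hc]
  have h2 : 0 ≤ 1 - τ := by linarith
  have p1 : 0 ≤ (1 - τ) * inner ℝ (P (p - c)) (P (p - c)) := by
    rw [real_inner_self_eq_norm_sq]; positivity
  have p2 : 0 ≤ 2 * τ * inner ℝ c c := by
    rw [real_inner_self_eq_norm_sq]; positivity
  rw [← real_inner_self_eq_norm_sq, ← real_inner_self_eq_norm_sq, ← real_inner_self_eq_norm_sq,
    ← real_inner_self_eq_norm_sq]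
  have c1 : (inner ℝ (P (P c)) x : ℝ) = inner ℝ (P c) (P x) := hs _ _
  have c2 : (inner ℝ (P (P p)) x : ℝ) = inner ℝ (P p) (P x) := hs _ _
  have c3 : (inner ℝ (P (P c)) c : ℝ) = inner ℝ (P c) (P c) := hs _ _
  have c4 : (inner ℝ (P (P p)) c : ℝ) = inner ℝ (P p) (P c) := hs _ _
  have c5 : (inner ℝ (P x) (P c) : ℝ) = inner ℝ (P c) (P x) := real_inner_comm _ _
  have c6 : (inner ℝ (P x) (P p) : ℝ) = inner ℝ (P p) (P x) := real_inner_comm _ _
  have c7 : (inner ℝ (P c) (P p) : ℝ) = inner ℝ (P p) (P c) := real_inner_comm _ _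
  have c8 : (inner ℝ x c : ℝ) = inner ℝ c x := real_inner_comm _ _
  simp only [map_sub, inner_add_left, inner_sub_left,
    inner_sub_right, real_inner_smul_left, c1, c2, c3, c4, c5, c6, c7, c8] at r1 r2 p1 p2 ⊢
  nlinarith

private theorem p2_isUnit {E : Type*} [NormedAddCommGroup E] [InnerProductSpace ℝ E]
    [FiniteDimensional ℝ E] (A : E →L[ℝ] E) (h : ∀ x, x ≠ 0 → 0 < inner ℝ (A x) x) :
    IsUnit A := by
  have hinj : Function.Injective A := by
    rw [injective_iff_map_eq_zero]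
    intro x hx
    by_contra hne
    have := h x hne
    rw [hx, inner_zero_left] at this
    exact lt_irrefl _ this
  rw [ContinuousLinearMap.isUnit_iff_bijective]
  refine ⟨hinj, ?_⟩
  have : Function.Surjective (A : E →ₗ[ℝ] E) := LinearMap.injective_iff_surjective.1 hinj
  exact this

private theorem p2_inv_apply {E : Type*} [NormedAddCommGroup E] [InnerProductSpace ℝ E]
    (A : E →L[ℝ] E) (h : IsUnit A) (x : E) : A (Ring.inverse A x) = x := by
  have := Ring.mul_inverse_cancel A h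
  calc A (Ring.inverse A x) = (A * Ring.inverse A) x := rfl
    _ = x := by rw [this]; rfl

private theorem p2_inv_apply' {E : Type*} [NormedAddCommGroup E] [InnerProductSpace ℝ E]
    (A : E →L[ℝ] E) (h : IsUnit A) (x : E) : Ring.inverse A (A x) = x := by
  have := Ring.inverse_mul_cancel A h
  calc Ring.inverse A (A x) = (Ring.inverse A * A) x := rfl
    _ = x := by rw [this]; rfl

private theorem p2_continuous {E : Type*} [NormedAddCommGroup E] [InnerProductSpace ℝ E]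
    [FiniteDimensional ℝ E] {X : Type*} [TopologicalSpace X] (f : X → E →L[ℝ] E)
    (hf : Continuous f) (hu : ∀ t, IsUnit (f t)) : Continuous fun t => Ring.inverse (f t) := by
  haveI : CompleteSpace E := FiniteDimensional.complete ℝ E
  rw [continuous_iff_continuousAt]
  intro t
  obtain ⟨u, hu'⟩ := hu t
  have h1 := NormedRing.inverse_continuousAt u
  rw [hu'] at h1
  exact ContinuousAt.comp (f := f) h1 hf.continuousAt

/-- Chunk P2b: the path. -/
theorem interp {E : Type*} [NormedAddCommGroup E] [InnerProductSpace ℝ E] [FiniteDimensional ℝ E]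
    (J : E →ₗ[ℝ] E) (hJ : ∀ x y, inner ℝ (J x) (J y) = inner ℝ x y) (hJJ : ∀ x, J (J x) = -x)
    (P : E →L[ℝ] E) (hs : ∀ x y, inner ℝ (P x) y = inner ℝ x (P y))
    (hpos : ∀ x, x ≠ 0 → 0 < inner ℝ (P x) x)
    (hP : ∀ x y, inner ℝ (J (P x)) (P y) = inner ℝ (J x) y) (p : E) :
    ∃ (B : unitInterval → E →L[ℝ] E) (c : unitInterval → E), Continuous B ∧ Continuous c ∧
      B 0 = P ∧ c 0 = p ∧ B 1 = ContinuousLinearMap.id ℝ E ∧ c 1 = 0 ∧
      (∀ t x y, inner ℝ (J (B t x)) (B t y) = inner ℝ (J x) y) ∧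
      ∀ t x, ‖x‖ < 1 → ‖P (x - p)‖ < 1 → ‖B t (x - c t)‖ < 1 := by
  have hp0 : ∀ x, 0 ≤ inner ℝ (P x) x := by
    intro x
    rcases eq_or_ne x 0 with rfl | hx
    · simp
    · exact (hpos x hx).le
  have hPne : ∀ x, x ≠ 0 → P x ≠ 0 := by
    intro x hx h
    have := hpos x hx
    rw [h, inner_zero_left] at this
    exact lt_irrefl _ this
  -- the two families of units
  set N : unitInterval → E →L[ℝ] E := fun t => 1 + (t : ℝ) • P with hN
  set M : unitInterval → E →L[ℝ] E :=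
    fun t => (2 * (t : ℝ)) • (1 : E →L[ℝ] E) + (1 - (t : ℝ)) • (P * P) with hM
  have hNu : ∀ t, IsUnit (N t) := by
    intro t
    apply p2_isUnit
    intro x hx
    have h1 : N t x = x + (t : ℝ) • P x := rfl
    rw [h1, inner_add_left, real_inner_smul_left, real_inner_self_eq_norm_sq]
    have h2 : 0 < ‖x‖ := norm_pos_iff.2 hx
    have h3 := mul_nonneg t.2.1 (hp0 x)
    positivity
  have hMu : ∀ t, IsUnit (M t) := by
    intro t
    apply p2_isUnit
    intro x hx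
    have h1 : M t x = (2 * (t : ℝ)) • x + (1 - (t : ℝ)) • P (P x) := rfl
    rw [h1, inner_add_left, real_inner_smul_left, real_inner_smul_left, hs,
      real_inner_self_eq_norm_sq, real_inner_self_eq_norm_sq]
    have h2 : 0 < ‖x‖ := norm_pos_iff.2 hx
    have h3 : 0 < ‖P x‖ := norm_pos_iff.2 (hPne x hx)
    have h4 := t.2.1
    have h5 := t.2.2
    rcases eq_or_lt_of_le h4 with h | h
    · rw [← h]
      have : 0 < ‖P x‖ ^ 2 := by positivity
      linarith
    · have e1 : 0 < 2 * (t : ℝ) * ‖x‖ ^ 2 := by positivity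
      have e2 : 0 ≤ (1 - (t : ℝ)) * ‖P x‖ ^ 2 := mul_nonneg (by linarith) (by positivity)
      linarith
  have hNc : Continuous N := by
    rw [hN]
    fun_prop
  have hMc : Continuous M := by
    rw [hM]
    fun_prop
  have hNi := p2_continuous N hNc hNu
  have hMi := p2_continuous M hMc hMu
  refine ⟨fun t => (P + (t : ℝ) • (1 : E →L[ℝ] E)) * Ring.inverse (N t),
    fun t => Ring.inverse (M t) ((1 - (t : ℝ)) • P (P p)), ?_, ?_, ?_, ?_, ?_, ?_, ?_, ?_⟩
  · refine Continuous.mul ?_ hNi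
    fun_prop
  · refine hMi.clm_apply ?_
    fun_prop
  · have h1 : N 0 = 1 := by
      rw [hN]; simp
    simp only [h1, Ring.inverse_one, mul_one]
    simp
  · have h1 : M 0 = P * P := by
      rw [hM]; simp
    have h2 : (1 - ((0 : unitInterval) : ℝ)) • P (P p) = (M 0) p := by
      rw [h1]; simp
    simp only [h2]
    exact p2_inv_apply' _ (hMu 0) p
  · have h1 : P + (((1 : unitInterval)) : ℝ) • (1 : E →L[ℝ] E) = N 1 := by
      rw [hN]
      simp [add_comm]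
    simp only [h1]
    exact Ring.mul_inverse_cancel _ (hNu 1)
  · simp
  · intro t x y
    have h1 := interp_symp J hJ hJJ (P : E →ₗ[ℝ] E) hs hP (t : ℝ) (Ring.inverse (N t) x)
      (Ring.inverse (N t) y)
    have h2 : ∀ z, Ring.inverse (N t) z + (t : ℝ) • (P : E →ₗ[ℝ] E) (Ring.inverse (N t) z) = z :=
      fun z => p2_inv_apply (N t) (hNu t) z
    rw [h2, h2] at h1
    exact h1
  · intro t x hx hxp
    set c : E := Ring.inverse (M t) ((1 - (t : ℝ)) • P (P p)) with hc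
    have hc' : (2 * (t : ℝ)) • c + (1 - (t : ℝ)) • P (P c) = (1 - (t : ℝ)) • P (P p) :=
      p2_inv_apply (M t) (hMu t) _
    set w : E := Ring.inverse (N t) (x - c) with hw
    have hw' : w + (t : ℝ) • P w = x - c := p2_inv_apply (N t) (hNu t) _
    have h1 := interp_ineq (P : E →ₗ[ℝ] E) hs hp0 t.2.1 t.2.2 w
    have h2 := interp_sq (P : E →ₗ[ℝ] E) hs t.2.1 t.2.2 p c x hc'
    simp only [ContinuousLinearMap.coe_coe] at h1 h2
    rw [hw'] at h1
    have h3 : (P + (t : ℝ) • (1 : E →L[ℝ] E)) w = P w + (t : ℝ) • w := rfl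
    change ‖(P + (t : ℝ) • (1 : E →L[ℝ] E)) w‖ < 1
    rw [h3]
    have h4 := t.2.1
    have h5 := t.2.2
    have e1 : ‖x‖ ^ 2 < 1 := by nlinarith [norm_nonneg x]
    have e2 : ‖P (x - p)‖ ^ 2 < 1 := by nlinarith [norm_nonneg (P (x - p))]
    have e3 : (1 + (t : ℝ)) * ‖P w + (t : ℝ) • w‖ ^ 2 < 1 + (t : ℝ) := by
      refine lt_of_le_of_lt (h1.trans h2) ?_
      rcases eq_or_lt_of_le h4 with h | h
      · rw [← h]
        linarith
      · have f1 : 2 * (t : ℝ) * ‖x‖ ^ 2 < 2 * (t : ℝ) * 1 :=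
          mul_lt_mul_of_pos_left e1 (by linarith)
        have f2 : (1 - (t : ℝ)) * ‖P (x - p)‖ ^ 2 ≤ (1 - (t : ℝ)) * 1 :=
          mul_le_mul_of_nonneg_left e2.le (by linarith)
        linarith
    have e4 : ‖P w + (t : ℝ) • w‖ ^ 2 < 1 := by
      have : (0 : ℝ) < 1 + t := by linarith
      by_contra hcon
      push Not at hcon
      nlinarith
    by_contra hcon
    push Not at hcon
    nlinarith

end H88W
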