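import Pool.Agent.Lib.H88W.Defs
import Pool.Agent.Lib.H81X.Fibre

/-!
# P4: the fibre lemma

The linear half is `H81X.fibre` (any finite dimensional real inner product space with an orthogonal complex
structure `J`); here it is put in the language of a complex inner product space, `J x = I • x`.

* `fibre2`: with `p = (A₀, c₀)`, `q = (A₁, c₁)`: the map `A = A₁ A₀⁻¹`, `c = s⁻¹ (c₁ - A c₀)` sends
  `u = s⁻¹ (A₀ x + c₀)` to `s⁻¹ (A₁ x + c₁)`; a path `(B_t, d_t)` from the identity to `(A, c)` gives the path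
  `(B_t ∘ A₀, B_t c₀ + s d_t)` from `p` to `q`.
-/

open Set Metric Topology

namespace H88W

variable {W : Type*} [NormedAddCommGroup W] [InnerProductSpace ℂ W] [FiniteDimensional ℂ W]

theorem symp_inv {A : W →L[ℝ] W} (hA : IsSymp A) :
    ∃ A' : W →L[ℝ] W, IsSymp A' ∧ (∀ x, A' (A x) = x) ∧ ∀ x, A (A' x) = x := by
  haveI : FiniteDimensional ℝ W := FiniteDimensional.complexToReal W
  have hI : ∀ x : W, om x (Complex.I • x) = ‖x‖ ^ 2 := by
    intro x
    unfold om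
    rw [inner_smul_right, inner_self_eq_norm_sq_to_K]
    simp [← Complex.ofReal_pow]
  have hi : Function.Injective (A : W →ₗ[ℝ] W) := by
    rw [injective_iff_map_eq_zero]
    intro x hx
    have hx' : A x = 0 := hx
    have h1 := hA x (Complex.I • x)
    rw [hI, hx'] at h1
    have h2 : om (0 : W) (A (Complex.I • x)) = 0 := by
      unfold om
      simp
    rw [h2] at h1
    exact norm_eq_zero.1 (pow_eq_zero_iff (two_ne_zero) |>.1 h1.symm)
  set e := (LinearEquiv.ofInjectiveEndo (A : W →ₗ[ℝ] W) hi).toContinuousLinearEquiv with he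
  have h1 : ∀ x, A ((e.symm : W →L[ℝ] W) x) = x := fun x => e.apply_symm_apply x
  have h2 : ∀ x, (e.symm : W →L[ℝ] W) (A x) = x := fun x => e.symm_apply_apply x
  refine ⟨(e.symm : W →L[ℝ] W), fun u v => ?_, h2, h1⟩
  rw [← hA, h1, h1]

theorem isSymp_comp {A B : W →L[ℝ] W} (hA : IsSymp A) (hB : IsSymp B) : IsSymp (A.comp B) := by
  intro u v
  rw [ContinuousLinearMap.comp_apply, ContinuousLinearMap.comp_apply, hA, hB]

/-- The path of `H81X.fibre` in a complex inner product space. -/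
theorem fibre_path {A : W →L[ℝ] W} (hA : IsSymp A) (c : W) :
    ∃ (B : ℝ → W →L[ℝ] W) (d : ℝ → W), ContinuousOn B (Icc 0 1) ∧ ContinuousOn d (Icc 0 1) ∧
      B 0 = ContinuousLinearMap.id ℝ W ∧ d 0 = 0 ∧ B 1 = A ∧ d 1 = c ∧ (∀ t ∈ Icc (0 : ℝ) 1, IsSymp (B t)) ∧
      ∀ t ∈ Icc (0 : ℝ) 1, ∀ x, ‖B t x + d t‖ ^ 2 ≤ (1 - t) * ‖x‖ ^ 2 + t * ‖A x + c‖ ^ 2 := by
  letI : InnerProductSpace ℝ W := InnerProductSpace.complexToReal
  haveI : FiniteDimensional ℝ W := FiniteDimensional.complexToReal W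
  set J : W →L[ℝ] W := Complex.I • ContinuousLinearMap.id ℝ W with hJd
  have hJa : ∀ x, J x = Complex.I • x := fun x => rfl
  have hin : ∀ x y : W, inner ℝ x y = (inner ℂ x y).re := fun x y => rfl
  have hom : ∀ x y : W, inner ℝ (J x) y = om x y := by
    intro x y
    rw [hin, hJa, inner_smul_left]
    simp [om]
  have hJ : H81X.IsJ J := by
    refine ⟨fun x y => ?_, fun x => ?_⟩
    · rw [hin, hin, hJa, hJa, inner_smul_left, inner_smul_right, ← mul_assoc]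
      simp
    · rw [hJa, hJa, smul_smul, Complex.I_mul_I, neg_smul, one_smul]
  have hS : ∀ {B : W →L[ℝ] W}, H81X.Sp J B ↔ IsSymp B := by
    intro B
    constructor
    · intro h u v
      rw [← hom, ← hom]
      exact h u v
    · intro h u v
      rw [hom, hom]
      exact h u v
  obtain ⟨B, d, h1, h2, h3, h4, h5, h6, h7, h8⟩ := H81X.fibre hJ (hS.2 hA) c
  exact ⟨B, d, h1, h2, h3, h4, h5, h6, fun t ht => hS.1 (h7 t ht), h8⟩

theorem fibre2 {U : Set W} {s : ℝ} (hs : 0 < s) {p q : (W →L[ℝ] W) × W} (hp : p ∈ Fit U s)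
    (hq : q ∈ Fit U s) : JoinedIn (Fit U s) p q := by
  obtain ⟨A₀, c₀⟩ := p
  obtain ⟨A₁, c₁⟩ := q
  obtain ⟨hA₀, hc₀⟩ := hp
  obtain ⟨hA₁, hc₁⟩ := hq
  simp only at hA₀ hc₀ hA₁ hc₁
  obtain ⟨A', hA', hA'l, hA'r⟩ := symp_inv hA₀
  have hA : IsSymp (A₁.comp A') := isSymp_comp hA₁ hA'
  obtain ⟨B, d, hBc, hdc, hB0, hd0, hB1, hd1, hBs, hBn⟩ := fibre_path hA (s⁻¹ • (c₁ - A₁ (A' c₀)))
  refine JoinedIn.ofLine (f := fun t => ((B t).comp A₀, B t c₀ + s • d t)) ?_ ?_ ?_ ?_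
  · exact (hBc.clm_comp continuousOn_const).prodMk
      ((hBc.clm_apply continuousOn_const).add (continuousOn_const.smul hdc))
  · change ((B 0).comp A₀, B 0 c₀ + s • d 0) = (A₀, c₀)
    rw [hB0, hd0, smul_zero, add_zero, ContinuousLinearMap.id_comp]
    rfl
  · change ((B 1).comp A₀, B 1 c₀ + s • d 1) = (A₁, c₁)
    rw [hB1, hd1, smul_smul, mul_inv_cancel₀ hs.ne', one_smul]
    refine Prod.ext ?_ ?_
    · ext x
      change A₁ (A' (A₀ x)) = A₁ x
      rw [hA'l]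
    · change A₁ (A' c₀) + (c₁ - A₁ (A' c₀)) = c₁
      abel
  · rintro _ ⟨t, ht, rfl⟩
    refine ⟨isSymp_comp (hBs t ht) hA₀, fun x hx => ?_⟩
    change ‖B t (A₀ x) + (B t c₀ + s • d t)‖ < s
    set u : W := s⁻¹ • (A₀ x + c₀) with hu
    have e1 : A₀ x + c₀ = s • u := by rw [hu, smul_smul, mul_inv_cancel₀ hs.ne', one_smul]
    have e2 : B t (A₀ x) + (B t c₀ + s • d t) = s • (B t u + d t) := by
      rw [← add_assoc, ← map_add, e1, map_smul, smul_add]
    have e3 : (A₁.comp A') u + s⁻¹ • (c₁ - A₁ (A' c₀)) = s⁻¹ • (A₁ x + c₁) := by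
      change A₁ (A' u) + s⁻¹ • (c₁ - A₁ (A' c₀)) = s⁻¹ • (A₁ x + c₁)
      rw [hu, map_smul, map_smul, ← smul_add, map_add, map_add, hA'l]
      congr 1
      abel
    have e4 : ‖u‖ ^ 2 < 1 := by
      rw [hu, norm_smul, norm_inv, Real.norm_of_nonneg hs.le]
      have h1 : s⁻¹ * ‖A₀ x + c₀‖ < 1 := by
        rw [inv_mul_lt_iff₀ hs, mul_one]
        exact hc₀ x hx
      exact pow_lt_one₀ (by positivity) h1 two_ne_zero
    have e5 : ‖s⁻¹ • (A₁ x + c₁)‖ ^ 2 < 1 := by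
      rw [norm_smul, norm_inv, Real.norm_of_nonneg hs.le]
      have h1 : s⁻¹ * ‖A₁ x + c₁‖ < 1 := by
        rw [inv_mul_lt_iff₀ hs, mul_one]
        exact hc₁ x hx
      exact pow_lt_one₀ (by positivity) h1 two_ne_zero
    have e6 := hBn t ht u
    rw [e3] at e6
    have e7 : ‖B t u + d t‖ ^ 2 < 1 := by
      have h0 := ht.1
      have h1 := ht.2
      rcases eq_or_lt_of_le h0 with h | h
      · rw [← h] at e6 ⊢
        linarith
      · have h2 : t * ‖s⁻¹ • (A₁ x + c₁)‖ ^ 2 < t * 1 := mul_lt_mul_of_pos_left e5 h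
        have h3 : (1 - t) * ‖u‖ ^ 2 ≤ (1 - t) * 1 := mul_le_mul_of_nonneg_left e4.le (by linarith)
        linarith
    have e8 : ‖B t u + d t‖ < 1 := by
      by_contra hcon
      push Not at hcon
      nlinarith [norm_nonneg (B t u + d t)]
    rw [e2, norm_smul, Real.norm_of_nonneg hs.le]
    calc s * ‖B t u + d t‖ < s * 1 := mul_lt_mul_of_pos_left e8 hs
      _ = s := mul_one s

theorem fibre {U : Set W} (hU : ∀ x ∈ U, ‖x‖ < 1) {A : W →L[ℝ] W} {c : W} (hA : (A, c) ∈ Fit U 1) :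
    JoinedIn (Fit U 1) (ContinuousLinearMap.id ℝ W, 0) (A, c) := by
  refine fibre2 one_pos ⟨isSymp_id, fun x hx => ?_⟩ hA
  change ‖x + 0‖ < 1
  rw [add_zero]
  exact hU x hx

end H88W
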