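import Pool.Agent.Lib.H88W.Defs

/-!
# Q1: the rescaled maps are embeddings, and depend continuously on `(s, A, c)`
-/

open Set Metric Topology
open scoped ContDiff

set_option linter.unusedSectionVars false

namespace H88W

variable {W : Type*} [NormedAddCommGroup W] [InnerProductSpace ℂ W] [FiniteDimensional ℂ W]

theorem om_I (x : W) : om x (Complex.I • x) = ‖x‖ ^ 2 := by
  unfold om
  rw [inner_smul_right, inner_self_eq_norm_sq_to_K]
  simp [← Complex.ofReal_pow]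

theorem symp_injective {A : W →L[ℝ] W} (hA : IsSymp A) : Function.Injective A := by
  rw [injective_iff_map_eq_zero]
  intro x hx
  have h1 := hA x (Complex.I • x)
  rw [om_I, hx] at h1
  have h2 : om (0 : W) (A (Complex.I • x)) = 0 := by
    unfold om
    simp
  rw [h2] at h1
  exact norm_eq_zero.1 (pow_eq_zero_iff (two_ne_zero)|>.1 h1.symm)

theorem smul_mem {l s : ℝ} (hs : 0 < s) (hs1 : s ≤ 1) {z : W} (hz : z ∈ ball (0 : W) l) :
    s • z ∈ ball (0 : W) l := by
  rw [mem_ball_zero_iff] at hz ⊢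
  rw [norm_smul, Real.norm_of_nonneg hs.le]
  nlinarith [norm_nonneg z]

theorem sc_eventuallyEq {l : ℝ} (ψ : W → W) (s : ℝ) (A : W →L[ℝ] W) (c : W) {z : W}
    (hz : z ∈ ball (0 : W) l) :
    sc l ψ s A c =ᶠ[𝓝 z] fun z => s⁻¹ • (A (ψ (s • z)) + c) := by
  filter_upwards [isOpen_ball.mem_nhds hz] with y hy
  exact indicator_of_mem hy _

theorem hasFDerivAt_sc {l : ℝ} {ψ : W → W} (hψ : IsEmb l 1 ψ) {s : ℝ} (hs : 0 < s)
    (hs1 : s ≤ 1) (A : W →L[ℝ] W) (c : W) {z : W} (hz : z ∈ ball (0 : W) l) :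
    HasFDerivAt (sc l ψ s A c) (A.comp (fderiv ℝ ψ (s • z))) z := by
  have hsz := smul_mem hs hs1 hz
  have h1 : HasFDerivAt ψ (fderiv ℝ ψ (s • z)) (s • z) :=
    ((hψ.smooth.contDiffAt (isOpen_ball.mem_nhds hsz)).differentiableAt (by simp)).hasFDerivAt
  have h2 : HasFDerivAt (fun z : W => s • z) (s • ContinuousLinearMap.id ℝ W) z :=
    (hasFDerivAt_id z).const_smul s
  have h3 : HasFDerivAt (fun z => ψ (s • z))
      ((fderiv ℝ ψ (s • z)).comp (s • ContinuousLinearMap.id ℝ W)) z :=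
    HasFDerivAt.comp z h1 h2
  have h4 : HasFDerivAt (fun z => A (ψ (s • z)))
      (A.comp ((fderiv ℝ ψ (s • z)).comp (s • ContinuousLinearMap.id ℝ W))) z :=
    A.hasFDerivAt.comp z h3
  have h5 := (h4.add_const c).const_smul s⁻¹
  have h6 : s⁻¹ • A.comp ((fderiv ℝ ψ (s • z)).comp (s • ContinuousLinearMap.id ℝ W)) =
      A.comp (fderiv ℝ ψ (s • z)) := by
    ext v
    simp [smul_smul, hs.ne']
  rw [h6] at h5
  exact h5.congr_of_eventuallyEq (sc_eventuallyEq ψ s A c hz)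

theorem isEmb_sc {l : ℝ} {ψ : W → W} (hψ : IsEmb l 1 ψ) {s : ℝ} {A : W →L[ℝ] W} {c : W}
    (h : (s, A, c) ∈ Dom l ψ) : IsEmb l 1 (sc l ψ s A c) := by
  obtain ⟨hs, hs1, hA, hb⟩ := h
  simp only at hs hs1 hA hb
  refine ⟨?_, ?_, ?_, ?_⟩
  · have h1 : ContDiffOn ℝ (⊤ : ℕ∞) (fun z => s⁻¹ • (A (ψ (s • z)) + c)) (ball 0 l) := by
      have h2 : ContDiffOn ℝ (⊤ : ℕ∞) (fun z : W => ψ (s • z)) (ball 0 l) :=
        hψ.smooth.comp (contDiff_id.const_smul s).contDiffOn (fun z hz => smul_mem hs hs1 hz)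
      have h3 : ContDiffOn ℝ (⊤ : ℕ∞) (fun z : W => A (ψ (s • z))) (ball 0 l) :=
        h2.continuousLinearMap_comp A
      exact (h3.add contDiffOn_const).const_smul s⁻¹
    exact h1.congr fun z hz => indicator_of_mem hz _
  · intro x hx y hy hxy
    unfold sc at hxy
    rw [indicator_of_mem hx, indicator_of_mem hy] at hxy
    have h1 := smul_right_injective W (inv_ne_zero hs.ne') hxy
    have h2 := symp_injective hA (add_right_cancel h1)
    have h3 := hψ.inj (smul_mem hs hs1 hx) (smul_mem hs hs1 hy) h2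
    exact smul_right_injective W hs.ne' h3
  · intro z hz
    unfold sc
    rw [indicator_of_mem hz, mem_ball_zero_iff, norm_smul, norm_inv, Real.norm_of_nonneg hs.le,
      inv_mul_lt_iff₀ hs, mul_one]
    exact hb z hz
  · intro z hz
    rw [(hasFDerivAt_sc hψ hs hs1 A c hz).fderiv]
    intro u v
    rw [ContinuousLinearMap.comp_apply, ContinuousLinearMap.comp_apply, hA]
    exact hψ.symp _ (smul_mem hs hs1 hz) u v

/-- The rescaled embedding of a triple in `Dom l ψ`. -/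
noncomputable def Theta {l : ℝ} {ψ : W → W} (hψ : IsEmb l 1 ψ) (p : Dom l ψ) : Emb W l 1 :=
  ⟨sc l ψ p.1.1 p.1.2.1 p.1.2.2, isEmb_sc hψ p.2, fun _ hz => indicator_of_notMem hz _⟩

theorem iteratedFDeriv_sc_zero {l : ℝ} {ψ : W → W} (s : ℝ) (A : W →L[ℝ] W) (c : W) {z : W}
    (hz : z ∈ ball (0 : W) l) (m : Fin 0 → W) :
    iteratedFDeriv ℝ 0 (sc l ψ s A c) z m = s⁻¹ • (A (ψ (s • z)) + c) := by
  rw [iteratedFDeriv_zero_apply]
  exact indicator_of_mem hz _

theorem iteratedFDeriv_comp_scale {ψ : W → W} {s : ℝ} (hs : 0 < s) (z : W) (k : ℕ) :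
    iteratedFDeriv ℝ k (fun z => ψ (s • z)) z = s ^ k • iteratedFDeriv ℝ k ψ (s • z) := by
  let g : W ≃L[ℝ] W := ContinuousLinearEquiv.smulLeft (Units.mk0 s hs.ne')
  have hg : ∀ z, g z = s • z := fun z => rfl
  have h1 := g.iteratedFDerivWithin_comp_right ψ uniqueDiffOn_univ (x := z) (mem_univ _) k
  rw [preimage_univ, iteratedFDerivWithin_univ, iteratedFDerivWithin_univ] at h1
  have h2 : (fun z => ψ (s • z)) = ψ ∘ g := rfl
  rw [h2, h1]
  ext m
  rw [ContinuousMultilinearMap.compContinuousLinearMap_apply]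
  have h3 : (fun i => (g : W →L[ℝ] W) (m i)) = fun i => s • m i := rfl
  rw [h3, ContinuousMultilinearMap.map_smul_univ]
  simp [hg]

theorem iteratedFDeriv_sc {l : ℝ} {ψ : W → W} (hψ : IsEmb l 1 ψ) {s : ℝ} (hs : 0 < s)
    (hs1 : s ≤ 1) (A : W →L[ℝ] W) (c : W) {z : W} (hz : z ∈ ball (0 : W) l) {k : ℕ} (hk : k ≠ 0) :
    iteratedFDeriv ℝ k (sc l ψ s A c) z =
      (s⁻¹ * s ^ k) • A.compContinuousMultilinearMap (iteratedFDeriv ℝ k ψ (s • z)) := by
  have hsz := smul_mem hs hs1 hz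
  rw [((sc_eventuallyEq ψ s A c hz).iteratedFDeriv ℝ k).eq_of_nhds]
  have hψat : ContDiffAt ℝ (⊤ : ℕ∞) ψ (s • z) := hψ.smooth.contDiffAt (isOpen_ball.mem_nhds hsz)
  have h1 : ContDiffAt ℝ (⊤ : ℕ∞) (fun z => ψ (s • z)) z :=
    hψat.comp z (contDiffAt_id.const_smul s)
  have h2 : ContDiffAt ℝ (⊤ : ℕ∞) (fun z => A (ψ (s • z))) z := h1.continuousLinearMap_comp A
  have hk' : ((k : ℕ∞) : WithTop ℕ∞) ≤ ((⊤ : ℕ∞) : WithTop ℕ∞) := by exact_mod_cast le_top
  have e1 : iteratedFDeriv ℝ k (fun z => s⁻¹ • (A (ψ (s • z)) + c)) z =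
      s⁻¹ • iteratedFDeriv ℝ k (fun z => A (ψ (s • z)) + c) z :=
    iteratedFDeriv_const_smul_apply' ((h2.add contDiffAt_const).of_le hk')
  have e2 : iteratedFDeriv ℝ k (fun z => A (ψ (s • z)) + c) z =
      iteratedFDeriv ℝ k (fun z => A (ψ (s • z))) z := by
    rw [fun_iteratedFDeriv_add_apply (h2.of_le hk') contDiffAt_const,
      iteratedFDeriv_const_of_ne hk, Pi.zero_apply, add_zero]
  have e3 : iteratedFDeriv ℝ k (fun z => A (ψ (s • z))) z =
      A.compContinuousMultilinearMap (iteratedFDeriv ℝ k (fun z => ψ (s • z)) z) :=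
    A.iteratedFDeriv_comp_left h1 hk'
  rw [e1, e2, e3, iteratedFDeriv_comp_scale hs]
  ext m
  simp [smul_smul]

theorem continuous_Theta {l : ℝ} {ψ : W → W} (hψ : IsEmb l 1 ψ) : Continuous (Theta hψ) := by
  apply continuous_emb
  intro k
  apply ContinuousMap.continuous_of_continuous_uncurry
  have hs : Continuous fun p : Dom l ψ × ball (0 : W) l => p.1.1.1 :=
    (continuous_fst.comp continuous_subtype_val).comp continuous_fst
  have hA : Continuous fun p : Dom l ψ × ball (0 : W) l => p.1.1.2.1 :=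
    ((continuous_fst.comp continuous_snd).comp continuous_subtype_val).comp continuous_fst
  have hc : Continuous fun p : Dom l ψ × ball (0 : W) l => p.1.1.2.2 :=
    ((continuous_snd.comp continuous_snd).comp continuous_subtype_val).comp continuous_fst
  have hz : Continuous fun p : Dom l ψ × ball (0 : W) l => (p.2 : W) :=
    continuous_subtype_val.comp continuous_snd
  have hsz : Continuous fun p : Dom l ψ × ball (0 : W) l => p.1.1.1 • (p.2 : W) := hs.smul hz
  have hmem : ∀ p : Dom l ψ × ball (0 : W) l, p.1.1.1 • (p.2 : W) ∈ ball (0 : W) l :=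
    fun p => smul_mem p.1.2.1 p.1.2.2.1 p.2.2
  have hinv : Continuous fun p : Dom l ψ × ball (0 : W) l => (p.1.1.1)⁻¹ :=
    hs.inv₀ fun p => p.1.2.1.ne'
  rcases eq_or_ne k 0 with hk | hk
  · subst hk
    have h1 : Continuous fun p : Dom l ψ × ball (0 : W) l => ψ (p.1.1.1 • (p.2 : W)) :=
      hψ.smooth.continuousOn.comp_continuous hsz hmem
    have h2 : Continuous fun p : Dom l ψ × ball (0 : W) l =>
        (p.1.1.1)⁻¹ • (p.1.1.2.1 (ψ (p.1.1.1 • (p.2 : W))) + p.1.1.2.2) :=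
      hinv.smul ((hA.clm_apply h1).add hc)
    have h3 := (continuousMultilinearCurryFin0 ℝ W W).symm.continuous.comp h2
    refine h3.congr ?_
    intro p
    ext m
    exact (iteratedFDeriv_sc_zero p.1.1.1 p.1.1.2.1 p.1.1.2.2 p.2.2 m).symm
  · have h1 : Continuous fun p : Dom l ψ × ball (0 : W) l =>
        iteratedFDeriv ℝ k ψ (p.1.1.1 • (p.2 : W)) :=
      (iteratedFDeriv_continuousOn hψ.smooth k).comp_continuous hsz hmem
    have h2 : Continuous fun p : Dom l ψ × ball (0 : W) l =>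
        p.1.1.2.1.compContinuousMultilinearMap (iteratedFDeriv ℝ k ψ (p.1.1.1 • (p.2 : W))) :=
      ((ContinuousLinearMap.compContinuousMultilinearMapL ℝ (fun _ : Fin k => W) W
        W).continuous.comp hA).clm_apply h1
    have h3 := (hinv.mul (hs.pow k)).smul h2
    refine h3.congr ?_
    intro p
    exact (iteratedFDeriv_sc hψ p.1.2.1 p.1.2.2.1 p.1.1.2.1 p.1.1.2.2 p.2.2 hk).symm

end H88W
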