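import Pool.Agent.Lib.H88W.Q1
import Pool.Agent.Lib.H88W.P4

/-!
# Q3: the limit `s → 0`

Proof. `L = fderiv ℝ ψ 0` is symplectic; `A = L⁻¹` (`symp_inv`), `c = -A (ψ 0)`. By differentiability at
`0`, for `ε > 0` and `w` small, `‖A (ψ w) + c - w‖ ≤ ε ‖w‖`. With `w = s z`, `‖z‖ ≤ l`:
`‖A (ψ (s z)) + c‖ ≤ (1 + ε) l s < s`. The jets: order `0`: `‖s⁻¹ (A (ψ (s z)) + c) - z‖ ≤ ε l`; order
`k ≥ 1`: `iteratedFDeriv_sc` and `s⁻¹ s^k = s^(k-1)`, with `D^k ψ (s z) → D^k ψ 0` uniformly for `z` in the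
ball; for `k = 1` the limit is `A ∘ Dψ(0) = 1`, for `k ≥ 2` it is `0`. Uniform convergence on the ball gives
convergence in `C(ball, _)` (`ContinuousMap.tendsto_of_tendstoLocallyUniformly`).
-/

open Set Metric Topology
open scoped ContDiff

set_option linter.unusedSectionVars false

namespace H88W

variable {W : Type*} [NormedAddCommGroup W] [InnerProductSpace ℂ W] [FiniteDimensional ℂ W]

private theorem q3_first {l : ℝ} (hl : 0 < l) {ψ : W → W} (hψ : IsEmb l 1 ψ) {A : W →L[ℝ] W}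
    (hA : ∀ x, A (fderiv ℝ ψ 0 x) = x) {ε : ℝ} (hε : 0 < ε) :
    ∃ δ > 0, ∀ w : W, ‖w‖ < δ → ‖A (ψ w) + -A (ψ 0) - w‖ ≤ ε * ‖w‖ := by
  have h0 : (0 : W) ∈ ball (0 : W) l := mem_ball_self hl
  have h1 : HasFDerivAt ψ (fderiv ℝ ψ 0) 0 :=
    ((hψ.smooth.contDiffAt (isOpen_ball.mem_nhds h0)).differentiableAt (by simp)).hasFDerivAt
  have h2 : HasFDerivAt (fun w => A (ψ w)) (A.comp (fderiv ℝ ψ 0)) 0 := A.hasFDerivAt.comp 0 h1
  have h3 := h2.isLittleO.def hε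
  obtain ⟨δ, hδ, h4⟩ := Metric.eventually_nhds_iff.1 h3
  refine ⟨δ, hδ, fun w hw => ?_⟩
  have h5 := h4 (y := w) (by rwa [dist_zero_right])
  rw [ContinuousLinearMap.comp_apply, sub_zero, hA] at h5
  rwa [← sub_eq_add_neg]

private theorem q3_incl {l : ℝ} (hl1 : l ≤ 1) (ψ : W → W) {A : W →L[ℝ] W}
    (hA : ∀ x, A (fderiv ℝ ψ 0 x) = x) {k : ℕ} (hk : k ≠ 0) {z : W} (hz : z ∈ ball (0 : W) l) :
    iteratedFDeriv ℝ k (incl (W := W) hl1).1 z =
      (0 : ℝ) ^ (k - 1) • A.compContinuousMultilinearMap (iteratedFDeriv ℝ k ψ 0) := by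
  have e0 : (incl (W := W) hl1).1 =ᶠ[𝓝 z] id := by
    filter_upwards [isOpen_ball.mem_nhds hz] with y hy
    exact indicator_of_mem hy _
  rw [(e0.iteratedFDeriv ℝ k).eq_of_nhds]
  obtain ⟨j, rfl⟩ := Nat.exists_eq_succ_of_ne_zero hk
  rw [Nat.succ_eq_add_one, Nat.add_sub_cancel]
  rcases Nat.eq_zero_or_pos j with hj | hj
  · subst hj
    ext m
    rw [iteratedFDeriv_one_apply, fderiv_id]
    simp [iteratedFDeriv_one_apply, hA]
  · ext m
    rw [iteratedFDeriv_succ_apply_right, zero_pow hj.ne', zero_smul]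
    have e1 : (fun y : W => fderiv ℝ id y) = fun _ => ContinuousLinearMap.id ℝ W := by
      funext y
      exact fderiv_id
    rw [e1, iteratedFDeriv_const_of_ne hj.ne']
    simp

private theorem q3_cont {l : ℝ} (hl : 0 < l) {ψ : W → W} (hψ : IsEmb l 1 ψ) (A : W →L[ℝ] W)
    (k : ℕ) {ε : ℝ} (hε : 0 < ε) :
    ∃ δ > 0, ∀ (s : ℝ) (w : W), |s| < δ → ‖w‖ < δ →
      dist (s ^ (k - 1) • A.compContinuousMultilinearMap (iteratedFDeriv ℝ k ψ w))
        ((0 : ℝ) ^ (k - 1) • A.compContinuousMultilinearMap (iteratedFDeriv ℝ k ψ 0)) < ε := by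
  have h0 : (0 : W) ∈ ball (0 : W) l := mem_ball_self hl
  have h1 : ContinuousAt (fun z => iteratedFDeriv ℝ k ψ z) (0 : W) :=
    (iteratedFDeriv_continuousOn hψ.smooth k).continuousAt (isOpen_ball.mem_nhds h0)
  have h2 : ContinuousAt (fun p : ℝ × W => iteratedFDeriv ℝ k ψ p.2) ((0 : ℝ), (0 : W)) :=
    ContinuousAt.comp (g := fun z => iteratedFDeriv ℝ k ψ z) (f := fun p : ℝ × W => p.2)
      (x := ((0 : ℝ), (0 : W))) h1 continuousAt_snd
  have h3 : ContinuousAt (fun p : ℝ × W =>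
      A.compContinuousMultilinearMap (iteratedFDeriv ℝ k ψ p.2)) ((0 : ℝ), (0 : W)) :=
    ((ContinuousLinearMap.compContinuousMultilinearMapL ℝ (fun _ : Fin k => W) W
      W) A).continuous.continuousAt.comp h2
  have h4 : ContinuousAt (fun p : ℝ × W => p.1 ^ (k - 1) •
      A.compContinuousMultilinearMap (iteratedFDeriv ℝ k ψ p.2)) ((0 : ℝ), (0 : W)) :=
    (continuousAt_fst.pow (k - 1)).smul h3
  obtain ⟨δ, hδ, h5⟩ := Metric.continuousAt_iff.1 h4 ε hε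
  refine ⟨δ, hδ, fun s w hs hw => ?_⟩
  refine h5 (x := (s, w)) ?_
  rw [Prod.dist_eq, max_lt_iff]
  refine ⟨?_, ?_⟩
  · rw [Real.dist_eq, sub_zero]
    exact hs
  · rw [dist_zero_right]
    exact hw

theorem small_limit {l : ℝ} (hl : 0 < l) (hl1 : l < 1) {ψ : W → W} (hψ : IsEmb l 1 ψ) :
    ∃ (A : W →L[ℝ] W) (c : W) (δ : ℝ), 0 < δ ∧ δ ≤ 1 ∧ IsSymp A ∧
      (∀ s, 0 < s → s < δ → ∀ z ∈ closedBall (0 : W) l, ‖A (ψ (s • z)) + c‖ < s) ∧
      ∀ K : Set (Emb W l 1), IsClosed K →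
        (∀ s, 0 < s → s < δ → ∃ h : (s, A, c) ∈ Dom l ψ, Theta hψ ⟨(s, A, c), h⟩ ∈ K) →
        incl hl1.le ∈ K := by
  obtain ⟨A, hA, hA1, -⟩ := symp_inv (hψ.symp 0 (mem_ball_self hl))
  obtain ⟨δ', hδ', hd'⟩ := q3_first hl hψ hA1 (ε := 1 - l) (by linarith)
  obtain ⟨δ, hδ, hδ1, hd⟩ : ∃ δ : ℝ, 0 < δ ∧ δ ≤ 1 ∧
      ∀ w : W, ‖w‖ < δ → ‖A (ψ w) + -A (ψ 0) - w‖ ≤ (1 - l) * ‖w‖ :=
    ⟨min δ' 1, lt_min hδ' one_pos, min_le_right _ _,
      fun w hw => hd' w (hw.trans_le (min_le_left _ _))⟩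
  refine ⟨A, -A (ψ 0), δ, hδ, hδ1, hA, ?_, ?_⟩
  · intro s hs hsd z hz
    rw [mem_closedBall_zero_iff] at hz
    have hn : ‖s • z‖ = s * ‖z‖ := by rw [norm_smul, Real.norm_of_nonneg hs.le]
    have hle : s * ‖z‖ ≤ s * l := mul_le_mul_of_nonneg_left hz hs.le
    have h1 := hd (s • z) (by rw [hn]; nlinarith)
    have h2 : ‖A (ψ (s • z)) + -A (ψ 0)‖ ≤ ‖A (ψ (s • z)) + -A (ψ 0) - s • z‖ + ‖s • z‖ := by
      have := norm_add_le (A (ψ (s • z)) + -A (ψ 0) - s • z) (s • z)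
      rwa [sub_add_cancel] at this
    rw [hn] at h1 h2
    nlinarith [norm_nonneg z, mul_pos hs hl, mul_pos hs (sub_pos.2 hl1),
      mul_pos (mul_pos hs (sub_pos.2 hl1)) (sub_pos.2 hl1)]
  · intro K hK hmem
    classical
    let f : ℝ → Emb W l 1 := fun s =>
      if h : (s, A, -A (ψ 0)) ∈ Dom l ψ then Theta hψ ⟨(s, A, -A (ψ 0)), h⟩ else incl hl1.le
    have hf : ∀ s, 0 < s → s < δ → ∃ h : (s, A, -A (ψ 0)) ∈ Dom l ψ,
        f s = Theta hψ ⟨(s, A, -A (ψ 0)), h⟩ := by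
      intro s hs hsd
      obtain ⟨h, -⟩ := hmem s hs hsd
      exact ⟨h, dif_pos h⟩
    have hfK : ∀ᶠ s in 𝓝[>] (0 : ℝ), f s ∈ K := by
      filter_upwards [Ioo_mem_nhdsGT hδ] with s hs
      obtain ⟨h, h1⟩ := hmem s hs.1 hs.2
      have h2 : f s = Theta hψ ⟨(s, A, -A (ψ 0)), h⟩ := dif_pos h
      rw [h2]
      exact h1
    refine hK.mem_of_tendsto (tendsto_emb (f := f) ?_) hfK
    intro k
    apply ContinuousMap.tendsto_of_tendstoLocallyUniformly
    apply TendstoUniformly.tendstoLocallyUniformly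
    rw [Metric.tendstoUniformly_iff]
    intro ε hε
    rcases eq_or_ne k 0 with hk | hk
    · subst hk
      obtain ⟨δ1, hδ2, hd1⟩ := q3_first hl hψ hA1 (ε := ε) hε
      filter_upwards [Ioo_mem_nhdsGT (lt_min hδ hδ2)] with s hs z
      have hs0 : 0 < s := hs.1
      obtain ⟨h, hfs⟩ := hf s hs0 (lt_of_lt_of_le hs.2 (min_le_left _ _))
      have hz : ‖(z : W)‖ < l := by
        have := z.2
        rwa [mem_ball_zero_iff] at this
      have e1 : jet 0 (f s) z = (continuousMultilinearCurryFin0 ℝ W W).symm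
          (s⁻¹ • (A (ψ (s • (z : W))) + -A (ψ 0))) := by
        rw [hfs]
        change iteratedFDeriv ℝ 0 (sc l ψ s A (-A (ψ 0))) z = _
        rw [iteratedFDeriv_zero_eq_comp, Function.comp_apply]
        congr 1
        exact indicator_of_mem z.2 _
      have e2 : jet 0 (incl (W := W) hl1.le) z =
          (continuousMultilinearCurryFin0 ℝ W W).symm (z : W) := by
        change iteratedFDeriv ℝ 0 (indicator (ball 0 l) id) (z : W) = _
        rw [iteratedFDeriv_zero_eq_comp, Function.comp_apply]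
        congr 1
        exact indicator_of_mem z.2 _
      rw [e1, e2, LinearIsometryEquiv.dist_map, dist_comm, dist_eq_norm]
      have hn : ‖s • (z : W)‖ = s * ‖(z : W)‖ := by rw [norm_smul, Real.norm_of_nonneg hs0.le]
      have hlt : s * ‖(z : W)‖ < δ1 := by
        have := lt_of_lt_of_le hs.2 (min_le_right _ _)
        nlinarith [norm_nonneg (z : W)]
      have h1 := hd1 (s • (z : W)) (by rwa [hn])
      have e3 : s⁻¹ • (A (ψ (s • (z : W))) + -A (ψ 0)) - (z : W) =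
          s⁻¹ • (A (ψ (s • (z : W))) + -A (ψ 0) - s • (z : W)) := by
        rw [smul_sub, smul_smul, inv_mul_cancel₀ hs0.ne', one_smul]
      rw [e3, norm_smul, norm_inv, Real.norm_of_nonneg hs0.le, inv_mul_lt_iff₀ hs0]
      rw [hn] at h1
      refine lt_of_le_of_lt h1 ?_
      have h2 : ‖(z : W)‖ < 1 := hz.trans hl1
      nlinarith [mul_pos hs0 hε]
    · obtain ⟨δ1, hδ2, hd1⟩ := q3_cont hl hψ A k (ε := ε) hε
      filter_upwards [Ioo_mem_nhdsGT (lt_min hδ hδ2)] with s hs z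
      have hs0 : 0 < s := hs.1
      have hsd1 : s < δ1 := lt_of_lt_of_le hs.2 (min_le_right _ _)
      obtain ⟨h, hfs⟩ := hf s hs0 (lt_of_lt_of_le hs.2 (min_le_left _ _))
      have hz : ‖(z : W)‖ < l := by
        have := z.2
        rwa [mem_ball_zero_iff] at this
      have e1 : jet k (f s) z =
          s ^ (k - 1) • A.compContinuousMultilinearMap (iteratedFDeriv ℝ k ψ (s • (z : W))) := by
        rw [hfs]
        change iteratedFDeriv ℝ k (sc l ψ s A (-A (ψ 0))) z = _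
        rw [iteratedFDeriv_sc hψ hs0 h.2.1 A _ z.2 hk]
        congr 1
        obtain ⟨j, rfl⟩ := Nat.exists_eq_succ_of_ne_zero hk
        rw [Nat.succ_eq_add_one, Nat.add_sub_cancel, pow_succ']
        rw [← mul_assoc, inv_mul_cancel₀ hs0.ne', one_mul]
      have e2 : jet k (incl (W := W) hl1.le) z =
          (0 : ℝ) ^ (k - 1) • A.compContinuousMultilinearMap (iteratedFDeriv ℝ k ψ 0) :=
        q3_incl hl1.le ψ hA1 hk z.2
      rw [e1, e2, dist_comm]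
      refine hd1 s (s • (z : W)) ?_ ?_
      · rwa [abs_of_pos hs0]
      · rw [norm_smul, Real.norm_of_nonneg hs0.le]
        nlinarith [norm_nonneg (z : W)]

end H88W
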