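import Pool.Agent.Lib.H88W.Q3

/-!
# R1: for `0 < s < 1` all rescaled maps are in the component of the inclusion

`Φ : Dom l ψ → X` is a continuous map to a topological space (`Theta hψ`, or its corestriction to a
subspace).

* For `(s₀, A, c)` with the strict inequality on `closedBall 0 l` there is `ε > 0` with the same for
  `|s - s₀| < ε` (compactness of `closedBall 0 l`; the function `(s, z) ↦ ‖A (ψ (s z)) + c‖ - s` is continuous
  on `(0,1) × closedBall 0 l`).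
* For `(s, A, c), (s, A', c')` in `Dom l ψ`, the images by `Φ` are in the same component (`fibre2` with
  `U = (fun z => ψ (s • z)) '' ball 0 l`).
* So `s ↦ ConnectedComponents.mk (Φ (s, A, c))`, `(A, c)` from `H`, is locally constant on `(0,1)`
  which is preconnected, hence constant; the components are closed, and `LimProp` identifies the one.
-/

open Set Metric Topology
open scoped ContDiff

set_option linter.unusedSectionVars false

namespace H88W

variable {W : Type*} [NormedAddCommGroup W] [InnerProductSpace ℂ W] [FiniteDimensional ℂ W]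
variable {X : Type*} [TopologicalSpace X]

/-- The property of `Φ` and `x₀` given by `small_limit`. -/
def LimProp {l : ℝ} {ψ : W → W} (Φ : Dom l ψ → X) (x₀ : X) : Prop :=
  ∃ (A : W →L[ℝ] W) (c : W) (δ : ℝ), 0 < δ ∧ δ ≤ 1 ∧ IsSymp A ∧
    (∀ s, 0 < s → s < δ → ∀ z ∈ closedBall (0 : W) l, ‖A (ψ (s • z)) + c‖ < s) ∧
    ∀ K : Set X, IsClosed K →
      (∀ s, 0 < s → s < δ → ∃ h : (s, A, c) ∈ Dom l ψ, Φ ⟨(s, A, c), h⟩ ∈ K) → x₀ ∈ K

/-- Two fitting pairs at the same scale give points in the same component. -/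
theorem same_component {l : ℝ} {ψ : W → W} {Φ : Dom l ψ → X} (hΦ : Continuous Φ) {s : ℝ}
    {A A' : W →L[ℝ] W} {c c' : W} (h : (s, A, c) ∈ Dom l ψ) (h' : (s, A', c') ∈ Dom l ψ) :
    Φ ⟨(s, A', c'), h'⟩ ∈ connectedComponent (Φ ⟨(s, A, c), h⟩) := by
  have hs : 0 < s := h.1
  have hs1 : s ≤ 1 := h.2.1
  have hA : IsSymp A := h.2.2.1
  have hb : ∀ z ∈ ball (0 : W) l, ‖A (ψ (s • z)) + c‖ < s := h.2.2.2
  have hA' : IsSymp A' := h'.2.2.1
  have hb' : ∀ z ∈ ball (0 : W) l, ‖A' (ψ (s • z)) + c'‖ < s := h'.2.2.2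
  set U : Set W := (fun z => ψ (s • z)) '' ball 0 l with hU
  have hp : (A, c) ∈ Fit U s := by
    refine ⟨hA, ?_⟩
    rintro x ⟨z, hz, rfl⟩
    exact hb z hz
  have hq : (A', c') ∈ Fit U s := by
    refine ⟨hA', ?_⟩
    rintro x ⟨z, hz, rfl⟩
    exact hb' z hz
  obtain ⟨γ, hγ⟩ := fibre2 hs hp hq
  have hD : ∀ t, (s, γ t) ∈ Dom l ψ := by
    intro t
    refine ⟨hs, hs1, (hγ t).1, ?_⟩
    intro z hz
    exact (hγ t).2 _ ⟨z, hz, rfl⟩
  have hcont : Continuous fun t : unitInterval => Φ ⟨(s, γ t), hD t⟩ := by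
    refine hΦ.comp (Continuous.subtype_mk ?_ _)
    exact continuous_const.prodMk γ.continuous
  have h1 : ∀ (p q : (W →L[ℝ] W) × W) (hp : (s, p) ∈ Dom l ψ) (hq : (s, q) ∈ Dom l ψ), p = q →
      Φ ⟨(s, p), hp⟩ = Φ ⟨(s, q), hq⟩ := by
    rintro p q hp hq rfl
    rfl
  let P : Path (Φ ⟨(s, A, c), h⟩) (Φ ⟨(s, A', c'), h'⟩) :=
    { toFun := fun t => Φ ⟨(s, γ t), hD t⟩
      continuous_toFun := hcont
      source' := h1 _ _ _ _ γ.source
      target' := h1 _ _ _ _ γ.target }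
  exact pathComponent_subset_component _ ⟨P⟩

/-- A strict fit on the closed ball persists for nearby scales. -/
theorem open_in_s {l : ℝ} (hl : 0 < l) {ψ : W → W} (hψ : IsEmb l 1 ψ) {s₀ : ℝ} (h0 : 0 < s₀)
    (h1 : s₀ < 1) {A : W →L[ℝ] W} {c : W}
    (h : ∀ z ∈ closedBall (0 : W) l, ‖A (ψ (s₀ • z)) + c‖ < s₀) :
    ∀ᶠ s in 𝓝 s₀, ∀ z ∈ closedBall (0 : W) l, ‖A (ψ (s • z)) + c‖ < s := by
  have : ProperSpace W := FiniteDimensional.proper ℂ W
  refine (isCompact_closedBall (0 : W) l).eventually_forall_of_forall_eventually ?_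
  intro z hz
  have hmem : s₀ • z ∈ ball (0 : W) l := by
    rw [mem_closedBall_zero_iff] at hz
    rw [mem_ball_zero_iff, norm_smul, Real.norm_of_nonneg h0.le]
    nlinarith [norm_nonneg z]
  have c1 : ContinuousAt (fun p : ℝ × W => p.1 • p.2) (s₀, z) := by fun_prop
  have c2 : ContinuousAt ψ (s₀ • z) :=
    hψ.smooth.continuousOn.continuousAt (isOpen_ball.mem_nhds hmem)
  have c3 : ContinuousAt (fun p : ℝ × W => ψ (p.1 • p.2)) (s₀, z) :=
    ContinuousAt.comp (f := fun p : ℝ × W => p.1 • p.2) (g := ψ) c2 c1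
  have c4 : ContinuousAt (fun p : ℝ × W => ‖A (ψ (p.1 • p.2)) + c‖) (s₀, z) :=
    ((A.continuous.continuousAt.comp c3).add continuousAt_const).norm
  have c5 : ContinuousAt (fun p : ℝ × W => p.1) (s₀, z) := continuousAt_fst
  exact c4.tendsto.eventually_lt c5.tendsto (h z hz)

/-- The points at all scales `0 < s < 1` are in one component, the one of `x₀`. -/
theorem component_interior {l : ℝ} (hl : 0 < l) {ψ : W → W} (hψ : IsEmb l 1 ψ)
    {Φ : Dom l ψ → X} (hΦ : Continuous Φ) {x₀ : X} (hlim : LimProp Φ x₀)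
    (H : ∀ s, 0 < s → s < 1 → ∃ (A : W →L[ℝ] W) (c : W), IsSymp A ∧
      ∀ z ∈ closedBall (0 : W) l, ‖A (ψ (s • z)) + c‖ < s)
    {s : ℝ} {A : W →L[ℝ] W} {c : W} (hs1 : s < 1) (h : (s, A, c) ∈ Dom l ψ) :
    Φ ⟨(s, A, c), h⟩ ∈ connectedComponent x₀ := by
  have hdom : ∀ (s : ℝ) (A : W →L[ℝ] W) (c : W), 0 < s → s < 1 → IsSymp A →
      (∀ z ∈ closedBall (0 : W) l, ‖A (ψ (s • z)) + c‖ < s) → (s, A, c) ∈ Dom l ψ :=
    fun s A c h0 h1 hA hb => ⟨h0, h1.le, hA, fun z hz => hb z (ball_subset_closedBall hz)⟩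
  choose! FA Fc hFA hFb using H
  let f : Ioo (0 : ℝ) 1 → ConnectedComponents X := fun s =>
    ConnectedComponents.mk (Φ ⟨(s.1, FA s.1, Fc s.1),
      hdom _ _ _ s.2.1 s.2.2 (hFA _ s.2.1 s.2.2) (hFb _ s.2.1 s.2.2)⟩)
  have hf : IsLocallyConstant f := by
    rw [IsLocallyConstant.iff_eventually_eq]
    rintro ⟨s₀, h0, h1⟩
    have hev := (open_in_s hl hψ h0 h1 (hFb s₀ h0 h1)).and (Ioo_mem_nhds h0 h1)
    obtain ⟨a, b, hab, hsub⟩ := mem_nhds_iff_exists_Ioo_subset.1 hev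
    have hD : ∀ y ∈ Ioo a b, (y, FA s₀, Fc s₀) ∈ Dom l ψ := fun y hy =>
      hdom _ _ _ (hsub hy).2.1 (hsub hy).2.2 (hFA _ h0 h1) (hsub hy).1
    have hcont : Continuous fun y : Ioo a b => Φ ⟨(y.1, FA s₀, Fc s₀), hD y.1 y.2⟩ := by
      refine hΦ.comp (Continuous.subtype_mk ?_ _)
      exact continuous_subtype_val.prodMk continuous_const
    have : PreconnectedSpace (Ioo a b) := isPreconnected_iff_preconnectedSpace.1 isPreconnected_Ioo
    have hpre := isPreconnected_range hcont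
    have hnear : ∀ᶠ y in 𝓝 s₀, y ∈ Ioo a b := Ioo_mem_nhds hab.1 hab.2
    have hnear' : ∀ᶠ y : Ioo (0 : ℝ) 1 in 𝓝 ⟨s₀, h0, h1⟩, y.1 ∈ Ioo a b :=
      continuous_subtype_val.continuousAt.eventually hnear
    filter_upwards [hnear'] with y hy
    have e1 : Φ ⟨(y.1, FA s₀, Fc s₀), hD y.1 hy⟩ ∈
        connectedComponent (Φ ⟨(s₀, FA s₀, Fc s₀), hD s₀ hab⟩) :=
      hpre.subset_connectedComponent ⟨⟨s₀, hab⟩, rfl⟩ ⟨⟨y.1, hy⟩, rfl⟩
    have e2 := same_component hΦ (hD y.1 hy)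
      (hdom _ _ _ y.2.1 y.2.2 (hFA _ y.2.1 y.2.2) (hFb _ y.2.1 y.2.2))
    rw [ConnectedComponents.coe_eq_coe']
    rw [connectedComponent_eq e1]
    exact e2
  have : PreconnectedSpace (Ioo (0 : ℝ) 1) := isPreconnected_iff_preconnectedSpace.1 isPreconnected_Ioo
  have hconst : ∀ x y, f x = f y := fun x y => hf.apply_eq_of_preconnectedSpace x y
  have hall : ∀ (s' : ℝ) (A' : W →L[ℝ] W) (c' : W) (h1 : s' < 1) (h' : (s', A', c') ∈ Dom l ψ),
      ConnectedComponents.mk (Φ ⟨(s', A', c'), h'⟩) = f ⟨s', h'.1, h1⟩ := by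
    intro s' A' c' h1 h'
    rw [ConnectedComponents.coe_eq_coe']
    exact same_component hΦ
      (hdom _ _ _ h'.1 h1 (hFA _ h'.1 h1) (hFb _ h'.1 h1)) h'
  obtain ⟨A₀, c₀, δ, hδ, hδ1, hA₀, hfit, hK⟩ := hlim
  have hin : x₀ ∈ connectedComponent (Φ ⟨(s, A, c), h⟩) := by
    refine hK _ isClosed_connectedComponent ?_
    intro s' h0' h1'
    have h1 : s' < 1 := h1'.trans_le hδ1
    have hd := hdom s' A₀ c₀ h0' h1 hA₀ (hfit s' h0' h1')
    refine ⟨hd, ?_⟩
    rw [← ConnectedComponents.coe_eq_coe', hall s' A₀ c₀ h1 hd, hall s A c hs1 h]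
    exact hconst _ _
  rw [← connectedComponent_eq hin]
  exact mem_connectedComponent

end H88W
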