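import Pool.Agent.Lib.H88W.R1

/-!
# R2: `s → 1`, and the theorem

Proof. For `s = 1 - 1/(j+2)` take `(A_j, c_j)` from the hypothesis. `ψ` is open near `0`
(`HasStrictFDerivAt.map_nhds_eq_of_surj`), so `ψ (ball 0 (l/2))` contains a ball of radius `ρ` about `ψ 0`, and
`‖A_j y + c_j‖ < 1` on it: `‖A_j‖ ≤ 2/ρ`, `‖c_j‖ ≤ 1 + ‖A_j‖ ‖ψ 0‖`. The space `(W →L[ℝ] W) × W` is proper: a
subsequence converges to `(A, c)`, `A` is symplectic, `‖A (ψ z) + c‖ ≤ 1` on the open ball; as the map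
`z ↦ A (ψ z) + c` is open, the inequality is strict, so `(1, A, c) ∈ Dom l ψ`; `Φ` is continuous and the
component is closed: `Φ (1, A, c)` is in it, and all `Φ (1, A', c')` are in the same one
(`same_component`).
-/

open Set Metric Topology
open scoped ContDiff

set_option linter.unusedSectionVars false

namespace H88W

variable {W : Type*} [NormedAddCommGroup W] [InnerProductSpace ℂ W] [FiniteDimensional ℂ W]
variable {X : Type*} [TopologicalSpace X]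

theorem strict_affine {l : ℝ} {ψ : W → W} (hψ : IsEmb l 1 ψ) {A : W →L[ℝ] W} (hA : IsSymp A) (c : W)
    {z : W} (hz : z ∈ ball (0 : W) l) :
    Filter.map (fun z => A (ψ z) + c) (𝓝 z) = 𝓝 (A (ψ z) + c) := by
  haveI : FiniteDimensional ℝ W := FiniteDimensional.complexToReal W
  haveI : CompleteSpace W := FiniteDimensional.complete ℝ W
  have h1 : ContDiffAt ℝ (⊤ : ℕ∞) ψ z := hψ.smooth.contDiffAt (isOpen_ball.mem_nhds hz)
  have h2 : HasStrictFDerivAt ψ (fderiv ℝ ψ z) z := h1.hasStrictFDerivAt (by simp)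
  have h3 : HasStrictFDerivAt (fun z => A (ψ z) + c) (A.comp (fderiv ℝ ψ z)) z :=
    (A.hasStrictFDerivAt.comp z h2).add_const c
  obtain ⟨B, -, -, hB⟩ := symp_inv hA
  obtain ⟨C, -, -, hC⟩ := symp_inv (hψ.symp z hz)
  refine h3.map_nhds_eq_of_surj ?_
  rw [eq_top_iff]
  rintro x -
  refine ⟨C (B x), ?_⟩
  show A (fderiv ℝ ψ z (C (B x))) = x
  rw [hC, hB]

theorem bounded_of_fit {l : ℝ} (hl : 0 < l) {ψ : W → W} (hψ : IsEmb l 1 ψ) :
    ∃ R : ℝ, ∀ (A : W →L[ℝ] W) (c : W), (∀ z ∈ closedBall (0 : W) (l / 2), ‖A (ψ z) + c‖ < 1) →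
      ‖A‖ ≤ R ∧ ‖c‖ ≤ R := by
  have h0 : (0 : W) ∈ ball (0 : W) l := mem_ball_self hl
  have h1 := strict_affine hψ (isSymp_id (W := W)) 0 h0
  simp only [ContinuousLinearMap.id_apply, add_zero] at h1
  have h2 : ψ '' ball (0 : W) (l / 2) ∈ 𝓝 (ψ 0) := by
    rw [← h1]
    exact Filter.image_mem_map (isOpen_ball.mem_nhds (mem_ball_self (half_pos hl)))
  obtain ⟨ρ, hρ, hsub⟩ := Metric.nhds_basis_closedBall.mem_iff.1 h2
  refine ⟨2 / ρ + (1 + 2 / ρ * ‖ψ 0‖), fun A c h => ?_⟩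
  have h3 : ∀ u : W, ‖u‖ ≤ ρ → ‖A (ψ 0 + u) + c‖ ≤ 1 := by
    intro u hu
    have h4 : ψ 0 + u ∈ closedBall (ψ 0) ρ := by
      rw [mem_closedBall, dist_eq_norm, add_sub_cancel_left]
      exact hu
    obtain ⟨z, hz, hzu⟩ := hsub h4
    rw [← hzu]
    exact (h z (ball_subset_closedBall hz)).le
  have h5 : ‖A (ψ 0) + c‖ ≤ 1 := by
    have := h3 0 (by rw [norm_zero]; exact hρ.le)
    rwa [add_zero] at this
  have h6 : ∀ u : W, ‖u‖ ≤ ρ → ‖A u‖ ≤ 2 := by
    intro u hu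
    have h7 : A u = (A (ψ 0 + u) + c) - (A (ψ 0) + c) := by
      rw [map_add]
      abel
    rw [h7]
    calc ‖(A (ψ 0 + u) + c) - (A (ψ 0) + c)‖ ≤ ‖A (ψ 0 + u) + c‖ + ‖A (ψ 0) + c‖ := norm_sub_le _ _
      _ ≤ 1 + 1 := add_le_add (h3 u hu) h5
      _ = 2 := by norm_num
  have h8 : ‖A‖ ≤ 2 / ρ := by
    refine A.opNorm_le_bound (by positivity) fun x => ?_
    by_cases hx : x = 0
    · rw [hx, map_zero, norm_zero, mul_zero]
    · have hx0 : 0 < ‖x‖ := norm_pos_iff.2 hx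
      have h9 := h6 ((ρ / ‖x‖) • x) (by
        rw [norm_smul, Real.norm_of_nonneg (by positivity), div_mul_cancel₀ _ hx0.ne'])
      rw [map_smul, norm_smul, Real.norm_of_nonneg (by positivity)] at h9
      have h10 : ‖A x‖ = (‖x‖ / ρ) * (ρ / ‖x‖ * ‖A x‖) := by
        field_simp
      rw [h10]
      calc (‖x‖ / ρ) * (ρ / ‖x‖ * ‖A x‖) ≤ (‖x‖ / ρ) * 2 :=
            mul_le_mul_of_nonneg_left h9 (by positivity)
        _ = 2 / ρ * ‖x‖ := by ring
  have hpos : 0 ≤ 2 / ρ := by positivity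
  have hpos2 : 0 ≤ 2 / ρ * ‖ψ 0‖ := by positivity
  refine ⟨by linarith, ?_⟩
  have h11 : c = (A (ψ 0) + c) - A (ψ 0) := by abel
  have h12 : ‖A (ψ 0)‖ ≤ 2 / ρ * ‖ψ 0‖ :=
    (A.le_opNorm _).trans (mul_le_mul_of_nonneg_right h8 (norm_nonneg _))
  calc ‖c‖ = ‖(A (ψ 0) + c) - A (ψ 0)‖ := by rw [← h11]
    _ ≤ ‖A (ψ 0) + c‖ + ‖A (ψ 0)‖ := norm_sub_le _ _
    _ ≤ 1 + 2 / ρ * ‖ψ 0‖ := add_le_add h5 h12
    _ ≤ 2 / ρ + (1 + 2 / ρ * ‖ψ 0‖) := by linarith

theorem strict_of_le {l : ℝ} {ψ : W → W} (hψ : IsEmb l 1 ψ) {A : W →L[ℝ] W} (hA : IsSymp A) {c : W}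
    (h : ∀ z ∈ ball (0 : W) l, ‖A (ψ z) + c‖ ≤ 1) : ∀ z ∈ ball (0 : W) l, ‖A (ψ z) + c‖ < 1 := by
  intro z hz
  have h1 : (fun z => A (ψ z) + c) '' ball (0 : W) l ∈ 𝓝 (A (ψ z) + c) := by
    rw [← strict_affine hψ hA c hz]
    exact Filter.image_mem_map (isOpen_ball.mem_nhds hz)
  have h2 : Filter.Tendsto (fun t : ℝ => t • (A (ψ z) + c)) (𝓝[>] 1) (𝓝 (A (ψ z) + c)) := by
    have h3 : Continuous fun t : ℝ => t • (A (ψ z) + c) := continuous_id.smul continuous_const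
    have h4 := h3.tendsto 1
    rw [one_smul] at h4
    exact h4.mono_left nhdsWithin_le_nhds
  have h5 : ∀ᶠ t : ℝ in 𝓝[>] 1, 1 < t ∧ t • (A (ψ z) + c) ∈ (fun z => A (ψ z) + c) '' ball (0 : W) l :=
    (eventually_mem_nhdsWithin (s := Ioi (1 : ℝ))).and (h2 h1)
  obtain ⟨t, ht, y, hy, hyt⟩ := h5.exists
  have h6 := h y hy
  have h7 : A (ψ y) + c = t • (A (ψ z) + c) := hyt
  rw [h7, norm_smul, Real.norm_of_nonneg (by linarith)] at h6
  by_contra hcon
  push Not at hcon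
  nlinarith

theorem component_all {l : ℝ} (hl : 0 < l) {ψ : W → W} (hψ : IsEmb l 1 ψ)
    {Φ : Dom l ψ → X} (hΦ : Continuous Φ) {x₀ : X} (hlim : LimProp Φ x₀)
    (H : ∀ s, 0 < s → s < 1 → ∃ (A : W →L[ℝ] W) (c : W), IsSymp A ∧
      ∀ z ∈ closedBall (0 : W) l, ‖A (ψ (s • z)) + c‖ < s) (p : Dom l ψ) :
    Φ p ∈ connectedComponent x₀ := by
  haveI : FiniteDimensional ℝ W := FiniteDimensional.complexToReal W
  haveI : ProperSpace W := FiniteDimensional.proper ℝ W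
  haveI : ProperSpace (W →L[ℝ] W) := FiniteDimensional.proper ℝ _
  obtain ⟨⟨s₁, A₁, c₁⟩, hp⟩ := p
  rcases lt_or_eq_of_le hp.2.1 with hlt1 | heq1
  · exact component_interior hl hψ hΦ hlim H hlt1 hp
  simp only at heq1
  subst heq1
  have H1 : ∀ s : ℝ, 0 < s → s < 1 → ∃ (A : W →L[ℝ] W) (c : W), IsSymp A ∧
      ∀ z ∈ closedBall (0 : W) (s * l), ‖A (ψ z) + c‖ < s := by
    intro s hs hs1
    obtain ⟨A, c, hA, h⟩ := H s hs hs1
    refine ⟨A, c, hA, fun z hz => ?_⟩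
    have h1 := h (s⁻¹ • z) (by
      rw [mem_closedBall_zero_iff] at hz ⊢
      rw [norm_smul, norm_inv, Real.norm_of_nonneg hs.le, inv_mul_le_iff₀ hs]
      exact hz)
    rwa [smul_smul, mul_inv_cancel₀ hs.ne', one_smul] at h1
  have hsm : ∀ s : ℝ, 0 < s → ∀ z ∈ closedBall (0 : W) l, s • z ∈ closedBall (0 : W) (s * l) := by
    intro s hs z hz
    rw [mem_closedBall_zero_iff] at hz ⊢
    rw [norm_smul, Real.norm_of_nonneg hs.le]
    exact mul_le_mul_of_nonneg_left hz hs.le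
  set s : ℕ → ℝ := fun j => 1 - 1 / ((j : ℝ) + 2) with hs
  have hs0 : ∀ j, 1 / 2 ≤ s j := by
    intro j
    have h1 : (1 : ℝ) / ((j : ℝ) + 2) ≤ 1 / 2 := by
      apply one_div_le_one_div_of_le (by norm_num)
      have : (0 : ℝ) ≤ j := Nat.cast_nonneg j
      linarith
    simp only [hs]
    linarith
  have hs1 : ∀ j, s j < 1 := by
    intro j
    have h1 : (0 : ℝ) < 1 / ((j : ℝ) + 2) := by positivity
    simp only [hs]
    linarith
  have hslim : Filter.Tendsto s Filter.atTop (𝓝 1) := by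
    have h1 : Filter.Tendsto (fun j : ℕ => (1 : ℝ) / ((j : ℝ) + 2)) Filter.atTop (𝓝 0) := by
      refine Filter.Tendsto.div_atTop tendsto_const_nhds ?_
      exact Filter.tendsto_atTop_add_const_right _ _ tendsto_natCast_atTop_atTop
    have h2 := (tendsto_const_nhds (x := (1 : ℝ))).sub h1
    rwa [sub_zero] at h2
  choose A c hA hAc using fun j => H1 (s j) (by linarith [hs0 j]) (hs1 j)
  obtain ⟨R, hR⟩ := bounded_of_fit hl hψ
  have hbd : ∀ j, (A j, c j) ∈ closedBall (0 : (W →L[ℝ] W) × W) R := by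
    intro j
    have h1 := hR (A j) (c j) fun z hz => by
      refine (hAc j z ?_).trans (hs1 j)
      refine closedBall_subset_closedBall ?_ hz
      have := hs0 j
      nlinarith
    rw [mem_closedBall_zero_iff]
    exact norm_prod_le_iff.2 h1
  obtain ⟨⟨B, d⟩, -, φ, hφ, hlim'⟩ := tendsto_subseq_of_bounded isBounded_closedBall hbd
  have hB : Filter.Tendsto (fun j => A (φ j)) Filter.atTop (𝓝 B) :=
    (continuous_fst.tendsto (B, d)).comp hlim'
  have hd : Filter.Tendsto (fun j => c (φ j)) Filter.atTop (𝓝 d) :=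
    (continuous_snd.tendsto (B, d)).comp hlim'
  have hBx : ∀ x : W, Filter.Tendsto (fun j => A (φ j) x) Filter.atTop (𝓝 (B x)) := fun x =>
    ((ContinuousLinearMap.apply ℝ W x).continuous.tendsto B).comp hB
  have hBs : IsSymp B := by
    intro u v
    have h1 : Filter.Tendsto (fun j => om (A (φ j) u) (A (φ j) v)) Filter.atTop
        (𝓝 (om (B u) (B v))) :=
      (Complex.continuous_im.tendsto _).comp ((hBx u).inner (hBx v))
    have h2 : (fun j => om (A (φ j) u) (A (φ j) v)) = fun _ => om u v := by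
      funext j
      exact hA (φ j) u v
    rw [h2] at h1
    exact tendsto_nhds_unique h1 tendsto_const_nhds |>.symm ▸ rfl
  have hsφ : Filter.Tendsto (fun j => s (φ j)) Filter.atTop (𝓝 1) := hslim.comp hφ.tendsto_atTop
  have hle : ∀ z ∈ ball (0 : W) l, ‖B (ψ z) + d‖ ≤ 1 := by
    intro z hz
    have h1 : Filter.Tendsto (fun j => ‖A (φ j) (ψ z) + c (φ j)‖) Filter.atTop
        (𝓝 ‖B (ψ z) + d‖) := ((hBx _).add hd).norm
    refine le_of_tendsto h1 ?_
    have h2 : ∀ᶠ j in Filter.atTop, ‖z‖ < s (φ j) * l := by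
      have h3 : Filter.Tendsto (fun j => s (φ j) * l) Filter.atTop (𝓝 (1 * l)) := hsφ.mul_const l
      rw [one_mul] at h3
      exact h3.eventually (lt_mem_nhds (mem_ball_zero_iff.1 hz))
    filter_upwards [h2] with j hj
    exact ((hAc (φ j) z (mem_closedBall_zero_iff.2 hj.le)).trans (hs1 _)).le
  have hlt := strict_of_le hψ hBs hle
  have hdom : ((1 : ℝ), B, d) ∈ Dom l ψ := by
    refine ⟨one_pos, le_rfl, hBs, fun z hz => ?_⟩
    show ‖B (ψ ((1 : ℝ) • z)) + d‖ < 1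
    rw [one_smul]
    exact hlt z hz
  have hdomj : ∀ j, (s (φ j), A (φ j), c (φ j)) ∈ Dom l ψ := by
    intro j
    have hp : 0 < s (φ j) := by linarith [hs0 (φ j)]
    exact ⟨hp, (hs1 _).le, hA _, fun z hz => hAc (φ j) _ (hsm _ hp z (ball_subset_closedBall hz))⟩
  have hin : Φ ⟨((1 : ℝ), B, d), hdom⟩ ∈ connectedComponent x₀ := by
    have h1 : Filter.Tendsto (fun j => (⟨(s (φ j), A (φ j), c (φ j)), hdomj j⟩ : Dom l ψ))
        Filter.atTop (𝓝 ⟨((1 : ℝ), B, d), hdom⟩) := by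
      rw [tendsto_subtype_rng]
      exact hsφ.prodMk_nhds (hB.prodMk_nhds hd)
    have h2 := (hΦ.tendsto ⟨((1 : ℝ), B, d), hdom⟩).comp h1
    refine isClosed_connectedComponent.mem_of_tendsto h2 (Filter.Eventually.of_forall fun j => ?_)
    exact component_interior hl hψ hΦ hlim H (hs1 _) (hdomj j)
  have h3 := same_component hΦ hdom hp
  rwa [← connectedComponent_eq hin] at h3

end H88W
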