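import Pool.Agent.Lib.H88W.R2

/-!
# R3: the subspace of the embeddings that fit at every scale is connected
-/

open Set Metric Topology
open scoped ContDiff

set_option linter.unusedSectionVars false

namespace H88W

variable {W : Type*} [NormedAddCommGroup W] [InnerProductSpace ℂ W] [FiniteDimensional ℂ W]

/-- `ψ` fits at every scale: for `0 < a < l` some affine symplectic map sends the image of the
closed ball of radius `a` into the open ball of radius `a / l`. -/
def Fits {l : ℝ} (ψ : Emb W l 1) : Prop :=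
  ∀ a : ℝ, 0 < a → a < l → ∃ (A : W →L[ℝ] W) (c : W), IsSymp A ∧
    ∀ z ∈ closedBall (0 : W) a, ‖A (ψ.1 z) + c‖ < a / l

theorem fits_incl {l : ℝ} (hl : 0 < l) (hl1 : l < 1) : Fits (incl (W := W) hl1.le) := by
  intro a ha hal
  refine ⟨ContinuousLinearMap.id ℝ W, 0, isSymp_id, ?_⟩
  intro z hz
  have hz1 : z ∈ ball (0 : W) l := closedBall_subset_ball hal hz
  have h1 : (incl (W := W) hl1.le).1 z = z := indicator_of_mem hz1 _
  rw [h1, ContinuousLinearMap.id_apply, add_zero]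
  rw [mem_closedBall_zero_iff] at hz
  refine hz.trans_lt ?_
  rw [lt_div_iff₀ hl]
  nlinarith

theorem fits_scale {l : ℝ} (hl : 0 < l) {ψ : Emb W l 1} (h : Fits ψ) :
    ∀ s, 0 < s → s < 1 → ∃ (A : W →L[ℝ] W) (c : W), IsSymp A ∧
      ∀ z ∈ closedBall (0 : W) l, ‖A (ψ.1 (s • z)) + c‖ < s := by
  intro s hs hs1
  obtain ⟨A, c, hA, hb⟩ := h (s * l) (mul_pos hs hl) (by nlinarith)
  refine ⟨A, c, hA, ?_⟩
  intro z hz
  have h1 := hb (s • z) (by
    rw [mem_closedBall_zero_iff] at hz ⊢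
    rw [norm_smul, Real.norm_of_nonneg hs.le]
    exact mul_le_mul_of_nonneg_left hz hs.le)
  rwa [mul_div_assoc, div_self hl.ne', mul_one] at h1

theorem fits_Theta {l : ℝ} (hl : 0 < l) {ψ : Emb W l 1} (h : Fits ψ) (p : Dom l ψ.1) :
    Fits (Theta ψ.2.1 p) := by
  obtain ⟨⟨s, A, c⟩, hp⟩ := p
  obtain ⟨hs, hs1, hA, hb⟩ := hp
  simp only at hs hs1 hA hb
  intro a ha hal
  obtain ⟨A', c', hA', hb'⟩ := h (s * a) (mul_pos hs ha) (by nlinarith)
  obtain ⟨B, hB, hBA, hAB⟩ := symp_inv hA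
  refine ⟨A'.comp B, s⁻¹ • (c' - A' (B c)), isSymp_comp hA' hB, ?_⟩
  intro z hz
  have hz1 : z ∈ ball (0 : W) l := closedBall_subset_ball hal hz
  have h1 : (Theta ψ.2.1 ⟨(s, A, c), ⟨hs, hs1, hA, hb⟩⟩).1 z = s⁻¹ • (A (ψ.1 (s • z)) + c) := by
    change sc l ψ.1 s A c z = _
    unfold sc
    rw [indicator_of_mem hz1]
  rw [h1, ContinuousLinearMap.comp_apply, map_smul, map_smul, ← smul_add, map_add, map_add, hBA]
  have h2 : A' (ψ.1 (s • z)) + A' (B c) + (c' - A' (B c)) = A' (ψ.1 (s • z)) + c' := by abel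
  rw [h2, norm_smul, norm_inv, Real.norm_of_nonneg hs.le, inv_mul_lt_iff₀ hs]
  have h3 := hb' (s • z) (by
    rw [mem_closedBall_zero_iff] at hz ⊢
    rw [norm_smul, Real.norm_of_nonneg hs.le]
    exact mul_le_mul_of_nonneg_left hz hs.le)
  rwa [mul_div_assoc] at h3

theorem mem_dom_one {l : ℝ} (ψ : Emb W l 1) :
    ((1 : ℝ), ContinuousLinearMap.id ℝ W, (0 : W)) ∈ Dom l ψ.1 := by
  refine ⟨one_pos, le_rfl, isSymp_id, ?_⟩
  intro z hz
  simp only [one_smul, ContinuousLinearMap.id_apply, add_zero]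
  exact mem_ball_zero_iff.1 (ψ.2.1.maps hz)

theorem Theta_one {l : ℝ} (ψ : Emb W l 1) : Theta ψ.2.1 ⟨_, mem_dom_one ψ⟩ = ψ := by
  apply Subtype.ext
  funext z
  by_cases hz : z ∈ ball (0 : W) l
  · change sc l ψ.1 1 (ContinuousLinearMap.id ℝ W) 0 z = ψ.1 z
    unfold sc
    rw [indicator_of_mem hz]
    simp
  · rw [(Theta ψ.2.1 ⟨_, mem_dom_one ψ⟩).2.2 z hz, ψ.2.2 z hz]

/-- The subspace of the embeddings which fit at every scale is connected. -/
theorem isConnected_fits {l : ℝ} (hl : 0 < l) (hl1 : l < 1) :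
    IsConnected {ψ : Emb W l 1 | Fits ψ} := by
  let x₀ : {ψ : Emb W l 1 | Fits ψ} := ⟨incl hl1.le, fits_incl hl hl1⟩
  have key : ∀ ψ : {ψ : Emb W l 1 | Fits ψ}, ψ ∈ connectedComponent x₀ := by
    intro ψ
    let Φ : Dom l ψ.1.1 → {ψ : Emb W l 1 | Fits ψ} := fun p =>
      ⟨Theta ψ.1.2.1 p, fits_Theta hl ψ.2 p⟩
    have hΦ : Continuous Φ := (continuous_Theta ψ.1.2.1).subtype_mk _
    have hlim : LimProp Φ x₀ := by
      obtain ⟨A, c, δ, hδ, hδ1, hA, hb, hK⟩ := small_limit hl hl1 ψ.1.2.1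
      refine ⟨A, c, δ, hδ, hδ1, hA, hb, ?_⟩
      intro K hKc hKs
      obtain ⟨K', hK', rfl⟩ := isClosed_induced_iff.1 hKc
      exact hK K' hK' hKs
    have h1 := component_all hl ψ.1.2.1 hΦ hlim (fits_scale hl ψ.2) ⟨_, mem_dom_one ψ.1⟩
    have h2 : Φ ⟨_, mem_dom_one ψ.1⟩ = ψ := Subtype.ext (Theta_one ψ.1)
    rwa [h2] at h1
  rw [isConnected_iff_connectedSpace]
  have h3 : IsPreconnected (univ : Set {ψ : Emb W l 1 | Fits ψ}) := by
    have h4 : (univ : Set {ψ : Emb W l 1 | Fits ψ}) = connectedComponent x₀ :=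
      (eq_univ_of_forall key).symm
    rw [h4]
    exact isPreconnected_connectedComponent
  have : PreconnectedSpace {ψ : Emb W l 1 | Fits ψ} := ⟨h3⟩
  exact { toNonempty := ⟨x₀⟩ }

theorem fits_mem_component {l : ℝ} (hl : 0 < l) (hl1 : l < 1) {ψ : Emb W l 1} (h : Fits ψ) :
    ψ ∈ connectedComponent (incl (W := W) hl1.le) :=
  (isConnected_fits hl hl1).isPreconnected.subset_connectedComponent (fits_incl hl hl1) h

/-- A sufficient condition with one linear map for all scales. -/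
theorem fits_of_linear {l : ℝ} (hl : 0 < l) {ψ : Emb W l 1} {A : W →L[ℝ] W} (hA : IsSymp A)
    (h : ∀ z ∈ ball (0 : W) l, z ≠ 0 → ‖A (ψ.1 z - ψ.1 0)‖ < ‖z‖ / l) : Fits ψ := by
  intro a ha hal
  refine ⟨A, -A (ψ.1 0), hA, ?_⟩
  intro z hz
  rw [← sub_eq_add_neg, ← map_sub]
  rcases eq_or_ne z 0 with h0 | h0
  · rw [h0, sub_self, map_zero, norm_zero]
    exact div_pos ha hl
  · refine (h z (closedBall_subset_ball hal hz) h0).trans_le ?_
    rw [mem_closedBall_zero_iff] at hz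
    gcongr

/-- The same with derivatives in place of difference quotients. -/
theorem fits_of_fderiv {l : ℝ} (hl : 0 < l) {ψ : Emb W l 1} {A : W →L[ℝ] W} (hA : IsSymp A)
    (h : ∀ z ∈ ball (0 : W) l, ‖A.comp (fderiv ℝ ψ.1 z)‖ < 1 / l) : Fits ψ := by
  refine fits_of_linear hl hA ?_
  intro z hz hz0
  have hl' : 0 < ‖z‖ := norm_pos_iff.2 hz0
  have hball : closedBall (0 : W) ‖z‖ ⊆ ball (0 : W) l :=
    closedBall_subset_ball (mem_ball_zero_iff.1 hz)
  have hcont : ContinuousOn (fun w => ‖A.comp (fderiv ℝ ψ.1 w)‖) (closedBall (0 : W) ‖z‖) := by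
    have h1 : ContinuousOn (fderiv ℝ ψ.1) (ball (0 : W) l) :=
      ψ.2.1.smooth.continuousOn_fderiv_of_isOpen isOpen_ball (by simp)
    exact ((ContinuousLinearMap.compL ℝ W W W A).continuous.comp_continuousOn
      (h1.mono hball)).norm
  have : FiniteDimensional ℝ W := FiniteDimensional.complexToReal W
  have : ProperSpace W := FiniteDimensional.proper ℝ W
  obtain ⟨w, hw, hmax⟩ := (isCompact_closedBall (0 : W) ‖z‖).exists_isMaxOn
    ⟨0, mem_closedBall_self hl'.le⟩ hcont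
  have hdiff : ∀ y ∈ closedBall (0 : W) ‖z‖,
      HasFDerivWithinAt (fun y => A (ψ.1 y)) (A.comp (fderiv ℝ ψ.1 y)) (closedBall 0 ‖z‖) y := by
    intro y hy
    have h1 : HasFDerivAt ψ.1 (fderiv ℝ ψ.1 y) y :=
      ((ψ.2.1.smooth.contDiffAt (isOpen_ball.mem_nhds (hball hy))).differentiableAt
        (by simp)).hasFDerivAt
    exact (A.hasFDerivAt.comp y h1).hasFDerivWithinAt
  have h2 := (convex_closedBall (0 : W) ‖z‖).norm_image_sub_le_of_norm_hasFDerivWithin_le hdiff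
    (fun y hy => hmax hy) (mem_closedBall_self hl'.le) (mem_closedBall_zero_iff.2 le_rfl)
  rw [sub_zero, ← map_sub] at h2
  refine h2.trans_lt ?_
  rw [div_eq_mul_one_div, mul_comm]
  exact mul_lt_mul_of_pos_left (h w (hball hw)) hl'

/-- The whole space is connected if and only if every component has an embedding which fits at
every scale. -/
theorem connected_iff {l : ℝ} (hl : 0 < l) (hl1 : l < 1) :
    ConnectedSpace (Emb W l 1) ↔ ∀ ψ : Emb W l 1, ∃ φ ∈ connectedComponent ψ, Fits φ := by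
  constructor
  · intro h ψ
    refine ⟨incl hl1.le, ?_, fits_incl hl hl1⟩
    rw [PreconnectedSpace.connectedComponent_eq_univ]
    trivial
  · intro h
    have h1 : ∀ ψ : Emb W l 1, ψ ∈ connectedComponent (incl (W := W) hl1.le) := by
      intro ψ
      obtain ⟨φ, hφ, hf⟩ := h ψ
      rw [connectedComponent_eq (fits_mem_component hl hl1 hf), ← connectedComponent_eq hφ]
      exact mem_connectedComponent
    have h4 : (univ : Set (Emb W l 1)) = connectedComponent (incl (W := W) hl1.le) :=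
      (eq_univ_of_forall h1).symm
    have : PreconnectedSpace (Emb W l 1) := ⟨by
      rw [h4]
      exact isPreconnected_connectedComponent⟩
    exact { toNonempty := ⟨incl hl1.le⟩ }

end H88W
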