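import Pool.Agent.Lib.H88W.Q1

/-!
# S1: smooth families of embeddings are continuous families
-/

open Set Metric Topology
open scoped ContDiff

set_option linter.unusedSectionVars false

namespace H88W

variable {W : Type*} [NormedAddCommGroup W] [InnerProductSpace ℂ W] [FiniteDimensional ℂ W]
variable {P : Type*} [NormedAddCommGroup P] [NormedSpace ℝ P]

theorem contDiffAt_iteratedFDeriv {F : P → W → W} {O : Set (P × W)}
    (hF : ∀ q ∈ O, ContDiffAt ℝ (⊤ : ℕ∞) (Function.uncurry F) q) (k : ℕ) :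
    ∀ q ∈ O, ContDiffAt ℝ (⊤ : ℕ∞) (fun q : P × W => iteratedFDeriv ℝ k (F q.1) q.2) q := by
  induction k with
  | zero =>
    intro q hq
    have h1 := (continuousMultilinearCurryFin0 ℝ W W).symm.contDiff.contDiffAt.comp
      (n := ((⊤ : ℕ∞) : WithTop ℕ∞)) q (hF q hq)
    exact h1.congr_of_eventuallyEq (Filter.Eventually.of_forall fun p => rfl)
  | succ k ih =>
    intro q hq
    have h0 : ContDiffAt ℝ (⊤ : ℕ∞)
        (fun q : P × W => fderiv ℝ (iteratedFDeriv ℝ k (F q.1)) q.2) q := by
      refine ContDiffAt.fderiv (n := ((⊤ : ℕ∞) : WithTop ℕ∞))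
        (f := fun (q : P × W) (w : W) => iteratedFDeriv ℝ k (F q.1) w) (g := fun q => q.2) ?_
        contDiffAt_snd (by simp)
      have h2 : ContDiffAt ℝ (⊤ : ℕ∞) (fun r : (P × W) × W => ((r.1.1, r.2) : P × W)) (q, q.2) :=
        (contDiff_fst.fst.prodMk contDiff_snd).contDiffAt
      exact ContDiffAt.comp (g := fun q : P × W => iteratedFDeriv ℝ k (F q.1) q.2)
        (f := fun r : (P × W) × W => ((r.1.1, r.2) : P × W)) (q, q.2) (ih q hq) h2
    have h1 := (continuousMultilinearCurryLeftEquiv ℝ (fun _ : Fin (k + 1) => W)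
      W).symm.contDiff.contDiffAt.comp (n := ((⊤ : ℕ∞) : WithTop ℕ∞)) q h0
    exact h1.congr_of_eventuallyEq (Filter.Eventually.of_forall fun p => rfl)

/-- A family of embeddings that is smooth in the parameter and the point is continuous. -/
theorem continuous_family {C : Set P} {a b : ℝ} {F : P → W → W}
    (hF : ∀ p ∈ C, ∀ z ∈ ball (0 : W) a, ContDiffAt ℝ (⊤ : ℕ∞) (Function.uncurry F) (p, z))
    {f : C → Emb W a b} (hf : ∀ p : C, ∀ z ∈ ball (0 : W) a, (f p).1 z = F p z) :
    Continuous f := by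
  apply continuous_emb
  intro k
  apply ContinuousMap.continuous_of_continuous_uncurry
  have h1 := contDiffAt_iteratedFDeriv (O := C ×ˢ ball (0 : W) a)
    (fun q hq => hF q.1 hq.1 q.2 hq.2) k
  have h2 : Continuous fun q : C × ball (0 : W) a => iteratedFDeriv ℝ k (F q.1) (q.2 : W) := by
    rw [continuous_iff_continuousAt]
    intro q
    have h3 := (h1 ((q.1 : P), (q.2 : W)) ⟨q.1.2, q.2.2⟩).continuousAt
    have h4 : ContinuousAt (fun q : C × ball (0 : W) a => ((q.1 : P), (q.2 : W))) q :=
      (((continuous_subtype_val.comp continuous_fst).prodMk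
        (continuous_subtype_val.comp continuous_snd)) :
          Continuous fun q : C × ball (0 : W) a => ((q.1 : P), (q.2 : W))).continuousAt
    exact ContinuousAt.comp (g := fun q : P × W => iteratedFDeriv ℝ k (F q.1) q.2)
      (f := fun q : C × ball (0 : W) a => ((q.1 : P), (q.2 : W))) (x := q) h3 h4
  refine h2.congr ?_
  intro q
  have h5 : (f q.1).1 =ᶠ[𝓝 (q.2 : W)] F q.1 := by
    filter_upwards [isOpen_ball.mem_nhds q.2.2] with y hy
    exact hf q.1 y hy
  exact (h5.iteratedFDeriv ℝ k).eq_of_nhds.symm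

/-- If `g` agrees with members of a closed set on every smaller ball, it is in the closed set. -/
theorem mem_of_agree {a b : ℝ} {K : Set (Emb W a b)} (hK : IsClosed K) (ha : 0 < a) (g : Emb W a b)
    (h : ∀ r, 0 < r → r < a → ∃ f ∈ K, ∀ z ∈ ball (0 : W) r, f.1 z = g.1 z) : g ∈ K := by
  let r : ℕ → ℝ := fun j => a * ((j + 1) / (j + 2))
  have hr0 : ∀ j, 0 < r j := fun j => by
    have : (0 : ℝ) < ((j : ℝ) + 1) / (j + 2) := by positivity
    exact mul_pos ha this
  have hr1 : ∀ j, r j < a := fun j => by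
    have h1 : ((j : ℝ) + 1) / (j + 2) < 1 := by
      rw [div_lt_one (by positivity)]
      linarith
    exact mul_lt_of_lt_one_right ha h1
  have hrt : Filter.Tendsto r Filter.atTop (𝓝 a) := by
    have h1 : Filter.Tendsto (fun j : ℕ => ((j : ℝ) + 1) / (j + 2)) Filter.atTop (𝓝 1) := by
      have h2 : Filter.Tendsto (fun j : ℕ => 1 - 1 / (((j + 1 : ℕ) : ℝ) + 1)) Filter.atTop
          (𝓝 (1 - 0)) :=
        tendsto_const_nhds.sub
          ((Filter.tendsto_add_atTop_iff_nat 1).2 tendsto_one_div_add_atTop_nhds_zero_nat)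
      rw [sub_zero] at h2
      refine h2.congr fun j => ?_
      push_cast
      field_simp
      ring
    have h3 := h1.const_mul a
    rwa [mul_one] at h3
  choose f hfK hfz using fun j => h (r j) (hr0 j) (hr1 j)
  refine hK.mem_of_tendsto (f := f) (b := Filter.atTop) ?_ (Filter.Eventually.of_forall hfK)
  apply tendsto_emb
  intro k
  apply ContinuousMap.tendsto_of_tendstoLocallyUniformly
  rw [Metric.tendstoLocallyUniformly_iff]
  intro ε hε z
  have hz : ‖(z : W)‖ < a := mem_ball_zero_iff.1 z.2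
  obtain ⟨ρ, hρ1, hρ2⟩ := exists_between hz
  refine ⟨{w | ‖(w : W)‖ < ρ}, ?_, ?_⟩
  · have h1 : Continuous fun w : ball (0 : W) a => ‖(w : W)‖ := continuous_subtype_val.norm
    exact (isOpen_lt h1 continuous_const).mem_nhds hρ1
  · filter_upwards [hrt.eventually (lt_mem_nhds hρ2)] with j hj w hw
    have h5 : (f j).1 =ᶠ[𝓝 (w : W)] g.1 := by
      have h6 : (w : W) ∈ ball (0 : W) (r j) := by
        rw [mem_ball_zero_iff]
        exact lt_trans hw hj
      filter_upwards [isOpen_ball.mem_nhds h6] with y hy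
      exact hfz j y hy
    have h7 : jet k (f j) w = jet k g w := (h5.iteratedFDeriv ℝ k).eq_of_nhds
    rw [h7, dist_self]
    exact hε

end H88W
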