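import Pool.Agent.Lib.H88W.S1

/-!
# S2: compactly supported symplectomorphisms act trivially on the components
-/

open Set Metric Topology
open scoped ContDiff

set_option linter.unusedSectionVars false

namespace H88W

variable {W : Type*} [NormedAddCommGroup W] [InnerProductSpace ℂ W] [FiniteDimensional ℂ W]

/-- `Ψ` is a smooth injective map of the whole space with symplectic derivatives that is the
identity at all points of norm at least `r`. -/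
structure IsSympC (r : ℝ) (Ψ : W → W) : Prop where
  smooth : ContDiff ℝ (⊤ : ℕ∞) Ψ
  inj : Function.Injective Ψ
  symp : ∀ z : W, IsSymp (fderiv ℝ Ψ z)
  supp : ∀ z : W, r ≤ ‖z‖ → Ψ z = z

theorem IsSympC.norm_lt {r : ℝ} {Ψ : W → W} (h : IsSympC r Ψ) {z : W} (hz : ‖z‖ < r) :
    ‖Ψ z‖ < r := by
  by_contra h1
  have h2 := h.supp (Ψ z) (not_lt.1 h1)
  rw [h.inj h2] at h1
  exact h1 hz

/-- The conjugate of `Ψ` by `x ↦ u x + v`. -/
noncomputable def conj (Ψ : W → W) (p : ℝ × W) (x : W) : W := p.2 + p.1 • Ψ (p.1⁻¹ • (x - p.2))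

theorem conj_hasFDerivAt {r : ℝ} {Ψ : W → W} (h : IsSympC r Ψ) {p : ℝ × W} (hp : 0 < p.1) (x : W) :
    HasFDerivAt (conj Ψ p) (fderiv ℝ Ψ (p.1⁻¹ • (x - p.2))) x := by
  have h1 : HasFDerivAt Ψ (fderiv ℝ Ψ (p.1⁻¹ • (x - p.2))) (p.1⁻¹ • (x - p.2)) :=
    (h.smooth.differentiable (by simp)).differentiableAt.hasFDerivAt
  have h2 : HasFDerivAt (fun x : W => p.1⁻¹ • (x - p.2)) (p.1⁻¹ • ContinuousLinearMap.id ℝ W) x :=
    ((hasFDerivAt_id x).sub_const p.2).const_smul p.1⁻¹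
  have h3 := ((HasFDerivAt.comp x h1 h2).const_smul p.1).const_add p.2
  have h4 : p.1 • (fderiv ℝ Ψ (p.1⁻¹ • (x - p.2))).comp (p.1⁻¹ • ContinuousLinearMap.id ℝ W) =
      fderiv ℝ Ψ (p.1⁻¹ • (x - p.2)) := by
    ext v
    simp [smul_smul, hp.ne']
  rw [h4] at h3
  exact h3

theorem conj_contDiffAt {Ψ : W → W} (h : ContDiff ℝ (⊤ : ℕ∞) Ψ) {p : ℝ × W} (hp : 0 < p.1)
    {g : W → W} {z : W} (hg : ContDiffAt ℝ (⊤ : ℕ∞) g z) :
    ContDiffAt ℝ (⊤ : ℕ∞) (Function.uncurry fun (p : ℝ × W) (z : W) => conj Ψ p (g z)) (p, z) := by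
  have e1 : ContDiffAt ℝ (⊤ : ℕ∞) (fun q : (ℝ × W) × W => q.1.1) (p, z) :=
    (contDiff_fst.fst).contDiffAt
  have e2 : ContDiffAt ℝ (⊤ : ℕ∞) (fun q : (ℝ × W) × W => q.1.2) (p, z) :=
    (contDiff_fst.snd).contDiffAt
  have e3 : ContDiffAt ℝ (⊤ : ℕ∞) (fun q : (ℝ × W) × W => g q.2) (p, z) :=
    ContDiffAt.comp (g := g) (f := fun q : (ℝ × W) × W => q.2) (p, z) hg contDiffAt_snd
  have e4 : ContDiffAt ℝ (⊤ : ℕ∞) (fun q : (ℝ × W) × W => (q.1.1)⁻¹) (p, z) := e1.inv hp.ne'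
  have e5 : ContDiffAt ℝ (⊤ : ℕ∞) (fun q : (ℝ × W) × W => Ψ ((q.1.1)⁻¹ • (g q.2 - q.1.2))) (p, z) :=
    ContDiffAt.comp (g := Ψ) (f := fun q : (ℝ × W) × W => (q.1.1)⁻¹ • (g q.2 - q.1.2)) (p, z)
      h.contDiffAt (e4.smul (e3.sub e2))
  exact e2.add (e1.smul e5)

theorem conj_inj {Ψ : W → W} (h : Function.Injective Ψ) {p : ℝ × W} (hp : 0 < p.1) :
    Function.Injective (conj Ψ p) := by
  intro x y hxy
  have h1 := smul_right_injective W hp.ne' (add_left_cancel hxy)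
  have h2 := smul_right_injective W (inv_ne_zero hp.ne') (h h1)
  exact sub_left_injective h2

theorem conj_eq_self {r : ℝ} {Ψ : W → W} (h : IsSympC r Ψ) {p : ℝ × W} (hp : 0 < p.1) {x : W}
    (hx : p.1 * r ≤ ‖x - p.2‖) : conj Ψ p x = x := by
  unfold conj
  rw [h.supp, smul_smul, mul_inv_cancel₀ hp.ne', one_smul, add_sub_cancel]
  rw [norm_smul, norm_inv, Real.norm_of_nonneg hp.le, ← div_eq_inv_mul, le_div_iff₀ hp]
  linarith

theorem conj_norm_lt {r : ℝ} {Ψ : W → W} (h : IsSympC r Ψ) {p : ℝ × W} (hp : 0 < p.1)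
    (hr : ‖p.2‖ + p.1 * r < 1) {x : W} (hx : ‖x‖ < 1) : ‖conj Ψ p x‖ < 1 := by
  rcases le_or_gt (p.1 * r) ‖x - p.2‖ with h1 | h1
  · rwa [conj_eq_self h hp h1]
  · unfold conj
    have h2 : ‖p.1⁻¹ • (x - p.2)‖ < r := by
      rw [norm_smul, norm_inv, Real.norm_of_nonneg hp.le, inv_mul_lt_iff₀ hp]
      exact h1
    have h3 := h.norm_lt h2
    calc ‖p.2 + p.1 • Ψ (p.1⁻¹ • (x - p.2))‖
        ≤ ‖p.2‖ + ‖p.1 • Ψ (p.1⁻¹ • (x - p.2))‖ := norm_add_le _ _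
      _ ≤ ‖p.2‖ + p.1 * r := by
        rw [norm_smul, Real.norm_of_nonneg hp.le]
        gcongr
      _ < 1 := hr

/-- Composition of an embedding into the unit ball with the conjugate of `Ψ`. -/
theorem isEmb_conj {l r : ℝ} {Ψ ψ : W → W} (h : IsSympC r Ψ) (hψ : IsEmb l 1 ψ) {p : ℝ × W}
    (hp : 0 < p.1) (hm : ∀ z ∈ ball (0 : W) l, ‖conj Ψ p (ψ z)‖ < 1) :
    IsEmb l 1 (indicator (ball 0 l) fun z => conj Ψ p (ψ z)) := by
  have hev : ∀ z ∈ ball (0 : W) l,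
      (indicator (ball 0 l) fun z => conj Ψ p (ψ z)) =ᶠ[𝓝 z] fun z => conj Ψ p (ψ z) := by
    intro z hz
    filter_upwards [isOpen_ball.mem_nhds hz] with y hy
    exact indicator_of_mem hy _
  refine ⟨?_, ?_, ?_, ?_⟩
  · intro z hz
    have hg : ContDiffAt ℝ (⊤ : ℕ∞) ψ z := hψ.smooth.contDiffAt (isOpen_ball.mem_nhds hz)
    have h1 := conj_contDiffAt h.smooth hp hg
    have h2 : ContDiffAt ℝ (⊤ : ℕ∞) (fun z : W => (p, z)) z := (contDiff_prodMk_right p).contDiffAt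
    have h3 : ContDiffAt ℝ (⊤ : ℕ∞) (fun z => conj Ψ p (ψ z)) z :=
      ContDiffAt.comp (g := Function.uncurry fun (p : ℝ × W) (z : W) => conj Ψ p (ψ z))
        (f := fun z : W => (p, z)) z h1 h2
    exact (h3.congr_of_eventuallyEq (hev z hz)).contDiffWithinAt
  · intro x hx y hy hxy
    rw [indicator_of_mem hx, indicator_of_mem hy] at hxy
    exact hψ.inj hx hy (conj_inj h.inj hp hxy)
  · intro z hz
    rw [indicator_of_mem hz, mem_ball_zero_iff]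
    exact hm z hz
  · intro z hz
    rw [(hev z hz).fderiv_eq]
    have h1 : HasFDerivAt ψ (fderiv ℝ ψ z) z :=
      ((hψ.smooth.contDiffAt (isOpen_ball.mem_nhds hz)).differentiableAt (by simp)).hasFDerivAt
    have h2 := HasFDerivAt.comp z (conj_hasFDerivAt h hp (ψ z)) h1
    have h3 : fderiv ℝ (fun z => conj Ψ p (ψ z)) z =
        (fderiv ℝ Ψ (p.1⁻¹ • (ψ z - p.2))).comp (fderiv ℝ ψ z) := h2.fderiv
    rw [h3]
    intro u v
    rw [ContinuousLinearMap.comp_apply, ContinuousLinearMap.comp_apply, h.symp]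
    exact hψ.symp z hz u v

/-- The embedding `conj Ψ p ∘ ψ`. -/
noncomputable def cEmb {l r : ℝ} {Ψ : W → W} (h : IsSympC r Ψ) (ψ : Emb W l 1) {C : Set (ℝ × W)}
    (hC : ∀ p ∈ C, 0 < p.1) (hm : ∀ p ∈ C, ∀ z ∈ ball (0 : W) l, ‖conj Ψ p (ψ.1 z)‖ < 1) (p : C) :
    Emb W l 1 :=
  ⟨indicator (ball 0 l) fun z => conj Ψ p (ψ.1 z), isEmb_conj h ψ.2.1 (hC p p.2) (hm p p.2),
    fun _ hz => indicator_of_notMem hz _⟩

theorem cEmb_apply {l r : ℝ} {Ψ : W → W} (h : IsSympC r Ψ) (ψ : Emb W l 1) {C : Set (ℝ × W)}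
    (hC : ∀ p ∈ C, 0 < p.1) (hm : ∀ p ∈ C, ∀ z ∈ ball (0 : W) l, ‖conj Ψ p (ψ.1 z)‖ < 1) (p : C)
    {z : W} (hz : z ∈ ball (0 : W) l) :
    (cEmb h ψ hC hm p).1 z = conj Ψ p (ψ.1 z) := by
  change indicator (ball 0 l) (fun z => conj Ψ (p : ℝ × W) (ψ.1 z)) z = _
  rw [indicator_of_mem hz]

theorem continuous_cEmb {l r : ℝ} {Ψ : W → W} (h : IsSympC r Ψ) (ψ : Emb W l 1) {C : Set (ℝ × W)}
    (hC : ∀ p ∈ C, 0 < p.1) (hm : ∀ p ∈ C, ∀ z ∈ ball (0 : W) l, ‖conj Ψ p (ψ.1 z)‖ < 1) :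
    Continuous (cEmb h ψ hC hm) := by
  refine continuous_family (F := fun (p : ℝ × W) (z : W) => conj Ψ p (ψ.1 z)) ?_ ?_
  · intro p hp z hz
    exact conj_contDiffAt h.smooth (hC p hp)
      (ψ.2.1.smooth.contDiffAt (isOpen_ball.mem_nhds hz))
  · intro p z hz
    exact cEmb_apply h ψ hC hm p hz

/-- Two members of a family over a preconnected set are in the same component. -/
theorem cEmb_mem {l r : ℝ} {Ψ : W → W} (h : IsSympC r Ψ) (ψ : Emb W l 1) {C : Set (ℝ × W)}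
    (hC : ∀ p ∈ C, 0 < p.1) (hm : ∀ p ∈ C, ∀ z ∈ ball (0 : W) l, ‖conj Ψ p (ψ.1 z)‖ < 1)
    (hc : IsPreconnected C) (p q : C) :
    cEmb h ψ hC hm p ∈ connectedComponent (cEmb h ψ hC hm q) := by
  have : PreconnectedSpace C := isPreconnected_iff_preconnectedSpace.1 hc
  have h1 : IsPreconnected (range (cEmb h ψ hC hm)) :=
    isPreconnected_range (continuous_cEmb h ψ hC hm)
  exact h1.subset_connectedComponent (mem_range_self q) (mem_range_self p)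

/-- The pairs `(u, v)` for which the conjugate is supported in the open unit ball. -/
def Reg (W : Type*) [NormedAddCommGroup W] (r : ℝ) : Set (ℝ × W) := {p | 0 < p.1 ∧ ‖p.2‖ + p.1 * r < 1}

theorem convex_reg (r : ℝ) : Convex ℝ (Reg W r) := by
  intro p hp q hq a b ha hb hab
  refine ⟨?_, ?_⟩
  · change 0 < a * p.1 + b * q.1
    rcases eq_or_lt_of_le ha with h0 | h0
    · rw [← h0, zero_add] at hab
      rw [← h0, hab]
      linarith [hq.1]
    · have := mul_pos h0 hp.1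
      have := mul_nonneg hb hq.1.le
      linarith
  · change ‖a • p.2 + b • q.2‖ + (a * p.1 + b * q.1) * r < 1
    have h1 : ‖a • p.2 + b • q.2‖ ≤ a * ‖p.2‖ + b * ‖q.2‖ := by
      refine (norm_add_le _ _).trans ?_
      rw [norm_smul, norm_smul, Real.norm_of_nonneg ha, Real.norm_of_nonneg hb]
    have h2 := hp.2
    have h3 := hq.2
    rcases eq_or_lt_of_le ha with h0 | h0
    · rw [← h0, zero_add] at hab
      rw [← h0, hab] at h1 ⊢
      linarith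
    · have h4 : a * (‖p.2‖ + p.1 * r) < a * 1 := mul_lt_mul_of_pos_left h2 h0
      have h5 : b * (‖q.2‖ + q.1 * r) ≤ b * 1 := mul_le_mul_of_nonneg_left h3.le hb
      linarith

theorem reg_maps {l r : ℝ} {Ψ : W → W} (h : IsSympC r Ψ) (ψ : Emb W l 1) :
    ∀ p ∈ Reg W r, ∀ z ∈ ball (0 : W) l, ‖conj Ψ p (ψ.1 z)‖ < 1 := fun _ hp z hz =>
  conj_norm_lt h hp.1 hp.2 (mem_ball_zero_iff.1 (ψ.2.1.maps hz))

/-- All conjugates supported in the open unit ball act trivially on the component of `ψ₀`. -/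
theorem reg_mem {l r : ℝ} {Ψ : W → W} (h : IsSympC r Ψ) (ψ₀ : Emb W l 1)
    (hd : ∃ v ∈ ball (0 : W) 1, v ∉ closure (ψ₀.1 '' ball 0 l)) (p : Reg W r) :
    cEmb h ψ₀ (fun p hp => hp.1) (reg_maps h ψ₀) p ∈ connectedComponent ψ₀ := by
  obtain ⟨v, hv, hv'⟩ := hd
  rw [mem_ball_zero_iff] at hv
  obtain ⟨ε, hε, hball⟩ := Metric.isOpen_iff.1 isClosed_closure.isOpen_compl v hv'
  obtain ⟨u, hu, hur⟩ : ∃ u : ℝ, 0 < u ∧ u * r < min ε (1 - ‖v‖) := by
    have hpos : 0 < min ε (1 - ‖v‖) := lt_min hε (by linarith)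
    have h1 : 0 < |r| + 1 := by positivity
    refine ⟨min ε (1 - ‖v‖) / (|r| + 1), div_pos hpos h1, ?_⟩
    rw [div_mul_eq_mul_div, div_lt_iff₀ h1]
    have h2 : r < |r| + 1 := by linarith [le_abs_self r]
    exact mul_lt_mul_of_pos_left h2 hpos
  have hp2 : (u, v) ∈ Reg W r := ⟨hu, by
    have := hur.trans_le (min_le_right _ _)
    change ‖v‖ + u * r < 1
    linarith⟩
  have key := cEmb_mem h ψ₀ (fun p hp => hp.1) (reg_maps h ψ₀) (convex_reg r).isPreconnected p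
    ⟨_, hp2⟩
  have e2 : cEmb h ψ₀ (fun p hp => hp.1) (reg_maps h ψ₀) ⟨_, hp2⟩ = ψ₀ := by
    apply Subtype.ext
    funext z
    by_cases hz : z ∈ ball (0 : W) l
    · have h1 := cEmb_apply h ψ₀ (fun p hp => hp.1) (reg_maps h ψ₀) ⟨_, hp2⟩ hz
      rw [h1]
      refine conj_eq_self h hu ?_
      by_contra hcon
      rw [not_le] at hcon
      have h2 : ψ₀.1 z ∈ ball v ε := by
        rw [mem_ball, dist_eq_norm]
        exact hcon.trans (hur.trans_le (min_le_left _ _))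
      exact hball h2 (subset_closure (mem_image_of_mem _ hz))
    · rw [(cEmb h ψ₀ (fun p hp => hp.1) (reg_maps h ψ₀) ⟨_, hp2⟩).2.2 z hz, ψ₀.2.2 z hz]
  rwa [e2] at key

/-- **The action on the components is trivial.** -/
theorem action {l : ℝ} (hl : 0 < l) (ψ₀ ψ₁ : Emb W l 1)
    (hd : ∃ v ∈ ball (0 : W) 1, v ∉ closure (ψ₀.1 '' ball 0 l))
    (he : ∀ a, 0 < a → a < l → ∃ (r : ℝ) (Ψ : W → W), r < 1 ∧ IsSympC r Ψ ∧
      ∀ z ∈ ball (0 : W) a, ψ₁.1 z = Ψ (ψ₀.1 z)) : ψ₁ ∈ connectedComponent ψ₀ := by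
  refine mem_of_agree isClosed_connectedComponent hl ψ₁ ?_
  intro a ha hal
  obtain ⟨r, Ψ, hr, h, hz⟩ := he a ha hal
  have hp : ((1 : ℝ), (0 : W)) ∈ Reg W r := ⟨one_pos, by simpa using hr⟩
  refine ⟨_, reg_mem h ψ₀ hd ⟨_, hp⟩, ?_⟩
  intro z hza
  rw [cEmb_apply h ψ₀ (fun p hp => hp.1) (reg_maps h ψ₀) ⟨_, hp⟩ (ball_subset_ball hal.le hza),
    hz z hza]
  simp [conj]

/-- The inclusion has a point of the unit ball off the closure of its image. -/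
theorem incl_not_dense [Nontrivial W] {l : ℝ} (hl : 0 < l) (hl1 : l < 1) :
    ∃ v ∈ ball (0 : W) 1, v ∉ closure ((incl (W := W) hl1.le).1 '' ball 0 l) := by
  obtain ⟨x, hx⟩ := exists_ne (0 : W)
  have hx' : 0 < ‖x‖ := norm_pos_iff.2 hx
  have h0 : 0 < (l + 1) / 2 := by linarith
  have hv : ‖((l + 1) / 2 / ‖x‖) • x‖ = (l + 1) / 2 := by
    rw [norm_smul, Real.norm_of_nonneg (div_pos h0 hx').le, div_mul_cancel₀ _ hx'.ne']
  refine ⟨((l + 1) / 2 / ‖x‖) • x, ?_, ?_⟩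
  · rw [mem_ball_zero_iff, hv]
    linarith
  · intro h1
    have h2 : (incl (W := W) hl1.le).1 '' ball 0 l ⊆ closedBall 0 l := by
      rintro _ ⟨z, hz, rfl⟩
      have h3 : (incl (W := W) hl1.le).1 z = z := indicator_of_mem hz _
      rw [h3]
      exact ball_subset_closedBall hz
    have h4 := closure_minimal h2 isClosed_closedBall h1
    rw [mem_closedBall_zero_iff, hv] at h4
    linarith

/-- **The criterion for the component of the inclusion.** -/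
theorem growth {l : ℝ} (hl : 0 < l) (hl1 : l < 1) (ψ : Emb W l 1)
    (he : ∀ a, 0 < a → a < l → ∃ (r : ℝ) (Ψ : W → W), IsSympC r Ψ ∧
      (∀ z ∈ ball (0 : W) a, ψ.1 z = Ψ z) ∧ ∀ z : W, ‖Ψ z‖ < max 1 (‖z‖ / l)) :
    ψ ∈ connectedComponent (incl (W := W) hl1.le) := by
  rcases subsingleton_or_nontrivial W with hW | hW
  · have : ψ = incl (W := W) hl1.le := Subtype.ext (funext fun z => Subsingleton.elim _ _)
    rw [this]
    exact mem_connectedComponent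
  refine mem_of_agree isClosed_connectedComponent hl ψ ?_
  intro a ha hal
  obtain ⟨r, Ψ, h, hz, hg⟩ := he a ha hal
  let ι : Emb W l 1 := incl (W := W) hl1.le
  have hι : ∀ z ∈ ball (0 : W) l, ι.1 z = z := fun z hz => by
    change indicator (ball (0 : W) l) id z = z
    rw [indicator_of_mem hz, id]
  let C : Set (ℝ × W) := {p | 0 < p.1 ∧ p.1 ≤ 1 ∧ p.2 = 0}
  have hC : ∀ p ∈ C, 0 < p.1 := fun p hp => hp.1
  have hconv : Convex ℝ C := by
    intro p hp q hq s t hs ht hst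
    refine ⟨?_, ?_, ?_⟩
    · change 0 < s * p.1 + t * q.1
      rcases eq_or_lt_of_le hs with h0 | h0
      · rw [← h0, zero_add] at hst
        rw [← h0, hst]
        linarith [hq.1]
      · have := mul_pos h0 hp.1
        have := mul_nonneg ht hq.1.le
        linarith
    · change s * p.1 + t * q.1 ≤ 1
      have h1 := mul_le_mul_of_nonneg_left hp.2.1 hs
      have h2 := mul_le_mul_of_nonneg_left hq.2.1 ht
      linarith
    · change s • p.2 + t • q.2 = 0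
      rw [hp.2.2, hq.2.2, smul_zero, smul_zero, add_zero]
  have hm : ∀ p ∈ C, ∀ z ∈ ball (0 : W) l, ‖conj Ψ p (ι.1 z)‖ < 1 := by
    intro p hp z hz
    rw [hι z hz]
    unfold conj
    rw [hp.2.2, zero_add, sub_zero, norm_smul, Real.norm_of_nonneg hp.1.le]
    have h1 := hg (p.1⁻¹ • z)
    have h2 : max 1 (‖p.1⁻¹ • z‖ / l) ≤ p.1⁻¹ := by
      refine max_le ((one_le_inv₀ hp.1).2 hp.2.1) ?_
      rw [norm_smul, norm_inv, Real.norm_of_nonneg hp.1.le, div_le_iff₀ hl]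
      exact mul_le_mul_of_nonneg_left (mem_ball_zero_iff.1 hz).le (inv_pos.2 hp.1).le
    calc p.1 * ‖Ψ (p.1⁻¹ • z)‖ < p.1 * p.1⁻¹ := mul_lt_mul_of_pos_left (h1.trans_le h2) hp.1
      _ = 1 := mul_inv_cancel₀ hp.1.ne'
  -- a small factor
  obtain ⟨u, hu, hu1, hur⟩ : ∃ u : ℝ, 0 < u ∧ u ≤ 1 ∧ u * r < 1 := by
    have h1 : 0 < |r| + 1 := by positivity
    refine ⟨1 / (|r| + 1), by positivity, ?_, ?_⟩
    · rw [div_le_one h1]
      linarith [abs_nonneg r]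
    · rw [div_mul_eq_mul_div, div_lt_iff₀ h1]
      linarith [le_abs_self r]
  have hp1 : ((1 : ℝ), (0 : W)) ∈ C := ⟨one_pos, le_rfl, rfl⟩
  have hp2 : (u, (0 : W)) ∈ C := ⟨hu, hu1, rfl⟩
  have hp3 : (u, (0 : W)) ∈ Reg W r := ⟨hu, by simpa using hur⟩
  have k1 := cEmb_mem h ι hC hm hconv.isPreconnected ⟨_, hp1⟩ ⟨_, hp2⟩
  have k2 := reg_mem h ι (incl_not_dense hl hl1) ⟨_, hp3⟩
  have e : cEmb h ι hC hm ⟨_, hp2⟩ = cEmb h ι (fun p hp => hp.1) (reg_maps h ι) ⟨_, hp3⟩ := rfl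
  rw [e, ← connectedComponent_eq k2] at k1
  refine ⟨_, k1, ?_⟩
  intro z hza
  have hzl : z ∈ ball (0 : W) l := ball_subset_ball hal.le hza
  rw [cEmb_apply h ι hC hm ⟨_, hp1⟩ hzl, hι z hzl, hz z hza]
  simp [conj]

end H88W
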