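import Pool.Agent.Lib.H88W.S2

/-!
# S3: the action on the components is trivial, without a condition on the image
-/

open Set Metric Topology
open scoped ContDiff

set_option linter.unusedSectionVars false

namespace H88W

variable {W : Type*} [NormedAddCommGroup W] [InnerProductSpace ℂ W] [FiniteDimensional ℂ W]

/-- The image of a smaller closed ball is not the whole unit ball. -/
theorem exists_off [Nontrivial W] {l a : ℝ} (ha : 0 < a) (hal : a < l) (ψ : Emb W l 1) :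
    ∃ v ∈ ball (0 : W) 1, v ∉ ψ.1 '' closedBall (0 : W) a := by
  have : ProperSpace W := FiniteDimensional.proper ℂ W
  by_contra hcon
  push Not at hcon
  have hsub : ψ.1 '' closedBall (0 : W) a ⊆ ball 0 1 := by
    rintro _ ⟨z, hz, rfl⟩
    exact ψ.2.1.maps (closedBall_subset_ball hal hz)
  have heq : ψ.1 '' closedBall (0 : W) a = ball 0 1 := Subset.antisymm hsub hcon
  have hcpt : IsCompact (ball (0 : W) 1) := by
    rw [← heq]
    exact (isCompact_closedBall _ _).image_of_continuousOn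
      (ψ.2.1.smooth.continuousOn.mono (closedBall_subset_ball hal))
  have hclopen : IsClopen (ball (0 : W) 1) := ⟨hcpt.isClosed, isOpen_ball⟩
  have huniv := hclopen.eq_univ ⟨0, mem_ball_self one_pos⟩
  obtain ⟨x, hx⟩ := exists_ne (0 : W)
  have hx' : 0 < ‖x‖ := norm_pos_iff.2 hx
  have h1 : ‖x‖⁻¹ • x ∈ ball (0 : W) 1 := by
    rw [huniv]
    trivial
  rw [mem_ball_zero_iff, norm_smul, norm_inv, norm_norm, inv_mul_cancel₀ hx'.ne'] at h1
  exact lt_irrefl _ h1

/-- The composition of `ψ₀` with a symplectomorphism supported in the open unit ball. -/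
noncomputable def post {l r : ℝ} {Ψ : W → W} (h : IsSympC r Ψ) (hr : r < 1) (ψ₀ : Emb W l 1) :
    Emb W l 1 :=
  cEmb h ψ₀ (fun _ hp => hp.1) (reg_maps h ψ₀) ⟨((1 : ℝ), (0 : W)), ⟨one_pos, by simpa using hr⟩⟩

theorem post_apply {l r : ℝ} {Ψ : W → W} (h : IsSympC r Ψ) (hr : r < 1) (ψ₀ : Emb W l 1) {z : W}
    (hz : z ∈ ball (0 : W) l) : (post h hr ψ₀).1 z = Ψ (ψ₀.1 z) := by
  unfold post
  rw [cEmb_apply h ψ₀ (fun _ hp => hp.1) (reg_maps h ψ₀) _ hz]
  simp [conj]

theorem mem_post {l r : ℝ} (hl : 0 < l) {Ψ : W → W} (h : IsSympC r Ψ) (hr : r < 1)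
    (ψ₀ : Emb W l 1) : ψ₀ ∈ connectedComponent (post h hr ψ₀) := by
  have : ProperSpace W := FiniteDimensional.proper ℂ W
  rcases subsingleton_or_nontrivial W with hW | hW
  · have : ψ₀ = post h hr ψ₀ := Subtype.ext (funext fun z => Subsingleton.elim _ _)
    rw [← this]
    exact mem_connectedComponent
  refine mem_of_agree isClosed_connectedComponent hl ψ₀ ?_
  intro a ha hal
  obtain ⟨v, hv, hv'⟩ := exists_off ha hal ψ₀
  rw [mem_ball_zero_iff] at hv
  have hcl : IsClosed (ψ₀.1 '' closedBall (0 : W) a) :=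
    ((isCompact_closedBall _ _).image_of_continuousOn
      (ψ₀.2.1.smooth.continuousOn.mono (closedBall_subset_ball hal))).isClosed
  obtain ⟨ε, hε, hball⟩ := Metric.isOpen_iff.1 hcl.isOpen_compl v hv'
  obtain ⟨u, hu, hur⟩ : ∃ u : ℝ, 0 < u ∧ u * r < min ε (1 - ‖v‖) := by
    have hpos : 0 < min ε (1 - ‖v‖) := lt_min hε (by linarith)
    have h1 : 0 < |r| + 1 := by positivity
    refine ⟨min ε (1 - ‖v‖) / (|r| + 1), div_pos hpos h1, ?_⟩
    rw [div_mul_eq_mul_div, div_lt_iff₀ h1]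
    have h2 : r < |r| + 1 := by linarith [le_abs_self r]
    exact mul_lt_mul_of_pos_left h2 hpos
  have hp2 : (u, v) ∈ Reg W r := ⟨hu, by
    have := hur.trans_le (min_le_right _ _)
    change ‖v‖ + u * r < 1
    linarith⟩
  refine ⟨_, cEmb_mem h ψ₀ (fun _ hp => hp.1) (reg_maps h ψ₀) (convex_reg r).isPreconnected
    ⟨_, hp2⟩ _, ?_⟩
  intro z hza
  have hzl : z ∈ ball (0 : W) l := ball_subset_ball hal.le hza
  rw [cEmb_apply h ψ₀ (fun _ hp => hp.1) (reg_maps h ψ₀) ⟨_, hp2⟩ hzl]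
  refine conj_eq_self h hu ?_
  by_contra hcon
  rw [not_le] at hcon
  have h2 : ψ₀.1 z ∈ ball v ε := by
    rw [mem_ball, dist_eq_norm]
    exact hcon.trans (hur.trans_le (min_le_left _ _))
  exact hball h2 ⟨z, ball_subset_closedBall hza, rfl⟩

/-- **The action on the components is trivial.** -/
theorem action_all {l : ℝ} (hl : 0 < l) (ψ₀ ψ₁ : Emb W l 1)
    (he : ∀ a, 0 < a → a < l → ∃ (r : ℝ) (Ψ : W → W), r < 1 ∧ IsSympC r Ψ ∧
      ∀ z ∈ ball (0 : W) a, ψ₁.1 z = Ψ (ψ₀.1 z)) : ψ₁ ∈ connectedComponent ψ₀ := by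
  refine mem_of_agree isClosed_connectedComponent hl ψ₁ ?_
  intro a ha hal
  obtain ⟨r, Ψ, hr, h, hz⟩ := he a ha hal
  refine ⟨post h hr ψ₀, ?_, ?_⟩
  · rw [← connectedComponent_eq (mem_post hl h hr ψ₀)]
    exact mem_connectedComponent
  · intro z hza
    rw [post_apply h hr ψ₀ (ball_subset_ball hal.le hza), hz z hza]

end H88W
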