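import Pool.Agent.Lib.H88W.S2

/-!
# T1: the family `z ↦ t⁻¹ (A (Ψ (v + t ψ z)) + c)`

`Ψ` is a compactly supported symplectomorphism of the whole space, `ψ` an embedding in the unit ball,
`(v, t)` a centre and a scale, `(A, c)` an affine symplectic map.
-/

open Set Metric Topology
open scoped ContDiff

set_option linter.unusedSectionVars false

namespace H88W

variable {W : Type*} [NormedAddCommGroup W] [InnerProductSpace ℂ W] [FiniteDimensional ℂ W]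

/-- The rescaled composition. -/
noncomputable def fam (Ψ ψ : W → W) (q : (W × ℝ) × (W →L[ℝ] W) × W) (z : W) : W :=
  q.1.2⁻¹ • (q.2.1 (Ψ (q.1.1 + q.1.2 • ψ z)) + q.2.2)

/-- The parameters for which the rescaled composition is an embedding in the unit ball. -/
def GDom (l : ℝ) (Ψ ψ : W → W) : Set ((W × ℝ) × (W →L[ℝ] W) × W) :=
  {q | 0 < q.1.2 ∧ IsSymp q.2.1 ∧
    ∀ z ∈ ball (0 : W) l, ‖q.2.1 (Ψ (q.1.1 + q.1.2 • ψ z)) + q.2.2‖ < q.1.2}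

/-- The pairs `(v, t)` such that some affine symplectic map sends `Ψ (v + t K)` into the open ball of
radius `t`. -/
def Good (Ψ : W → W) (K : Set W) : Set (W × ℝ) :=
  {p | 0 < p.2 ∧ ∃ (A : W →L[ℝ] W) (c : W), IsSymp A ∧ ∀ y ∈ K, ‖A (Ψ (p.1 + p.2 • y)) + c‖ < p.2}

theorem fam_contDiffAt {Ψ ψ : W → W} (h : ContDiff ℝ (⊤ : ℕ∞) Ψ)
    {q : (W × ℝ) × (W →L[ℝ] W) × W} (hq : 0 < q.1.2) {z : W} (hg : ContDiffAt ℝ (⊤ : ℕ∞) ψ z) :
    ContDiffAt ℝ (⊤ : ℕ∞) (Function.uncurry (fam Ψ ψ)) (q, z) := by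
  have e1 : ContDiffAt ℝ (⊤ : ℕ∞) (fun q : ((W × ℝ) × (W →L[ℝ] W) × W) × W => q.1.1.1) (q, z) :=
    (contDiff_fst.fst.fst).contDiffAt
  have e2 : ContDiffAt ℝ (⊤ : ℕ∞) (fun q : ((W × ℝ) × (W →L[ℝ] W) × W) × W => q.1.1.2) (q, z) :=
    (contDiff_fst.fst.snd).contDiffAt
  have e3 : ContDiffAt ℝ (⊤ : ℕ∞) (fun q : ((W × ℝ) × (W →L[ℝ] W) × W) × W => q.1.2.1) (q, z) :=
    (contDiff_fst.snd.fst).contDiffAt
  have e4 : ContDiffAt ℝ (⊤ : ℕ∞) (fun q : ((W × ℝ) × (W →L[ℝ] W) × W) × W => q.1.2.2) (q, z) :=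
    (contDiff_fst.snd.snd).contDiffAt
  have e5 : ContDiffAt ℝ (⊤ : ℕ∞) (fun q : ((W × ℝ) × (W →L[ℝ] W) × W) × W => ψ q.2) (q, z) :=
    ContDiffAt.comp (g := ψ) (f := fun q : ((W × ℝ) × (W →L[ℝ] W) × W) × W => q.2) (q, z) hg
      contDiffAt_snd
  have e6 : ContDiffAt ℝ (⊤ : ℕ∞)
      (fun q : ((W × ℝ) × (W →L[ℝ] W) × W) × W => Ψ (q.1.1.1 + q.1.1.2 • ψ q.2)) (q, z) :=
    ContDiffAt.comp (g := Ψ)
      (f := fun q : ((W × ℝ) × (W →L[ℝ] W) × W) × W => q.1.1.1 + q.1.1.2 • ψ q.2) (q, z)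
      h.contDiffAt (e1.add (e2.smul e5))
  exact (e2.inv hq.ne').smul ((e3.clm_apply e6).add e4)

theorem fam_hasFDerivAt {r : ℝ} {Ψ : W → W} (h : IsSympC r Ψ) {ψ : W → W}
    {q : (W × ℝ) × (W →L[ℝ] W) × W} (hq : 0 < q.1.2) {z : W}
    (hψ : HasFDerivAt ψ (fderiv ℝ ψ z) z) :
    HasFDerivAt (fam Ψ ψ q)
      (q.2.1.comp ((fderiv ℝ Ψ (q.1.1 + q.1.2 • ψ z)).comp (fderiv ℝ ψ z))) z := by
  have h1 : HasFDerivAt Ψ (fderiv ℝ Ψ (q.1.1 + q.1.2 • ψ z)) (q.1.1 + q.1.2 • ψ z) :=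
    (h.smooth.differentiable (by simp)).differentiableAt.hasFDerivAt
  have h2 : HasFDerivAt (fun z : W => q.1.1 + q.1.2 • ψ z) (q.1.2 • fderiv ℝ ψ z) z :=
    (hψ.const_smul q.1.2).const_add q.1.1
  have h3 : HasFDerivAt (fun z => Ψ (q.1.1 + q.1.2 • ψ z))
      ((fderiv ℝ Ψ (q.1.1 + q.1.2 • ψ z)).comp (q.1.2 • fderiv ℝ ψ z)) z :=
    HasFDerivAt.comp z h1 h2
  have h4 := ((q.2.1.hasFDerivAt.comp z h3).add_const q.2.2).const_smul q.1.2⁻¹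
  have h5 : q.1.2⁻¹ • q.2.1.comp ((fderiv ℝ Ψ (q.1.1 + q.1.2 • ψ z)).comp
      (q.1.2 • fderiv ℝ ψ z)) =
      q.2.1.comp ((fderiv ℝ Ψ (q.1.1 + q.1.2 • ψ z)).comp (fderiv ℝ ψ z)) := by
    ext v
    simp [smul_smul, hq.ne']
  rw [h5] at h4
  exact h4

theorem isEmb_fam {l r : ℝ} {Ψ : W → W} (h : IsSympC r Ψ) {ψ : W → W} (hψ : IsEmb l 1 ψ)
    {q : (W × ℝ) × (W →L[ℝ] W) × W} (hq : q ∈ GDom l Ψ ψ) :
    IsEmb l 1 (indicator (ball 0 l) (fam Ψ ψ q)) := by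
  have hev : ∀ z ∈ ball (0 : W) l, (indicator (ball 0 l) (fam Ψ ψ q)) =ᶠ[𝓝 z] fam Ψ ψ q := by
    intro z hz
    filter_upwards [isOpen_ball.mem_nhds hz] with y hy
    exact indicator_of_mem hy _
  refine ⟨?_, ?_, ?_, ?_⟩
  · intro z hz
    have hg : ContDiffAt ℝ (⊤ : ℕ∞) ψ z := hψ.smooth.contDiffAt (isOpen_ball.mem_nhds hz)
    have h1 := fam_contDiffAt h.smooth hq.1 hg
    have h2 : ContDiffAt ℝ (⊤ : ℕ∞) (fun z : W => (q, z)) z := (contDiff_prodMk_right q).contDiffAt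
    have h3 : ContDiffAt ℝ (⊤ : ℕ∞) (fam Ψ ψ q) z :=
      ContDiffAt.comp (g := Function.uncurry (fam Ψ ψ)) (f := fun z : W => (q, z)) z h1 h2
    exact (h3.congr_of_eventuallyEq (hev z hz)).contDiffWithinAt
  · intro x hx y hy hxy
    rw [indicator_of_mem hx, indicator_of_mem hy] at hxy
    unfold fam at hxy
    have h1 := smul_right_injective W (inv_ne_zero hq.1.ne') hxy
    have h2 := h.inj (symp_injective hq.2.1 (add_right_cancel h1))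
    have h3 := smul_right_injective W hq.1.ne' (add_left_cancel h2)
    exact hψ.inj hx hy h3
  · intro z hz
    rw [indicator_of_mem hz, mem_ball_zero_iff]
    unfold fam
    rw [norm_smul, norm_inv, Real.norm_of_nonneg hq.1.le, inv_mul_lt_iff₀ hq.1, mul_one]
    exact hq.2.2 z hz
  · intro z hz
    rw [(hev z hz).fderiv_eq]
    have h1 : HasFDerivAt ψ (fderiv ℝ ψ z) z :=
      ((hψ.smooth.contDiffAt (isOpen_ball.mem_nhds hz)).differentiableAt (by simp)).hasFDerivAt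
    rw [(fam_hasFDerivAt h hq.1 h1).fderiv]
    intro u v
    simp only [ContinuousLinearMap.comp_apply]
    rw [hq.2.1, h.symp]
    exact hψ.symp z hz u v

/-- The embedding of a parameter in `GDom`. -/
noncomputable def gEmb {l r : ℝ} {Ψ : W → W} (h : IsSympC r Ψ) (ψ : Emb W l 1)
    (q : GDom l Ψ ψ.1) : Emb W l 1 :=
  ⟨indicator (ball 0 l) (fam Ψ ψ.1 q), isEmb_fam h ψ.2.1 q.2, fun _ hz => indicator_of_notMem hz _⟩

theorem gEmb_apply {l r : ℝ} {Ψ : W → W} (h : IsSympC r Ψ) (ψ : Emb W l 1)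
    (q : GDom l Ψ ψ.1) {z : W} (hz : z ∈ ball (0 : W) l) : (gEmb h ψ q).1 z = fam Ψ ψ.1 q z := by
  change indicator (ball 0 l) (fam Ψ ψ.1 q) z = _
  rw [indicator_of_mem hz]

theorem continuous_gEmb {l r : ℝ} {Ψ : W → W} (h : IsSympC r Ψ) (ψ : Emb W l 1) :
    Continuous (gEmb h ψ) := by
  refine continuous_family (F := fam Ψ ψ.1) ?_ ?_
  · intro p hp z hz
    exact fam_contDiffAt h.smooth hp.1 (ψ.2.1.smooth.contDiffAt (isOpen_ball.mem_nhds hz))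
  · intro p z hz
    exact gEmb_apply h ψ p hz

end H88W
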