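import Pool.Agent.Lib.H88W.T1
import Pool.Agent.Lib.H88W.P4

/-!
# T2: the component is constant along preconnected sets of good pairs

Same proofs as in R1 (`same_component`, `open_in_s`, `component_interior`), with the parameter space
`(W × ℝ) × (W →L[ℝ] W) × W`.

* `same_component_g`: `fibre2` with `U = (fun z => Ψ (p.1 + p.2 • ψ.1 z)) '' ball 0 l`, `s = p.2`.
* `open_in_p`: compactness of `K`, `(p, y) ↦ ‖A (Ψ (p.1 + p.2 • y)) + c‖ - p.2` is continuous.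
* `good_const`: choose `(A, c)` for every `p` in `C` from `hC`; `p ↦ ConnectedComponents.mk (gEmb ..)` is locally
  constant on the subtype `C` (near `p₀` use the constant pair `(A, c)` of `p₀`: it fits on a ball about `p₀`
  of `W × ℝ`, which is convex, so preconnected), hence constant.
-/

open Set Metric Topology
open scoped ContDiff

set_option linter.unusedSectionVars false

namespace H88W

variable {W : Type*} [NormedAddCommGroup W] [InnerProductSpace ℂ W] [FiniteDimensional ℂ W]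

theorem same_component_g {l r : ℝ} {Ψ : W → W} (h : IsSympC r Ψ) (ψ : Emb W l 1) {p : W × ℝ}
    {a b : (W →L[ℝ] W) × W} (ha : (p, a) ∈ GDom l Ψ ψ.1) (hb : (p, b) ∈ GDom l Ψ ψ.1) :
    gEmb h ψ ⟨(p, a), ha⟩ ∈ connectedComponent (gEmb h ψ ⟨(p, b), hb⟩) := by
  set U : Set W := (fun z => Ψ (p.1 + p.2 • ψ.1 z)) '' ball 0 l with hU
  have hp : b ∈ Fit U p.2 := by
    refine ⟨hb.2.1, ?_⟩
    rintro x ⟨z, hz, rfl⟩
    exact hb.2.2 z hz
  have hq : a ∈ Fit U p.2 := by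
    refine ⟨ha.2.1, ?_⟩
    rintro x ⟨z, hz, rfl⟩
    exact ha.2.2 z hz
  obtain ⟨γ, hγ⟩ := fibre2 ha.1 hp hq
  have hD : ∀ t, (p, γ t) ∈ GDom l Ψ ψ.1 := by
    intro t
    refine ⟨ha.1, (hγ t).1, ?_⟩
    intro z hz
    exact (hγ t).2 _ ⟨z, hz, rfl⟩
  have hcont : Continuous fun t : unitInterval => gEmb h ψ ⟨(p, γ t), hD t⟩ := by
    refine (continuous_gEmb h ψ).comp (Continuous.subtype_mk ?_ _)
    exact continuous_const.prodMk γ.continuous
  have h1 : ∀ (a' b' : (W →L[ℝ] W) × W) (ha' : (p, a') ∈ GDom l Ψ ψ.1)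
      (hb' : (p, b') ∈ GDom l Ψ ψ.1), a' = b' →
      gEmb h ψ ⟨(p, a'), ha'⟩ = gEmb h ψ ⟨(p, b'), hb'⟩ := by
    rintro a' b' ha' hb' rfl
    rfl
  let P : Path (gEmb h ψ ⟨(p, b), hb⟩) (gEmb h ψ ⟨(p, a), ha⟩) :=
    { toFun := fun t => gEmb h ψ ⟨(p, γ t), hD t⟩
      continuous_toFun := hcont
      source' := h1 _ _ _ _ γ.source
      target' := h1 _ _ _ _ γ.target }
  exact pathComponent_subset_component _ ⟨P⟩

theorem open_in_p {Ψ : W → W} (h : Continuous Ψ) {K : Set W} (hK : IsCompact K) {p₀ : W × ℝ}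
    {A : W →L[ℝ] W} {c : W} (hp : ∀ y ∈ K, ‖A (Ψ (p₀.1 + p₀.2 • y)) + c‖ < p₀.2) :
    ∀ᶠ p : W × ℝ in 𝓝 p₀, ∀ y ∈ K, ‖A (Ψ (p.1 + p.2 • y)) + c‖ < p.2 := by
  refine hK.eventually_forall_of_forall_eventually ?_
  intro y hy
  have c1 : Continuous fun q : (W × ℝ) × W => ‖A (Ψ (q.1.1 + q.1.2 • q.2)) + c‖ := by
    have e1 : Continuous fun q : (W × ℝ) × W => q.1.1 + q.1.2 • q.2 := by fun_prop
    exact ((A.continuous.comp (h.comp e1)).add continuous_const).norm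
  have c2 : Continuous fun q : (W × ℝ) × W => q.1.2 := by fun_prop
  exact (c1.tendsto (p₀, y)).eventually_lt (c2.tendsto (p₀, y)) (hp y hy)

theorem good_const {l r : ℝ} {Ψ : W → W} (h : IsSympC r Ψ) (ψ : Emb W l 1) {K : Set W}
    (hK : IsCompact K) (hψK : ∀ z ∈ ball (0 : W) l, ψ.1 z ∈ K) {C : Set (W × ℝ)}
    (hC : C ⊆ Good Ψ K) (hpre : IsPreconnected C) {p q : W × ℝ} (hp : p ∈ C) (hq : q ∈ C)
    {a b : (W →L[ℝ] W) × W} (ha : (p, a) ∈ GDom l Ψ ψ.1) (hb : (q, b) ∈ GDom l Ψ ψ.1) :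
    gEmb h ψ ⟨(p, a), ha⟩ ∈ connectedComponent (gEmb h ψ ⟨(q, b), hb⟩) := by
  have hdom : ∀ (p : W × ℝ) (A : W →L[ℝ] W) (c : W), 0 < p.2 → IsSymp A →
      (∀ y ∈ K, ‖A (Ψ (p.1 + p.2 • y)) + c‖ < p.2) → (p, (A, c)) ∈ GDom l Ψ ψ.1 :=
    fun p A c h0 hA hb => ⟨h0, hA, fun z hz => hb _ (hψK z hz)⟩
  have hC' : ∀ p : C, ∃ (A : W →L[ℝ] W) (c : W), IsSymp A ∧
      ∀ y ∈ K, ‖A (Ψ (p.1.1 + p.1.2 • y)) + c‖ < p.1.2 := fun p => (hC p.2).2
  have hpos : ∀ p : C, 0 < p.1.2 := fun p => (hC p.2).1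
  choose FA Fc hFA hFb using hC'
  let f : C → ConnectedComponents (Emb W l 1) := fun p =>
    ConnectedComponents.mk (gEmb h ψ ⟨(p.1, (FA p, Fc p)), hdom _ _ _ (hpos p) (hFA p) (hFb p)⟩)
  have hf : IsLocallyConstant f := by
    rw [IsLocallyConstant.iff_eventually_eq]
    intro p₀
    have hev0 : ∀ᶠ p : W × ℝ in 𝓝 p₀.1, 0 < p.2 :=
      (continuous_snd.tendsto p₀.1).eventually (lt_mem_nhds (hpos p₀))
    have hev := (open_in_p h.smooth.continuous hK (hFb p₀)).and hev0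
    obtain ⟨ε, hε, hsub⟩ := Metric.mem_nhds_iff.1 hev
    have hD : ∀ y ∈ ball p₀.1 ε, (y, (FA p₀, Fc p₀)) ∈ GDom l Ψ ψ.1 := fun y hy =>
      hdom _ _ _ (hsub hy).2 (hFA _) (hsub hy).1
    have hcont : Continuous fun y : ball p₀.1 ε => gEmb h ψ ⟨(y.1, (FA p₀, Fc p₀)), hD y.1 y.2⟩ := by
      refine (continuous_gEmb h ψ).comp (Continuous.subtype_mk ?_ _)
      exact continuous_subtype_val.prodMk continuous_const
    have : PreconnectedSpace (ball p₀.1 ε) :=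
      isPreconnected_iff_preconnectedSpace.1 (convex_ball p₀.1 ε).isPreconnected
    have hpre := isPreconnected_range hcont
    have hnear : ∀ᶠ y : C in 𝓝 p₀, y.1 ∈ ball p₀.1 ε :=
      continuous_subtype_val.continuousAt.eventually (ball_mem_nhds _ hε)
    filter_upwards [hnear] with y hy
    have e1 : gEmb h ψ ⟨(y.1, (FA p₀, Fc p₀)), hD y.1 hy⟩ ∈
        connectedComponent (gEmb h ψ ⟨(p₀.1, (FA p₀, Fc p₀)), hD p₀.1 (mem_ball_self hε)⟩) :=
      hpre.subset_connectedComponent ⟨⟨p₀.1, mem_ball_self hε⟩, rfl⟩ ⟨⟨y.1, hy⟩, rfl⟩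
    have e2 := same_component_g h ψ
      (hdom _ _ _ (hpos y) (hFA y) (hFb y)) (hD y.1 hy)
    rw [ConnectedComponents.coe_eq_coe']
    rw [connectedComponent_eq e1]
    exact e2
  have : PreconnectedSpace C := isPreconnected_iff_preconnectedSpace.1 hpre
  have hconst : f ⟨p, hp⟩ = f ⟨q, hq⟩ := hf.apply_eq_of_preconnectedSpace _ _
  have e1 := same_component_g h ψ ha (hdom _ _ _ (hpos ⟨p, hp⟩) (hFA ⟨p, hp⟩) (hFb ⟨p, hp⟩))
  have e2 := same_component_g h ψ (hdom _ _ _ (hpos ⟨q, hq⟩) (hFA ⟨q, hq⟩) (hFb ⟨q, hq⟩)) hb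
  have e3 := ConnectedComponents.coe_eq_coe'.1 hconst
  rw [connectedComponent_eq e2, connectedComponent_eq e3]
  exact e1

end H88W
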