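import Pool.Agent.Lib.H88W.T1
import Pool.Agent.Lib.H88W.P4

/-!
# T3: all pairs with a small scale are good

Proof. `D = fderiv ℝ Ψ` is continuous and equals the identity at the points of norm `> r`
(`Ψ` is the identity on an open set there), so it is bounded by some `M` and uniformly continuous. Let
`A` be the inverse of `D v` (`symp_inv`), `‖A‖ ≤ ‖D v‖ ≤ M` by `symp_inv_norm`
(`‖B x‖² = om (B x) (I • B x) = om (A (B x)) (A (I • B x)) = om x (A (I • B x)) ≤ ‖x‖ ‖A‖ ‖B x‖`), and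
`c = - A (Ψ v)`. For `‖y‖ ≤ ρ`: `A (Ψ (v + t y)) + c = t y + A (Ψ (v + t y) - Ψ v - D v (t y))`, and by the mean
value inequality the last bracket is at most `ε t ρ` if `‖D (v + w) - D v‖ ≤ ε` for `‖w‖ ≤ t ρ`; choose `ε` with
`M ε ρ < 1 - ρ`.
-/

open Set Metric Topology
open scoped ContDiff

set_option linter.unusedSectionVars false

namespace H88W

variable {W : Type*} [NormedAddCommGroup W] [InnerProductSpace ℂ W] [FiniteDimensional ℂ W]

private theorem t3_om_le (u v : W) : om u v ≤ ‖u‖ * ‖v‖ := by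
  unfold om
  exact (le_abs_self _).trans ((Complex.abs_im_le_norm _).trans (norm_inner_le_norm u v))

theorem symp_inv_norm {A B : W →L[ℝ] W} (hA : IsSymp A) (hAB : ∀ x, A (B x) = x) (x : W) :
    ‖B x‖ ≤ ‖A‖ * ‖x‖ := by
  have h1 : ‖B x‖ ^ 2 ≤ ‖x‖ * (‖A‖ * ‖B x‖) := by
    rw [← om_I (B x), ← hA, hAB]
    refine (t3_om_le _ _).trans ?_
    refine mul_le_mul_of_nonneg_left ?_ (norm_nonneg _)
    refine (A.le_opNorm _).trans ?_
    rw [norm_smul, Complex.norm_I, one_mul]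
  rcases (norm_nonneg (B x)).eq_or_lt with h0 | h0
  · rw [← h0]
    positivity
  · by_contra hc
    rw [not_le] at hc
    nlinarith

private theorem t3_fderiv_eq {r : ℝ} {Ψ : W → W} (h : IsSympC r Ψ) {z : W} (hz : r < ‖z‖) :
    fderiv ℝ Ψ z = ContinuousLinearMap.id ℝ W := by
  have h1 : Ψ =ᶠ[𝓝 z] id := by
    have h2 : {y : W | r < ‖y‖} ∈ 𝓝 z := (isOpen_lt continuous_const continuous_norm).mem_nhds hz
    filter_upwards [h2] with y hy
    exact h.supp y (le_of_lt hy)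
  rw [h1.fderiv_eq, fderiv_id]

theorem small_end {r : ℝ} {Ψ : W → W} (h : IsSympC r Ψ) {ρ : ℝ} (hρ0 : 0 ≤ ρ) (hρ : ρ < 1) :
    ∃ t₀ : ℝ, 0 < t₀ ∧ ∀ (v : W) (t : ℝ), 0 < t → t < t₀ → (v, t) ∈ Good Ψ (closedBall (0 : W) ρ) := by
  haveI : FiniteDimensional ℝ W := FiniteDimensional.complexToReal W
  haveI : ProperSpace W := FiniteDimensional.proper ℝ W
  have hc : Continuous (fderiv ℝ Ψ) := h.smooth.continuous_fderiv (by simp)
  have hs : HasCompactSupport (fun z => fderiv ℝ Ψ z - ContinuousLinearMap.id ℝ W) := by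
    refine HasCompactSupport.intro (isCompact_closedBall (0 : W) r) ?_
    intro z hz
    rw [mem_closedBall_zero_iff, not_le] at hz
    rw [t3_fderiv_eq h hz, sub_self]
  have hc' : Continuous (fun z => fderiv ℝ Ψ z - ContinuousLinearMap.id ℝ W) :=
    hc.sub continuous_const
  have hu : UniformContinuous (fun z => fderiv ℝ Ψ z - ContinuousLinearMap.id ℝ W) :=
    hs.uniformContinuous_of_continuous hc'
  obtain ⟨C, hC⟩ := hs.exists_bound_of_continuous hc'
  set M : ℝ := |C| + ‖ContinuousLinearMap.id ℝ W‖ with hM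
  have hM0 : 0 ≤ M := by positivity
  have hMb : ∀ z, ‖fderiv ℝ Ψ z‖ ≤ M := by
    intro z
    have h1 : fderiv ℝ Ψ z = (fderiv ℝ Ψ z - ContinuousLinearMap.id ℝ W)
        + ContinuousLinearMap.id ℝ W := by abel
    rw [h1]
    refine (norm_add_le _ _).trans ?_
    exact add_le_add ((hC z).trans (le_abs_self _)) le_rfl
  set ε : ℝ := (1 - ρ) / (2 * (M + 1)) with hε
  have hε0 : 0 < ε := by
    rw [hε]
    apply div_pos <;> linarith
  have hMε : M * ε < 1 - ρ := by
    rw [hε, ← mul_div_assoc, div_lt_iff₀ (by linarith)]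
    nlinarith
  obtain ⟨δ, hδ, hδ'⟩ := Metric.uniformContinuous_iff.1 hu ε hε0
  refine ⟨δ, hδ, fun v t ht htδ => ⟨ht, ?_⟩⟩
  obtain ⟨B, hB, hB1, hB2⟩ := symp_inv (h.symp v)
  refine ⟨B, -B (Ψ v), hB, ?_⟩
  intro y hy
  rw [mem_closedBall_zero_iff] at hy
  have hBn : ‖B‖ ≤ M := by
    refine (B.opNorm_le_bound (norm_nonneg _) (symp_inv_norm (h.symp v) hB2)).trans (hMb v)
  have hty : ‖t • y‖ ≤ t * ρ := by
    rw [norm_smul, Real.norm_of_nonneg ht.le]
    exact mul_le_mul_of_nonneg_left hy ht.le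
  have hty' : ‖t • y‖ < δ := by
    refine hty.trans_lt (lt_of_le_of_lt ?_ htδ)
    nlinarith
  have hmv : ‖Ψ (v + t • y) - Ψ v - (fderiv ℝ Ψ v) ((v + t • y) - v)‖ ≤ ε * ‖(v + t • y) - v‖ := by
    refine Convex.norm_image_sub_le_of_norm_fderiv_le' (s := ball v δ) ?_ ?_ (convex_ball v δ)
      (mem_ball_self hδ) ?_
    · intro x _
      exact (h.smooth.differentiable (by simp)).differentiableAt
    · intro x hx
      have h2 := hδ' (a := x) (b := v) hx
      rw [dist_eq_norm] at h2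
      have h3 : fderiv ℝ Ψ x - ContinuousLinearMap.id ℝ W - (fderiv ℝ Ψ v - ContinuousLinearMap.id ℝ W)
          = fderiv ℝ Ψ x - fderiv ℝ Ψ v := by abel
      rw [h3] at h2
      exact h2.le
    · rw [mem_ball_iff_norm]
      simpa using hty'
  rw [add_sub_cancel_left] at hmv
  have hkey : B (Ψ (v + t • y)) + -B (Ψ v)
      = t • y + B (Ψ (v + t • y) - Ψ v - (fderiv ℝ Ψ v) (t • y)) := by
    rw [map_sub, map_sub, hB1]
    abel
  change ‖B (Ψ (v + t • y)) + -B (Ψ v)‖ < t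
  rw [hkey]
  refine (norm_add_le _ _).trans_lt ?_
  have h4 : ‖B (Ψ (v + t • y) - Ψ v - (fderiv ℝ Ψ v) (t • y))‖ ≤ M * (ε * (t * ρ)) := by
    refine (B.le_opNorm _).trans ?_
    refine mul_le_mul hBn (hmv.trans (mul_le_mul_of_nonneg_left hty hε0.le)) (norm_nonneg _) hM0
  have h5 : M * (ε * (t * ρ)) ≤ M * ε * t := by
    have : ε * (t * ρ) ≤ ε * t := by
      refine mul_le_mul_of_nonneg_left ?_ hε0.le
      nlinarith
    nlinarith
  nlinarith

end H88W
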