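import Pool.Agent.Lib.H88W.T2
import Pool.Agent.Lib.H88W.T3

/-!
# T4: the ends of the half space, and the theorem
-/

open Set Metric Topology
open scoped ContDiff

set_option linter.unusedSectionVars false

namespace H88W

variable {W : Type*} [NormedAddCommGroup W] [InnerProductSpace ℂ W] [FiniteDimensional ℂ W]

theorem IsSympC.mono {r r' : ℝ} {Ψ : W → W} (h : IsSympC r Ψ) (hr : r ≤ r') : IsSympC r' Ψ :=
  ⟨h.smooth, h.inj, h.symp, fun z hz => h.supp z (hr.trans hz)⟩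

theorem far_eq {r : ℝ} {Ψ : W → W} (h : IsSympC r Ψ) {v : W} {t : ℝ} (ht : 0 < t)
    (hv : t + r ≤ ‖v‖) {y : W} (hy : ‖y‖ ≤ 1) : Ψ (v + t • y) = v + t • y := by
  apply h.supp
  have h1 : ‖v‖ ≤ ‖v + t • y‖ + ‖t • y‖ := by
    have := norm_sub_le (v + t • y) (t • y)
    rwa [add_sub_cancel_right] at this
  rw [norm_smul, Real.norm_of_nonneg ht.le] at h1
  nlinarith

theorem large_end {r ρ : ℝ} {Ψ : W → W} (h : IsSympC r Ψ) (hr : 0 ≤ r) {v : W} {t : ℝ} (ht : 0 < t)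
    (htr : 2 * r + ρ * t < t) {y : W} (hy : ‖y‖ ≤ ρ) : ‖Ψ (v + t • y) - v‖ < t := by
  have hn : ‖t • y‖ ≤ ρ * t := by
    rw [norm_smul, Real.norm_of_nonneg ht.le]
    nlinarith
  rcases le_or_gt r ‖v + t • y‖ with h1 | h1
  · rw [h.supp _ h1, add_sub_cancel_left]
    linarith
  · have h2 := h.norm_lt h1
    have h3 : ‖v‖ ≤ ‖v + t • y‖ + ‖t • y‖ := by
      have := norm_sub_le (v + t • y) (t • y)
      rwa [add_sub_cancel_right] at this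
    have h4 := norm_sub_le (Ψ (v + t • y)) v
    linarith

theorem good_mono {Ψ : W → W} {K K' : Set W} (h : K ⊆ K') : Good Ψ K' ⊆ Good Ψ K := by
  rintro p ⟨h0, A, c, hA, hb⟩
  exact ⟨h0, A, c, hA, fun y hy => hb y (h hy)⟩

theorem trans_dom {l : ℝ} {Ψ : W → W} {ψ : Emb W l 1} {v : W} {t : ℝ} (ht : 0 < t)
    (h : ∀ z ∈ ball (0 : W) l, ‖Ψ (v + t • ψ.1 z) - v‖ < t) :
    (((v, t), (ContinuousLinearMap.id ℝ W, -v)) : (W × ℝ) × (W →L[ℝ] W) × W) ∈ GDom l Ψ ψ.1 := by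
  refine ⟨ht, isSymp_id, ?_⟩
  intro z hz
  simp only [ContinuousLinearMap.id_apply, ← sub_eq_add_neg]
  exact h z hz

theorem gEmb_far {l r : ℝ} {Ψ : W → W} (h : IsSympC r Ψ) (ψ : Emb W l 1) {v : W} {t : ℝ}
    (ht : 0 < t) (hv : t + r ≤ ‖v‖) :
    ∃ ha : (((v, t), (ContinuousLinearMap.id ℝ W, -v)) : (W × ℝ) × (W →L[ℝ] W) × W) ∈
      GDom l Ψ ψ.1, gEmb h ψ ⟨_, ha⟩ = ψ := by
  have hlt : ∀ z ∈ ball (0 : W) l, ‖ψ.1 z‖ < 1 := fun z hz => mem_ball_zero_iff.1 (ψ.2.1.maps hz)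
  have hf : ∀ z ∈ ball (0 : W) l, Ψ (v + t • ψ.1 z) = v + t • ψ.1 z := fun z hz =>
    far_eq h ht hv (hlt z hz).le
  have ha := trans_dom (l := l) (ψ := ψ) (Ψ := Ψ) (v := v) ht fun z hz => by
    rw [hf z hz, add_sub_cancel_left, norm_smul, Real.norm_of_nonneg ht.le]
    have := hlt z hz
    nlinarith
  refine ⟨ha, ?_⟩
  apply Subtype.ext
  funext z
  by_cases hz : z ∈ ball (0 : W) l
  · rw [gEmb_apply h ψ _ hz]
    simp only [fam, ContinuousLinearMap.id_apply]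
    rw [hf z hz, add_neg_cancel_comm, smul_smul, inv_mul_cancel₀ ht.ne', one_smul]
  · rw [(gEmb h ψ ⟨_, ha⟩).2.2 z hz, ψ.2.2 z hz]

theorem exists_far [Nontrivial W] (m : ℝ) : ∃ w : W, m ≤ ‖w‖ := by
  obtain ⟨x, hx⟩ := exists_ne (0 : W)
  have hx' : 0 < ‖x‖ := norm_pos_iff.2 hx
  refine ⟨(|m| / ‖x‖) • x, ?_⟩
  rw [norm_smul, Real.norm_of_nonneg (by positivity), div_mul_cancel₀ _ hx'.ne']
  exact le_abs_self m

theorem ends [Nontrivial W] {l r : ℝ} {Ψ : W → W} (h : IsSympC r Ψ) (ψ : Emb W l 1) {ρ : ℝ}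
    (hρ0 : 0 ≤ ρ) (hρ : ρ < 1) {K : Set W} (hK : IsCompact K)
    (hψK : ∀ z ∈ ball (0 : W) l, ψ.1 z ∈ K) (hKρ : K ⊆ closedBall 0 ρ) :
    ∃ Q : Set (W × ℝ), IsCompact Q ∧ Q ⊆ {p | 0 < p.2} ∧
      ∀ p : W × ℝ, 0 < p.2 → p ∉ Q → ∀ (a : (W →L[ℝ] W) × W) (ha : (p, a) ∈ GDom l Ψ ψ.1),
        gEmb h ψ ⟨(p, a), ha⟩ ∈ connectedComponent ψ := by
  have : ProperSpace W := FiniteDimensional.proper ℂ W
  obtain ⟨t₀, ht₀, hsmall⟩ := small_end h hρ0 hρ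
  set r' : ℝ := max r 0 with hr'
  have h' : IsSympC r' Ψ := h.mono (le_max_left _ _)
  have hr0 : 0 ≤ r' := le_max_right _ _
  set T : ℝ := 2 * r' / (1 - ρ) + 1 with hT
  have hρ1 : 0 < 1 - ρ := by linarith
  have hT0 : 0 < T := by positivity
  have hlarge : ∀ t, T < t → 0 < t ∧ 2 * r' + ρ * t < t := by
    intro t ht
    refine ⟨hT0.trans ht, ?_⟩
    have h1 : 2 * r' / (1 - ρ) < t := by linarith
    rw [div_lt_iff₀ hρ1] at h1
    linarith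
  refine ⟨closedBall 0 (T + r') ×ˢ Icc (t₀ / 2) T, (isCompact_closedBall _ _).prod isCompact_Icc,
    ?_, ?_⟩
  · rintro ⟨v, t⟩ ⟨-, ht⟩
    exact (half_pos ht₀).trans_le ht.1
  · rintro ⟨v, t⟩ ht hpQ a ha
    simp only at ht
    obtain ⟨w, hw⟩ := exists_far (W := W) (t + r')
    have hw' : t + r ≤ ‖w‖ := by linarith [le_max_left r 0]
    obtain ⟨hb, hbe⟩ := gEmb_far h ψ ht hw'
    rcases lt_or_ge t t₀ with h1 | h1
    · have hC : (univ ×ˢ Ioo 0 t₀ : Set (W × ℝ)) ⊆ Good Ψ K := by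
        rintro ⟨v', t'⟩ ⟨-, h0, h2⟩
        exact good_mono hKρ (hsmall v' t' h0 h2)
      have hpre : IsPreconnected (univ ×ˢ Ioo 0 t₀ : Set (W × ℝ)) :=
        isPreconnected_univ.prod isPreconnected_Ioo
      have h3 := good_const h ψ hK hψK hC hpre (p := (v, t)) (q := (w, t))
        ⟨trivial, ht, h1⟩ ⟨trivial, ht, h1⟩ ha hb
      rwa [hbe] at h3
    rcases lt_or_ge T t with h2 | h2
    · have hC : (univ ×ˢ Ioi T : Set (W × ℝ)) ⊆ Good Ψ K := by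
        rintro ⟨v', t'⟩ ⟨-, h0⟩
        have h0' := hlarge t' h0
        refine ⟨h0'.1, ContinuousLinearMap.id ℝ W, -v', isSymp_id, ?_⟩
        intro y hy
        simp only [ContinuousLinearMap.id_apply, ← sub_eq_add_neg]
        exact large_end h' hr0 h0'.1 h0'.2 (mem_closedBall_zero_iff.1 (hKρ hy))
      have hpre : IsPreconnected (univ ×ˢ Ioi T : Set (W × ℝ)) :=
        isPreconnected_univ.prod isPreconnected_Ioi
      have h3 := good_const h ψ hK hψK hC hpre (p := (v, t)) (q := (w, t))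
        ⟨trivial, h2⟩ ⟨trivial, h2⟩ ha hb
      rwa [hbe] at h3
    · have hv : T + r' < ‖v‖ := by
        by_contra hcon
        rw [not_lt] at hcon
        exact hpQ ⟨mem_closedBall_zero_iff.2 hcon, by linarith, h2⟩
      have hv' : t + r ≤ ‖v‖ := by linarith [le_max_left r 0]
      obtain ⟨hc, hce⟩ := gEmb_far h ψ ht hv'
      have h3 := same_component_g h ψ ha hc
      rwa [hce] at h3

/-- **The theorem on good pairs.** -/
theorem escape {l : ℝ} (hl : 0 < l) (ψ₀ ψ₁ : Emb W l 1)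
    (hK : closure (ψ₀.1 '' ball (0 : W) l) ⊆ ball 0 1)
    (he : ∀ a, 0 < a → a < l → ∃ (r : ℝ) (Ψ : W → W), IsSympC r Ψ ∧
      (∀ z ∈ ball (0 : W) a, ψ₁.1 z = Ψ (ψ₀.1 z)) ∧ (∀ z ∈ ball (0 : W) l, ‖Ψ (ψ₀.1 z)‖ < 1) ∧
      ∃ C ⊆ Good Ψ (closure (ψ₀.1 '' ball (0 : W) l)), IsPreconnected C ∧ ((0 : W), (1 : ℝ)) ∈ C ∧
        ¬ ∃ Q : Set (W × ℝ), IsCompact Q ∧ Q ⊆ {p | 0 < p.2} ∧ C ⊆ Q) :
    ψ₁ ∈ connectedComponent ψ₀ := by
  rcases subsingleton_or_nontrivial W with hW | hW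
  · have : ψ₁ = ψ₀ := Subtype.ext (funext fun z => Subsingleton.elim _ _)
    rw [this]
    exact mem_connectedComponent
  have : ProperSpace W := FiniteDimensional.proper ℂ W
  set K : Set W := closure (ψ₀.1 '' ball (0 : W) l) with hKd
  have hcpt : IsCompact K :=
    (isCompact_closedBall (0 : W) 1).of_isClosed_subset isClosed_closure
      (hK.trans ball_subset_closedBall)
  have hne : K.Nonempty := ⟨ψ₀.1 0, subset_closure ⟨0, mem_ball_self hl, rfl⟩⟩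
  obtain ⟨y₀, hy₀, hmax⟩ := hcpt.exists_isMaxOn hne continuous_norm.continuousOn
  have hρ : ‖y₀‖ < 1 := mem_ball_zero_iff.1 (hK hy₀)
  have hKρ : K ⊆ closedBall 0 ‖y₀‖ := fun y hy => mem_closedBall_zero_iff.2 (hmax hy)
  have hψK : ∀ z ∈ ball (0 : W) l, ψ₀.1 z ∈ K := fun z hz => subset_closure ⟨z, hz, rfl⟩
  refine mem_of_agree isClosed_connectedComponent hl ψ₁ ?_
  intro a ha hal
  obtain ⟨r, Ψ, h, hz, hone, C, hC, hpre, h01, hQ⟩ := he a ha hal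
  obtain ⟨Q, hQc, hQ0, hend⟩ := ends h ψ₀ (norm_nonneg y₀) hρ hcpt hψK hKρ
  obtain ⟨p, hpC, hpQ⟩ : ∃ p ∈ C, p ∉ Q := by
    by_contra hcon
    push Not at hcon
    exact hQ ⟨Q, hQc, hQ0, hcon⟩
  obtain ⟨hp0, A, c, hA, hb⟩ := hC hpC
  have hpa : (p, (A, c)) ∈ GDom l Ψ ψ₀.1 := ⟨hp0, hA, fun z hz => hb _ (hψK z hz)⟩
  have h1a : ((((0 : W), (1 : ℝ)), (ContinuousLinearMap.id ℝ W, (0 : W))) :
      (W × ℝ) × (W →L[ℝ] W) × W) ∈ GDom l Ψ ψ₀.1 := by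
    refine ⟨one_pos, isSymp_id, ?_⟩
    intro z hz
    simpa using hone z hz
  have k1 := hend p hp0 hpQ (A, c) hpa
  have k2 := good_const h ψ₀ hcpt hψK hC hpre h01 hpC h1a hpa
  rw [← connectedComponent_eq k1] at k2
  refine ⟨_, k2, ?_⟩
  intro z hza
  rw [gEmb_apply h ψ₀ _ (ball_subset_ball hal.le hza), hz z hza]
  simp [fam]

/-- The special case of the symplectomorphisms with support in the open unit ball. -/
theorem support_unit {l r : ℝ} (hr : r < 1) {Ψ : W → W} (h : IsSympC r Ψ) (ψ₀ : Emb W l 1)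
    (hK : closure (ψ₀.1 '' ball (0 : W) l) ⊆ ball 0 1) :
    (∀ z ∈ ball (0 : W) l, ‖Ψ (ψ₀.1 z)‖ < 1) ∧
      ∃ C ⊆ Good Ψ (closure (ψ₀.1 '' ball (0 : W) l)), IsPreconnected C ∧ ((0 : W), (1 : ℝ)) ∈ C ∧
        ¬ ∃ Q : Set (W × ℝ), IsCompact Q ∧ Q ⊆ {p | 0 < p.2} ∧ C ⊆ Q := by
  have key : ∀ t : ℝ, 1 ≤ t → ∀ y : W, ‖y‖ < 1 → ‖Ψ (t • y)‖ < t := by
    intro t ht y hy
    have hn : ‖t • y‖ < t := by
      rw [norm_smul, Real.norm_of_nonneg (by linarith)]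
      nlinarith
    rcases le_or_gt r ‖t • y‖ with h1 | h1
    · rwa [h.supp _ h1]
    · linarith [h.norm_lt h1]
  refine ⟨fun z hz => ?_, {(0 : W)} ×ˢ Ici 1, ?_, isPreconnected_singleton.prod isPreconnected_Ici,
    ⟨rfl, le_refl (1 : ℝ)⟩, ?_⟩
  · have := key 1 le_rfl (ψ₀.1 z) (mem_ball_zero_iff.1 (ψ₀.2.1.maps hz))
    rwa [one_smul] at this
  · rintro ⟨v, t⟩ ⟨hv, ht⟩
    rw [mem_singleton_iff] at hv
    simp only at hv
    subst hv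
    have ht' : (1 : ℝ) ≤ t := ht
    refine ⟨by simpa using (by linarith : 0 < t), ContinuousLinearMap.id ℝ W, 0, isSymp_id, ?_⟩
    intro y hy
    have := key t ht' y (mem_ball_zero_iff.1 (hK hy))
    simpa using this
  · rintro ⟨Q, hQ, -, hCQ⟩
    obtain ⟨M, hM⟩ := hQ.isBounded.subset_closedBall (0 : W × ℝ)
    have h1 : ((0 : W), |M| + 1) ∈ ({(0 : W)} ×ˢ Ici 1 : Set (W × ℝ)) := by
      refine ⟨rfl, ?_⟩
      change (1 : ℝ) ≤ |M| + 1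
      linarith [abs_nonneg M]
    have h2 := hM (hCQ h1)
    rw [mem_closedBall_zero_iff] at h2
    have h3 : |(|M| + 1)| ≤ ‖((0 : W), |M| + 1)‖ := norm_snd_le ((0 : W), |M| + 1)
    rw [abs_of_nonneg (by positivity)] at h3
    linarith [le_abs_self M]

/-- `Ψ` has a preconnected set of good pairs that contains `(0, 1)` and is contained in no compact
subset of the half space `W × (0, ∞)`. -/
def Escapes (Ψ : W → W) (K : Set W) : Prop :=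
  ∃ C ⊆ Good Ψ K, IsPreconnected C ∧ ((0 : W), (1 : ℝ)) ∈ C ∧
    ¬ ∃ Q : Set (W × ℝ), IsCompact Q ∧ Q ⊆ {p | 0 < p.2} ∧ C ⊆ Q

/-- The closure of the image of the ball. -/
def im {l : ℝ} (ψ : Emb W l 1) : Set W := closure (ψ.1 '' ball (0 : W) l)

/-- For every `0 < a < l` some compactly supported symplectomorphism `Ψ` with the property `R` (which
may involve the radius `r` of a ball off which `Ψ` is the identity) has `ψ₁ = Ψ ∘ ψ₀` on the ball of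
radius `a`. -/
def Related {l : ℝ} (ψ₀ ψ₁ : Emb W l 1) (R : ℝ → (W → W) → Prop) : Prop :=
  ∀ a, 0 < a → a < l → ∃ (r : ℝ) (Ψ : W → W), IsSympC r Ψ ∧ R r Ψ ∧
    ∀ z ∈ ball (0 : W) a, ψ₁.1 z = Ψ (ψ₀.1 z)

theorem related_escape {l : ℝ} (hl : 0 < l) {ψ₀ ψ₁ : Emb W l 1} (hK : im ψ₀ ⊆ ball 0 1)
    (he : Related ψ₀ ψ₁ fun _ Ψ => (∀ z ∈ ball (0 : W) l, ‖Ψ (ψ₀.1 z)‖ < 1) ∧
      Escapes Ψ (im ψ₀)) : ψ₁ ∈ connectedComponent ψ₀ := by
  refine escape hl ψ₀ ψ₁ hK fun a ha hal => ?_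
  obtain ⟨r, Ψ, h, ⟨h1, h2⟩, h3⟩ := he a ha hal
  exact ⟨r, Ψ, h, h3, h1, h2⟩

theorem related_support {l : ℝ} (hl : 0 < l) {ψ₀ ψ₁ : Emb W l 1} (hK : im ψ₀ ⊆ ball 0 1)
    (he : Related ψ₀ ψ₁ fun r _ => r < 1) : ψ₁ ∈ connectedComponent ψ₀ := by
  refine escape hl ψ₀ ψ₁ hK fun a ha hal => ?_
  obtain ⟨r, Ψ, h, hr, hz⟩ := he a ha hal
  exact ⟨r, Ψ, h, hz, support_unit hr h ψ₀ hK⟩

theorem related_growth {l : ℝ} (hl : 0 < l) (hl1 : l < 1) {ψ : Emb W l 1}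
    (he : Related (incl hl1.le) ψ fun _ Ψ => ∀ z : W, ‖Ψ z‖ < max 1 (‖z‖ / l)) :
    ψ ∈ connectedComponent (incl (W := W) hl1.le) := by
  refine growth hl hl1 ψ fun a ha hal => ?_
  obtain ⟨r, Ψ, h, hg, hz⟩ := he a ha hal
  refine ⟨r, Ψ, h, fun z hza => ?_, hg⟩
  rw [hz z hza]
  congr 1
  exact indicator_of_mem (ball_subset_ball hal.le hza) _

end H88W
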