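import Pool.Agent.Lib.H88W.T4

/-!
# X0: definitions for the local extension lemma
-/

open Set Metric Topology
open scoped ContDiff

set_option linter.unusedSectionVars false

namespace H88W

variable {W : Type*} [NormedAddCommGroup W] [InnerProductSpace ℂ W] [FiniteDimensional ℂ W]

theorem om_add_left (u v w : W) : om (u + v) w = om u w + om v w := by
  unfold om
  rw [inner_add_left, Complex.add_im]

theorem om_add_right (u v w : W) : om u (v + w) = om u v + om u w := by
  unfold om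
  rw [inner_add_right, Complex.add_im]

theorem om_smul_left (t : ℝ) (u v : W) : om (t • u) v = t * om u v := by
  unfold om
  have h1 : t • u = (t : ℂ) • u := rfl
  rw [h1, inner_smul_left, Complex.conj_ofReal, Complex.im_ofReal_mul]

theorem om_smul_right (t : ℝ) (u v : W) : om u (t • v) = t * om u v := by
  unfold om
  have h1 : t • v = (t : ℂ) • v := rfl
  rw [h1, inner_smul_right, Complex.im_ofReal_mul]

theorem om_swap (u v : W) : om u v = - om v u := by
  unfold om
  rw [← inner_conj_symm, Complex.conj_im]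

theorem om_le (u v : W) : |om u v| ≤ ‖u‖ * ‖v‖ := by
  unfold om
  exact (Complex.abs_im_le_norm _).trans (norm_inner_le_norm u v)

/-- The form `om` as a continuous bilinear map. -/
noncomputable def omL : W →L[ℝ] W →L[ℝ] ℝ :=
  LinearMap.mkContinuous₂ (LinearMap.mk₂ ℝ (fun u v : W => om u v) om_add_left om_smul_left
    om_add_right om_smul_right) 1 (fun u v => by
      rw [LinearMap.mk₂_apply, Real.norm_eq_abs, one_mul]
      exact om_le u v)

@[simp] theorem omL_apply (u v : W) : omL u v = om u v := rfl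

/-- The symplectic dual of a real linear form. -/
theorem exists_sg : ∃ sg : (W →L[ℝ] ℝ) →L[ℝ] W, (∀ f u, om (sg f) u = f u) ∧ ∀ f, ‖sg f‖ ≤ ‖f‖ := by
  have : FiniteDimensional ℝ W := FiniteDimensional.complexToReal W
  have hinj : Function.Injective (omL (W := W) : W →ₗ[ℝ] (W →L[ℝ] ℝ)) := by
    rw [injective_iff_map_eq_zero]
    intro x hx
    have h1 : om x (Complex.I • x) = 0 := by
      have h2 : (omL x : W →L[ℝ] ℝ) = 0 := hx
      rw [← omL_apply, h2]
      rfl
    rw [om_I] at h1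
    exact norm_eq_zero.1 ((pow_eq_zero_iff two_ne_zero).1 h1)
  have hdim : Module.finrank ℝ W = Module.finrank ℝ (W →L[ℝ] ℝ) := by
    rw [← LinearEquiv.finrank_eq (LinearMap.toContinuousLinearMap (𝕜 := ℝ) (E := W) (F' := ℝ))]
    exact (Subspace.dual_finrank_eq (K := ℝ) (V := W)).symm
  let e : W ≃ₗ[ℝ] (W →L[ℝ] ℝ) := LinearEquiv.ofInjectiveOfFinrankEq
    (omL (W := W) : W →ₗ[ℝ] (W →L[ℝ] ℝ)) hinj hdim
  have he : ∀ x, e x = omL x := fun x => rfl
  have key : ∀ (f : W →L[ℝ] ℝ) (u : W), om (e.symm f) u = f u := by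
    intro f u
    rw [← omL_apply, ← he, e.apply_symm_apply]
  refine ⟨LinearMap.toContinuousLinearMap (e.symm : (W →L[ℝ] ℝ) →ₗ[ℝ] W), key, ?_⟩
  intro f
  change ‖e.symm f‖ ≤ ‖f‖
  rcases eq_or_ne (e.symm f) 0 with h0 | h0
  · rw [h0, norm_zero]
    exact norm_nonneg _
  · have h1 : ‖e.symm f‖ ^ 2 ≤ ‖f‖ * ‖e.symm f‖ := by
      rw [← om_I, key]
      refine (le_abs_self _).trans ((f.le_opNorm _).trans ?_)
      rw [norm_smul, Complex.norm_I, one_mul]
    have h2 : 0 < ‖e.symm f‖ := norm_pos_iff.2 h0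
    nlinarith

/-- `g` is smooth with symplectic derivatives on `U` and `ε`-close to the identity in `C¹`. -/
structure Near (U : Set W) (ε : ℝ) (g : W → W) : Prop where
  smooth : ContDiffOn ℝ (⊤ : ℕ∞) g U
  symp : ∀ x ∈ U, IsSymp (fderiv ℝ g x)
  close : ∀ x ∈ U, ‖g x - x‖ ≤ ε
  dclose : ∀ x ∈ U, ‖fderiv ℝ g x - ContinuousLinearMap.id ℝ W‖ ≤ ε

/-- The midpoint of `x` and `g x`. -/
noncomputable def mid (g : W → W) (x : W) : W := x + (1 / 2 : ℝ) • (g x - x)

/-- `F` is a generating function of `g` on `U`: `DF(x) u = om (g x - x) (D(mid g)(x) u)`, and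
`|F| ≤ ε` on `U`. -/
structure Gen (U : Set W) (ε : ℝ) (g : W → W) (F : W → ℝ) : Prop where
  deriv : ∀ x ∈ U, HasFDerivAt F
    ((omL (g x - x)).comp ((1 / 2 : ℝ) • (ContinuousLinearMap.id ℝ W + fderiv ℝ g x))) x
  small : ∀ x ∈ U, |F x| ≤ ε

theorem isSympC_id (r : ℝ) : IsSympC r (fun z : W => z) where
  smooth := contDiff_id
  inj := Function.injective_id
  symp := fun z => by
    have h : fderiv ℝ (fun z : W => z) z = ContinuousLinearMap.id ℝ W := fderiv_id
    rw [h]
    exact isSymp_id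
  supp := fun _ _ => rfl

theorem IsSympC.comp {r r' : ℝ} {h Ψ : W → W} (hh : IsSympC r h) (hΨ : IsSympC r' Ψ) :
    IsSympC (max r r') (fun z => h (Ψ z)) where
  smooth := hh.smooth.comp hΨ.smooth
  inj := hh.inj.comp hΨ.inj
  symp := fun z => by
    have h1 : HasFDerivAt Ψ (fderiv ℝ Ψ z) z :=
      (hΨ.smooth.differentiable (by simp)).differentiableAt.hasFDerivAt
    have h2 : HasFDerivAt h (fderiv ℝ h (Ψ z)) (Ψ z) :=
      (hh.smooth.differentiable (by simp)).differentiableAt.hasFDerivAt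
    have h3 : fderiv ℝ (fun z => h (Ψ z)) z = (fderiv ℝ h (Ψ z)).comp (fderiv ℝ Ψ z) :=
      (HasFDerivAt.comp z h2 h1).fderiv
    rw [h3]
    exact isSymp_comp (hh.symp _) (hΨ.symp _)
  supp := fun z hz => by
    rw [hΨ.supp z ((le_max_right _ _).trans hz), hh.supp z ((le_max_left _ _).trans hz)]

end H88W
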