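import Pool.Agent.Lib.H88W.X0

/-!
# X1: small perturbations of the identity are diffeomorphisms

Proof. `x ↦ x + ζ x` approximates the identity linearly on `univ` with constant `1/2`
(`ζ` is `1/2`-Lipschitz by the mean value inequality on the convex set `univ`), so it is a homeomorphism
(`ApproximatesLinearOn.toHomeomorph`, with `f' = ContinuousLinearEquiv.refl`); the inverse is smooth at
each point by the inverse function theorem: the derivative `1 + Dζ` is invertible
(`Units.oneSub`, or `ContDiffAt.to_localInverse` / `Homeomorph.contDiff_symm` /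
`OpenPartialHomeomorph.contDiffAt_symm`).
-/

open Set Metric Topology
open scoped ContDiff

set_option linter.unusedSectionVars false

namespace H88W

variable {W : Type*} [NormedAddCommGroup W] [InnerProductSpace ℂ W] [FiniteDimensional ℂ W]

theorem perturb {ζ : W → W} (hs : ContDiff ℝ (⊤ : ℕ∞) ζ) (hb : ∀ x, ‖fderiv ℝ ζ x‖ ≤ 1 / 2) :
    ∃ R : W → W, ContDiff ℝ (⊤ : ℕ∞) R ∧ (∀ x, R (x + ζ x) = x) ∧ ∀ y, R y + ζ (R y) = y := by
  haveI : CompleteSpace W := FiniteDimensional.complete ℂ W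
  have hd : Differentiable ℝ ζ := hs.differentiable (by simp)
  -- `ζ` is `1/2`-Lipschitz
  have hL : LipschitzWith (1 / 2) ζ := by
    refine lipschitzWith_of_nnnorm_fderiv_le (𝕜 := ℝ) hd fun x => ?_
    rw [← NNReal.coe_le_coe, coe_nnnorm]
    exact (hb x).trans (le_of_eq (by simp))
  have hA : ApproximatesLinearOn (fun x => x + ζ x)
      ((ContinuousLinearEquiv.refl ℝ W : W ≃L[ℝ] W) : W →L[ℝ] W) univ (1 / 2) := by
    intro x _ y _
    have h1 : x + ζ x - (y + ζ y) - ((ContinuousLinearEquiv.refl ℝ W : W ≃L[ℝ] W) : W →L[ℝ] W) (x - y) = ζ x - ζ y := by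
      show x + ζ x - (y + ζ y) - (x - y) = ζ x - ζ y
      abel
    show ‖x + ζ x - (y + ζ y) - ((ContinuousLinearEquiv.refl ℝ W : W ≃L[ℝ] W) : W →L[ℝ] W) (x - y)‖ ≤ _
    rw [h1]
    exact hL.norm_sub_le x y
  have hc : Subsingleton W ∨ (1 / 2 : NNReal) <
      ‖((ContinuousLinearEquiv.refl ℝ W : W ≃L[ℝ] W).symm : W →L[ℝ] W)‖₊⁻¹ := by
    rcases subsingleton_or_nontrivial W with h | h
    · exact Or.inl h
    · right
      have h1 : ‖((ContinuousLinearEquiv.refl ℝ W : W ≃L[ℝ] W).symm : W →L[ℝ] W)‖₊ = 1 := by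
        rw [← NNReal.coe_inj, coe_nnnorm, NNReal.coe_one]
        exact ContinuousLinearMap.norm_id
      rw [h1, inv_one, ← NNReal.coe_lt_coe]
      simp only [one_div, NNReal.coe_inv, NNReal.coe_ofNat, NNReal.coe_one]
      norm_num
  set h : W ≃ₜ W := ApproximatesLinearOn.toHomeomorph (fun x => x + ζ x) hA hc with hh
  have hval : ∀ x, h x = x + ζ x := fun x => rfl
  -- the derivative is invertible
  have ht : ∀ a, ‖-(fderiv ℝ ζ a)‖ < 1 := by
    intro a
    rw [norm_neg]
    exact lt_of_le_of_lt (hb a) (by norm_num)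
  have hder : ∀ a, HasFDerivAt h
      ((ContinuousLinearEquiv.ofUnit (Units.oneSub (-(fderiv ℝ ζ a)) (ht a)) : W ≃L[ℝ] W) : W →L[ℝ] W) a := by
    intro a
    have h1 : ((ContinuousLinearEquiv.ofUnit (Units.oneSub (-(fderiv ℝ ζ a)) (ht a)) : W ≃L[ℝ] W) : W →L[ℝ] W) =
        ContinuousLinearMap.id ℝ W + fderiv ℝ ζ a := by
      ext v
      show ((1 : W →L[ℝ] W) - (-(fderiv ℝ ζ a))) v = _
      rw [sub_neg_eq_add]
      rfl
    rw [h1]
    exact (hasFDerivAt_id a).add (hd a).hasFDerivAt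
  refine ⟨h.symm, ?_, fun x => ?_, fun y => ?_⟩
  · exact h.contDiff_symm hder (contDiff_id.add hs)
  · rw [← hval]
    exact h.symm_apply_apply x
  · rw [← hval]
    exact h.apply_symm_apply y

end H88W
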