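import Pool.Agent.Lib.H88W.X0

/-!
# X8: a primitive

Proof. Mathlib: `Convex.exists_forall_hasFDerivAt_of_fderiv_symmetric` (file
Mathlib/MeasureTheory/Integral/CurveIntegral/Poincare.lean) on the open convex `ball 0 l` for the 1-form
`β z = (omL (φ z - ψ z)) ∘ (1/2) (Dψ(z) + Dφ(z))`; subtract `f 0`. Symmetry of `Dβ`:
`Dβ(z) v u = om ((Dφ - Dψ) v) ((Dφ + Dψ) u / 2) + om (φ z - ψ z) ((D²φ + D²ψ)(v, u) / 2)`; the second term is symmetric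
(second derivatives), the first is, as `om (Dφ v) (Dφ u) = om (Dψ v) (Dψ u) = om v u`,
`(om (Dφ v) (Dψ u) - om (Dψ v) (Dφ u)) / 2 = (om (Dφ v) (Dψ u) + om (Dφ u) (Dψ v)) / 2`, symmetric in `u, v`.
-/

open Set Metric Topology
open scoped ContDiff

set_option linter.unusedSectionVars false

namespace H88W

variable {W : Type*} [NormedAddCommGroup W] [InnerProductSpace ℂ W] [FiniteDimensional ℂ W]

private theorem x8_at {l : ℝ} (ψ : Emb W l 1) {z : W} (hz : z ∈ ball (0 : W) l) :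
    HasFDerivAt ψ.1 (fderiv ℝ ψ.1 z) z ∧
      HasFDerivAt (fderiv ℝ ψ.1) (fderiv ℝ (fderiv ℝ ψ.1) z) z ∧
      ∀ u v, fderiv ℝ (fderiv ℝ ψ.1) z u v = fderiv ℝ (fderiv ℝ ψ.1) z v u := by
  have h1 : ContDiffAt ℝ (⊤ : ℕ∞) ψ.1 z := ψ.2.1.smooth.contDiffAt (isOpen_ball.mem_nhds hz)
  refine ⟨(h1.differentiableAt (by simp)).hasFDerivAt, ?_, ?_⟩
  · have h2 : ContDiffAt ℝ 1 (fderiv ℝ ψ.1) z := h1.fderiv_right (m := 1)
      (WithTop.coe_le_coe.2 (le_top : ((2 : ℕ∞)) ≤ ⊤))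
    exact (h2.differentiableAt (by simp)).hasFDerivAt
  · intro u v
    have h3 : IsSymmSndFDerivAt ℝ ψ.1 z := h1.isSymmSndFDerivAt (by
      rw [minSmoothness_of_isRCLikeNormedField]
      exact WithTop.coe_le_coe.2 le_top)
    exact h3.eq u v

theorem primitive {l : ℝ} (hl : 0 < l) (ψ φ : Emb W l 1) :
    ∃ f : W → ℝ, f 0 = 0 ∧ ∀ z ∈ ball (0 : W) l, HasFDerivAt f
      ((omL (φ.1 z - ψ.1 z)).comp ((1 / 2 : ℝ) • (fderiv ℝ ψ.1 z + fderiv ℝ φ.1 z))) z := by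
  have key : ∀ z ∈ ball (0 : W) l, ∃ B : W →L[ℝ] (W →L[ℝ] ℝ), HasFDerivAt
      (fun z => (omL (φ.1 z - ψ.1 z)).comp ((1 / 2 : ℝ) • (fderiv ℝ ψ.1 z + fderiv ℝ φ.1 z))) B z ∧
      ∀ v u, B v u = B u v := by
    intro z hz
    obtain ⟨a1, a2, a3⟩ := x8_at ψ hz
    obtain ⟨b1, b2, b3⟩ := x8_at φ hz
    have hc : HasFDerivAt (fun z => omL (φ.1 z - ψ.1 z)) (omL.comp (fderiv ℝ φ.1 z - fderiv ℝ ψ.1 z)) z :=
      (omL (W := W)).hasFDerivAt.comp z (b1.sub a1)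
    have hd : HasFDerivAt (fun z => (1 / 2 : ℝ) • (fderiv ℝ ψ.1 z + fderiv ℝ φ.1 z))
        ((1 / 2 : ℝ) • (fderiv ℝ (fderiv ℝ ψ.1) z + fderiv ℝ (fderiv ℝ φ.1) z)) z :=
      (a2.add b2).const_smul (1 / 2 : ℝ)
    refine ⟨_, hc.clm_comp hd, ?_⟩
    have hval : ∀ v u : W,
        (((ContinuousLinearMap.compL ℝ W W ℝ) (omL (φ.1 z - ψ.1 z))).comp
            ((1 / 2 : ℝ) • (fderiv ℝ (fderiv ℝ ψ.1) z + fderiv ℝ (fderiv ℝ φ.1) z)) +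
          ((ContinuousLinearMap.compL ℝ W W ℝ).flip ((1 / 2 : ℝ) • (fderiv ℝ ψ.1 z + fderiv ℝ φ.1 z))).comp
            (omL.comp (fderiv ℝ φ.1 z - fderiv ℝ ψ.1 z))) v u =
        om (φ.1 z - ψ.1 z) ((1 / 2 : ℝ) • (fderiv ℝ (fderiv ℝ ψ.1) z v u + fderiv ℝ (fderiv ℝ φ.1) z v u)) +
          om (fderiv ℝ φ.1 z v - fderiv ℝ ψ.1 z v) ((1 / 2 : ℝ) • (fderiv ℝ ψ.1 z u + fderiv ℝ φ.1 z u)) := by
      intro v u
      rfl
    have hsymp : ∀ χ : Emb W l 1, ∀ v u, om (fderiv ℝ χ.1 z v) (fderiv ℝ χ.1 z u) = om v u := fun χ v u =>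
      χ.2.1.symp z hz v u
    have hexp : ∀ v u : W,
        om (fderiv ℝ φ.1 z v - fderiv ℝ ψ.1 z v) ((1 / 2 : ℝ) • (fderiv ℝ ψ.1 z u + fderiv ℝ φ.1 z u)) =
          1 / 2 * (om (fderiv ℝ φ.1 z v) (fderiv ℝ ψ.1 z u) - om (fderiv ℝ ψ.1 z v) (fderiv ℝ φ.1 z u)) := by
      intro v u
      have hneg : ∀ p q : W, om (-p) q = - om p q := by
        intro p q
        have h1 := om_smul_left (-1 : ℝ) p q
        rwa [neg_one_smul, neg_one_mul] at h1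
      rw [om_smul_right, om_add_right, sub_eq_add_neg, om_add_left, om_add_left, hneg, hneg, hsymp, hsymp]
      ring
    intro v u
    rw [hval, hval, hexp, hexp, a3 v u, b3 v u, om_swap (fderiv ℝ φ.1 z u) (fderiv ℝ ψ.1 z v),
      om_swap (fderiv ℝ ψ.1 z u) (fderiv ℝ φ.1 z v)]
    ring
  obtain ⟨β, hβ⟩ : ∃ β : W → (W →L[ℝ] ℝ), β = fun z =>
      (omL (φ.1 z - ψ.1 z)).comp ((1 / 2 : ℝ) • (fderiv ℝ ψ.1 z + fderiv ℝ φ.1 z)) := ⟨_, rfl⟩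
  rw [← hβ] at key
  obtain ⟨f, hf⟩ : ∃ f : W → ℝ, ∀ a ∈ ball (0 : W) l, HasFDerivAt f (β a) a :=
    (convex_ball (0 : W) l).exists_forall_hasFDerivAt_of_fderiv_symmetric isOpen_ball
      (fun z hz => by
        obtain ⟨B, hB, _⟩ := key z hz
        exact hB.differentiableAt.differentiableWithinAt)
      (fun z hz v u => by
        obtain ⟨B, hB, hs⟩ := key z hz
        rw [hB.fderiv]
        exact hs v u)
  rw [hβ] at hf
  refine ⟨fun z => f z - f 0, sub_self _, fun z hz => ?_⟩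
  exact (hf z hz).sub_const _

end H88W
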