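import Pool.Agent.Lib.H88W.X7
import Pool.Agent.Lib.H88W.X8

/-!
# X9: the generating function

Proof. `f` from `primitive`, `G = invFunOn ψ (ball 0 a)`, `F = f ∘ G`, `g = φ ∘ G`. At `x = ψ z`:
`DF(x) u = Df(z) (DG(x) u) = om (φ z - ψ z) ((Dψ(z) w + Dφ(z) w) / 2)`, `w = DG(x) u`, `Dψ(z) w = u` (`G_smooth`; both
`DG(x) Dψ(z) = 1` and, in finite dimension, `Dψ(z) DG(x) = 1`), `Dφ(z) w = D g(x) u` by the chain rule. Bound:
`‖Df(z)‖ ≤ ‖φ z - ψ z‖ ‖Dψ(z) + Dφ(z)‖ / 2 ≤ δ (M + δ)` on the ball of radius `a`, with `M` a bound of `‖Dψ‖` on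
`closedBall 0 a` and `δ` from `jets_close`, so `|f z| ≤ a δ (M + δ)` by the mean value inequality (`f 0 = 0`).
-/

open Set Metric Topology
open scoped ContDiff

set_option linter.unusedSectionVars false

namespace H88W

variable {W : Type*} [NormedAddCommGroup W] [InnerProductSpace ℂ W] [FiniteDimensional ℂ W]

private theorem x9_diff {l : ℝ} (φ : Emb W l 1) {z : W} (hz : z ∈ ball (0 : W) l) :
    HasFDerivAt φ.1 (fderiv ℝ φ.1 z) z :=
  ((φ.2.1.smooth.differentiableOn (by simp)).differentiableAt (isOpen_ball.mem_nhds hz)).hasFDerivAt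

private theorem x9_bound {l a : ℝ} (hal : a < l) (ψ : Emb W l 1) :
    ∃ M : ℝ, 0 ≤ M ∧ ∀ z ∈ closedBall (0 : W) a, ‖fderiv ℝ ψ.1 z‖ ≤ M := by
  have : FiniteDimensional ℝ W := FiniteDimensional.complexToReal W
  have : ProperSpace W := FiniteDimensional.proper ℝ W
  have hc : ContinuousOn (fderiv ℝ ψ.1) (ball (0 : W) l) :=
    ψ.2.1.smooth.continuousOn_fderiv_of_isOpen isOpen_ball (by simp)
  have hsub : closedBall (0 : W) a ⊆ ball (0 : W) l := closedBall_subset_ball hal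
  obtain ⟨M, hM⟩ := (isCompact_closedBall (0 : W) a).exists_bound_of_continuousOn (hc.mono hsub)
  exact ⟨max M 0, le_max_right _ _, fun z hz => (hM z hz).trans (le_max_left _ _)⟩

theorem gen_of_emb {l a : ℝ} (ha : 0 < a) (hal : a < l) (ψ : Emb W l 1) {ε : ℝ} (hε : 0 < ε) :
    ∀ᶠ φ : Emb W l 1 in 𝓝 ψ, ∃ F : W → ℝ, Gen (ψ.1 '' ball (0 : W) a) ε
      (fun x => φ.1 (Function.invFunOn ψ.1 (ball (0 : W) a) x)) F := by
  have hfin : FiniteDimensional ℝ W := FiniteDimensional.complexToReal W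
  have hl : 0 < l := ha.trans hal
  obtain ⟨M, hM0, hM⟩ := x9_bound hal ψ
  have hd0 : 0 < a * (M + 1) + 1 := by positivity
  obtain ⟨δ, hδ, hδ1, hδε⟩ : ∃ δ : ℝ, 0 < δ ∧ δ ≤ 1 ∧ δ * (M + δ) * a ≤ ε := by
    refine ⟨min 1 (ε / (a * (M + 1) + 1)), lt_min one_pos (div_pos hε hd0), min_le_left _ _, ?_⟩
    set δ := min 1 (ε / (a * (M + 1) + 1)) with hδdef
    have h0 : 0 < δ := lt_min one_pos (div_pos hε hd0)
    have h1 : δ ≤ 1 := min_le_left _ _
    have h2 : δ ≤ ε / (a * (M + 1) + 1) := min_le_right _ _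
    have h3 : δ * (a * (M + 1) + 1) ≤ ε := (le_div_iff₀ hd0).1 h2
    have h4 : δ * (M + δ) * a ≤ δ * (M + 1) * a := by gcongr
    nlinarith
  have hG := G_smooth ha hal.le ψ
  have hop := image_open (a := a) hal.le ψ
  filter_upwards [jets_close hal ψ hδ] with φ hφ
  obtain ⟨f, hf0, hf⟩ := primitive hl ψ φ
  have hab : ∀ z ∈ ball (0 : W) a, z ∈ ball (0 : W) l := fun z hz => ball_subset_ball hal.le hz
  refine ⟨fun x => f (Function.invFunOn ψ.1 (ball (0 : W) a) x), ?_, ?_⟩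
  · rintro x ⟨z, hz, rfl⟩
    have hGz : Function.invFunOn ψ.1 (ball (0 : W) a) (ψ.1 z) = z := hG.2.1 z hz
    have hxm : ψ.1 z ∈ ψ.1 '' ball (0 : W) a := ⟨z, hz, rfl⟩
    have hGd : HasFDerivAt (Function.invFunOn ψ.1 (ball (0 : W) a))
        (fderiv ℝ (Function.invFunOn ψ.1 (ball (0 : W) a)) (ψ.1 z)) (ψ.1 z) :=
      ((hG.1.differentiableOn (by simp)).differentiableAt (hop.mem_nhds hxm)).hasFDerivAt
    set DG := fderiv ℝ (Function.invFunOn ψ.1 (ball (0 : W) a)) (ψ.1 z) with hDG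
    have h1 : ∀ u, DG (fderiv ℝ ψ.1 z u) = u := fun u => hG.2.2 z hz u
    have hsurj : Function.Surjective (DG : W →ₗ[ℝ] W) := fun u => ⟨_, h1 u⟩
    have hinj : Function.Injective (DG : W →ₗ[ℝ] W) := LinearMap.injective_iff_surjective.2 hsurj
    have h2 : ∀ u, fderiv ℝ ψ.1 z (DG u) = u := fun u => hinj (h1 (DG u))
    have hfz := hf z (hab z hz)
    have hφz := x9_diff φ (hab z hz)
    have hg : HasFDerivAt (fun x => φ.1 (Function.invFunOn ψ.1 (ball (0 : W) a) x))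
        ((fderiv ℝ φ.1 z).comp DG) (ψ.1 z) := by
      have h3 : HasFDerivAt φ.1 (fderiv ℝ φ.1 z) (Function.invFunOn ψ.1 (ball (0 : W) a) (ψ.1 z)) := by
        rw [hGz]
        exact hφz
      exact h3.comp (ψ.1 z) hGd
    have hF : HasFDerivAt (fun x => f (Function.invFunOn ψ.1 (ball (0 : W) a) x))
        (((omL (φ.1 z - ψ.1 z)).comp ((1 / 2 : ℝ) • (fderiv ℝ ψ.1 z + fderiv ℝ φ.1 z))).comp DG) (ψ.1 z) := by
      have h3 : HasFDerivAt f
          ((omL (φ.1 z - ψ.1 z)).comp ((1 / 2 : ℝ) • (fderiv ℝ ψ.1 z + fderiv ℝ φ.1 z)))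
          (Function.invFunOn ψ.1 (ball (0 : W) a) (ψ.1 z)) := by
        rw [hGz]
        exact hfz
      exact h3.comp (ψ.1 z) hGd
    have heq : ((omL ((fun x => φ.1 (Function.invFunOn ψ.1 (ball (0 : W) a) x)) (ψ.1 z) - ψ.1 z)).comp
        ((1 / 2 : ℝ) • (ContinuousLinearMap.id ℝ W +
          fderiv ℝ (fun x => φ.1 (Function.invFunOn ψ.1 (ball (0 : W) a) x)) (ψ.1 z)))) =
        ((omL (φ.1 z - ψ.1 z)).comp ((1 / 2 : ℝ) • (fderiv ℝ ψ.1 z + fderiv ℝ φ.1 z))).comp DG := by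
      rw [hg.fderiv]
      ext u
      simp only [ContinuousLinearMap.comp_apply, ContinuousLinearMap.smul_apply, ContinuousLinearMap.add_apply,
        ContinuousLinearMap.id_apply, hGz, h2 u]
    rw [heq]
    exact hF
  · rintro x ⟨z, hz, rfl⟩
    have hGz : Function.invFunOn ψ.1 (ball (0 : W) a) (ψ.1 z) = z := hG.2.1 z hz
    show |f (Function.invFunOn ψ.1 (ball (0 : W) a) (ψ.1 z))| ≤ ε
    rw [hGz]
    have hC : ∀ y ∈ ball (0 : W) a,
        ‖(omL (φ.1 y - ψ.1 y)).comp ((1 / 2 : ℝ) • (fderiv ℝ ψ.1 y + fderiv ℝ φ.1 y))‖ ≤ δ * (M + δ) := by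
      intro y hy
      have hyc : y ∈ closedBall (0 : W) a := ball_subset_closedBall hy
      obtain ⟨h3, h4⟩ := hφ y hyc
      refine ContinuousLinearMap.opNorm_le_bound _ (by positivity) fun u => ?_
      have h5 : ((omL (φ.1 y - ψ.1 y)).comp ((1 / 2 : ℝ) • (fderiv ℝ ψ.1 y + fderiv ℝ φ.1 y))) u =
          om (φ.1 y - ψ.1 y) ((1 / 2 : ℝ) • (fderiv ℝ ψ.1 y u + fderiv ℝ φ.1 y u)) := rfl
      rw [h5, Real.norm_eq_abs]
      have h6 : fderiv ℝ ψ.1 y u + fderiv ℝ φ.1 y u =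
          (2 : ℝ) • fderiv ℝ ψ.1 y u + (fderiv ℝ φ.1 y - fderiv ℝ ψ.1 y) u := by
        rw [ContinuousLinearMap.sub_apply, two_smul]
        abel
      have h7 : ‖(1 / 2 : ℝ) • (fderiv ℝ ψ.1 y u + fderiv ℝ φ.1 y u)‖ ≤ (M + δ) * ‖u‖ := by
        rw [h6, norm_smul, Real.norm_of_nonneg (by norm_num : (0 : ℝ) ≤ 1 / 2)]
        have h8 : ‖(2 : ℝ) • fderiv ℝ ψ.1 y u + (fderiv ℝ φ.1 y - fderiv ℝ ψ.1 y) u‖ ≤
            2 * (M * ‖u‖) + δ * ‖u‖ := by
          refine (norm_add_le _ _).trans (add_le_add ?_ ?_)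
          · rw [norm_smul, Real.norm_of_nonneg (by norm_num : (0 : ℝ) ≤ 2)]
            have h9 : ‖fderiv ℝ ψ.1 y u‖ ≤ M * ‖u‖ :=
              (ContinuousLinearMap.le_opNorm _ _).trans
                (mul_le_mul_of_nonneg_right (hM y hyc) (norm_nonneg _))
            linarith
          · exact (ContinuousLinearMap.le_opNorm _ _).trans
              (mul_le_mul_of_nonneg_right h4 (norm_nonneg _))
        have h10 : 0 ≤ δ * ‖u‖ := mul_nonneg hδ.le (norm_nonneg _)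
        nlinarith
      refine (om_le _ _).trans ?_
      calc ‖φ.1 y - ψ.1 y‖ * ‖(1 / 2 : ℝ) • (fderiv ℝ ψ.1 y u + fderiv ℝ φ.1 y u)‖
          ≤ δ * ((M + δ) * ‖u‖) := mul_le_mul h3 h7 (norm_nonneg _) hδ.le
        _ = δ * (M + δ) * ‖u‖ := by ring
    have h0 : (0 : W) ∈ ball (0 : W) a := mem_ball_self ha
    have hmv := (convex_ball (0 : W) a).norm_image_sub_le_of_norm_hasFDerivWithin_le
      (f := f) (f' := fun y => (omL (φ.1 y - ψ.1 y)).comp ((1 / 2 : ℝ) • (fderiv ℝ ψ.1 y + fderiv ℝ φ.1 y)))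
      (C := δ * (M + δ)) (fun y hy => (hf y (hab y hy)).hasFDerivWithinAt) hC h0 hz
    rw [hf0, sub_zero, sub_zero, Real.norm_eq_abs] at hmv
    have hza : ‖z‖ ≤ a := (mem_ball_zero_iff.1 hz).le
    calc |f z| ≤ δ * (M + δ) * ‖z‖ := hmv
      _ ≤ δ * (M + δ) * a := mul_le_mul_of_nonneg_left hza (by positivity)
      _ ≤ ε := hδε

end H88W
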