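import Pool.Agent.Lib.H88W.X6
import Pool.Agent.Lib.H88W.X9
import Pool.Agent.Lib.H88W.S3

/-!
# X10: local extension, and the components are the orbits
-/

open Set Metric Topology
open scoped ContDiff

set_option linter.unusedSectionVars false

namespace H88W

variable {W : Type*} [NormedAddCommGroup W] [InnerProductSpace ℂ W] [FiniteDimensional ℂ W]

/-- Embeddings near `ψ` are, on a smaller ball, compositions of `ψ` with symplectomorphisms of the
space supported in the open unit ball. -/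
theorem local_ext {l a : ℝ} (ha : 0 < a) (hal : a < l) (ψ : Emb W l 1) :
    ∀ᶠ φ : Emb W l 1 in 𝓝 ψ, ∃ (r : ℝ) (h h' : W → W), r < 1 ∧ IsSympC r h ∧ IsSympC r h' ∧
      (∀ x, h' (h x) = x) ∧ ∀ z ∈ ball (0 : W) a, φ.1 z = h (ψ.1 z) := by
  obtain ⟨b, hab, hbl⟩ := exists_between hal
  have hb : 0 < b := ha.trans hab
  have : ProperSpace W := FiniteDimensional.proper ℂ W
  have hU := image_open hbl.le ψ
  have hU1 : ψ.1 '' ball (0 : W) b ⊆ ball 0 1 := by
    rintro _ ⟨z, hz, rfl⟩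
    exact ψ.2.1.maps (ball_subset_ball hbl.le hz)
  have hK : IsCompact (ψ.1 '' closedBall (0 : W) a) :=
    (isCompact_closedBall _ _).image_of_continuousOn
      (ψ.2.1.smooth.continuousOn.mono (closedBall_subset_ball hal))
  have hKU : ψ.1 '' closedBall (0 : W) a ⊆ ψ.1 '' ball (0 : W) b :=
    image_mono (closedBall_subset_ball hab)
  obtain ⟨ε, hε, hext⟩ := extend_near hU hU1 hK hKU
  filter_upwards [near_of_emb hb hbl ψ hε, gen_of_emb hb hbl ψ hε] with φ h1 h2
  obtain ⟨F, hF⟩ := h2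
  obtain ⟨r, h, h', hr, hh, hh', hinv, heq⟩ := hext _ F h1 hF
  refine ⟨r, h, h', hr, hh, hh', hinv, ?_⟩
  intro z hz
  rw [heq (ψ.1 z) ⟨z, ball_subset_closedBall hz, rfl⟩]
  rw [(G_smooth hb hbl.le ψ).2.1 z (ball_subset_ball hab.le hz)]

theorem related_of_mem {l : ℝ} (ψ₀ ψ₁ : Emb W l 1) (h : ψ₁ ∈ connectedComponent ψ₀) :
    Related ψ₀ ψ₁ fun r _ => r < 1 := by
  intro a ha hal
  let S : Set (Emb W l 1) := {φ | ∃ (r : ℝ) (Ψ : W → W), IsSympC r Ψ ∧ r < 1 ∧
    ∀ z ∈ ball (0 : W) a, φ.1 z = Ψ (ψ₀.1 z)}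
  have hopen : IsOpen S := by
    rw [isOpen_iff_mem_nhds]
    rintro ψ ⟨r, Ψ, hΨ, hr, hz⟩
    filter_upwards [local_ext ha hal ψ] with φ hφ
    obtain ⟨r', k, k', hr', hk, hk', hinv, heq⟩ := hφ
    refine ⟨max r' r, _, hk.comp hΨ, max_lt hr' hr, ?_⟩
    intro z hza
    rw [heq z hza, hz z hza]
  have hclosed : IsClosed S := by
    rw [isClosed_iff_frequently]
    intro ψ hψ
    obtain ⟨φ, ⟨r, Ψ, hΨ, hr, hz⟩, r', k, k', hr', hk, hk', hinv, heq⟩ :=
      (hψ.and_eventually (local_ext ha hal ψ)).exists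
    refine ⟨max r' r, _, hk'.comp hΨ, max_lt hr' hr, ?_⟩
    intro z hza
    change ψ.1 z = k' (Ψ (ψ₀.1 z))
    rw [← hz z hza, heq z hza, hinv]
  have h0 : ψ₀ ∈ S := ⟨0, _, isSympC_id 0, one_pos, fun z _ => rfl⟩
  have h1 : connectedComponent ψ₀ ⊆ S :=
    IsClopen.connectedComponent_subset ⟨hclosed, hopen⟩ h0
  exact h1 h

/-- **Components are local orbits.** -/
theorem mem_component_iff {l : ℝ} (hl : 0 < l) (ψ₀ ψ₁ : Emb W l 1) :
    ψ₁ ∈ connectedComponent ψ₀ ↔ Related ψ₀ ψ₁ fun r _ => r < 1 := by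
  refine ⟨related_of_mem ψ₀ ψ₁, fun h => ?_⟩
  refine action_all hl ψ₀ ψ₁ fun a ha hal => ?_
  obtain ⟨r, Ψ, hΨ, hr, hz⟩ := h a ha hal
  exact ⟨r, Ψ, hr, hΨ, hz⟩

/-- The space is connected iff all embeddings extend from smaller balls. -/
theorem connected_iff_extend {l : ℝ} (hl : 0 < l) (hl1 : l < 1) :
    ConnectedSpace (Emb W l 1) ↔ ∀ (ψ : Emb W l 1) (a : ℝ), 0 < a → a < l →
      ∃ (r : ℝ) (Ψ : W → W), IsSympC r Ψ ∧ r < 1 ∧ ∀ z ∈ ball (0 : W) a, ψ.1 z = Ψ z := by
  have hin : ∀ a < l, ∀ z ∈ ball (0 : W) a, (incl (W := W) hl1.le).1 z = z := fun a ha z hz =>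
    indicator_of_mem (ball_subset_ball ha.le hz) _
  constructor
  · intro h ψ a ha hal
    have h1 : ψ ∈ connectedComponent (incl (W := W) hl1.le) := by
      rw [PreconnectedSpace.connectedComponent_eq_univ]
      trivial
    obtain ⟨r, Ψ, hΨ, hr, hz⟩ := (mem_component_iff hl (incl (W := W) hl1.le) ψ).1 h1 a ha hal
    refine ⟨r, Ψ, hΨ, hr, fun z hza => ?_⟩
    rw [hz z hza, hin a hal z hza]
  · intro h
    have h1 : ∀ ψ : Emb W l 1, ψ ∈ connectedComponent (incl (W := W) hl1.le) := by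
      intro ψ
      refine (mem_component_iff hl (incl (W := W) hl1.le) ψ).2 fun a ha hal => ?_
      obtain ⟨r, Ψ, hΨ, hr, hz⟩ := h ψ a ha hal
      refine ⟨r, Ψ, hΨ, hr, fun z hza => ?_⟩
      rw [hz z hza, hin a hal z hza]
    have h4 : (univ : Set (Emb W l 1)) = connectedComponent (incl (W := W) hl1.le) :=
      (eq_univ_of_forall h1).symm
    have : PreconnectedSpace (Emb W l 1) := ⟨by
      rw [h4]
      exact isPreconnected_connectedComponent⟩
    exact { toNonempty := ⟨incl hl1.le⟩ }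

/-- A map with the properties `IsSympC` is onto, so it is a symplectomorphism of the whole space. -/
theorem IsSympC.bijective {r : ℝ} {Ψ : W → W} (h : IsSympC r Ψ) : Function.Bijective Ψ := by
  have : FiniteDimensional ℝ W := FiniteDimensional.complexToReal W
  have : CompleteSpace W := FiniteDimensional.complete ℝ W
  have : ProperSpace W := FiniteDimensional.proper ℂ W
  refine ⟨h.inj, ?_⟩
  have hopen : IsOpen (range Ψ) := by
    rw [isOpen_iff_mem_nhds]
    rintro _ ⟨z, rfl⟩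
    have h1 : HasStrictFDerivAt Ψ (fderiv ℝ Ψ z) z :=
      h.smooth.contDiffAt.hasStrictFDerivAt (by simp)
    obtain ⟨C, -, -, hC⟩ := symp_inv (h.symp z)
    have h2 : Filter.map Ψ (𝓝 z) = 𝓝 (Ψ z) := by
      refine h1.map_nhds_eq_of_surj ?_
      rw [eq_top_iff]
      rintro x -
      exact ⟨C x, hC x⟩
    rw [← h2]
    exact Filter.range_mem_map
  have hclosed : IsClosed (range Ψ) := by
    have h1 : range Ψ = Ψ '' closedBall 0 r ∪ {z | r ≤ ‖z‖} := by
      apply Subset.antisymm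
      · rintro _ ⟨z, rfl⟩
        rcases le_total ‖z‖ r with hz | hz
        · exact Or.inl ⟨z, mem_closedBall_zero_iff.2 hz, rfl⟩
        · right
          rw [h.supp z hz]
          exact hz
      · rintro y (⟨z, -, rfl⟩ | hy)
        · exact mem_range_self z
        · exact ⟨y, h.supp y hy⟩
    rw [h1]
    exact (((isCompact_closedBall _ _).image h.smooth.continuous).isClosed).union
      (isClosed_le continuous_const continuous_norm)
  have h3 := IsClopen.eq_univ ⟨hclosed, hopen⟩ (range_nonempty Ψ)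
  exact range_eq_univ.1 h3

end H88W
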