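import Pool.Agent.Lib.H88W.X1

/-!
# X2: the Cayley transform of a Hamiltonian vector field

Proof. `R₁` = inverse of `m ↦ m - ξ m / 2`, `R₂` = inverse of `m ↦ m + ξ m / 2` (`perturb`), and
`h x = R₁ x + ξ (R₁ x) / 2`, `h' y = R₂ y - ξ (R₂ y) / 2`; they are inverse to each other. With
`X = Dξ(m)`: `D h (m - ξ m / 2) (v - X v / 2) = v + X v / 2` (differentiate `h (m - ξ m / 2) = m + ξ m / 2`), and
`om (v + X v / 2) (w + X w / 2) = om (v - X v / 2) (w - X w / 2)` by `hH`; `1 - X / 2` is onto. For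
`r ≤ ‖x‖`: `ξ x = 0`, so `R₁ x = x` and `h x = x`.
-/

open Set Metric Topology
open scoped ContDiff

set_option linter.unusedSectionVars false

namespace H88W

variable {W : Type*} [NormedAddCommGroup W] [InnerProductSpace ℂ W] [FiniteDimensional ℂ W]

private theorem x2_om {v v' a a' : W} (h : om a v' + om v a' = 0) :
    om (v + a) (v' + a') = om (v - a) (v' - a') := by
  have h1 : ∀ u w z : W, om (u - w) z = om u z - om w z := fun u w z => by
    unfold om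
    rw [inner_sub_left, Complex.sub_im]
  have h2 : ∀ u w z : W, om z (u - w) = om z u - om z w := fun u w z => by
    unfold om
    rw [inner_sub_right, Complex.sub_im]
  rw [om_add_left, om_add_right, om_add_right, h1, h2, h2]
  linarith

private theorem x2_one {η : W → W} (hs : ContDiff ℝ (⊤ : ℕ∞) η) (hb : ∀ x, ‖fderiv ℝ η x‖ ≤ 1 / 2)
    (hH : ∀ x u v, om (fderiv ℝ η x u) v + om u (fderiv ℝ η x v) = 0) {r : ℝ}
    (h0 : ∀ x, r ≤ ‖x‖ → η x = 0) :
    ∃ R : W → W, (∀ m, R (m - η m) = m) ∧ (∀ y, R y - η (R y) = y) ∧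
      ContDiff ℝ (⊤ : ℕ∞) (fun y => R y + η (R y)) ∧ (∀ z, IsSymp (fderiv ℝ (fun y => R y + η (R y)) z)) ∧
      ∀ z, r ≤ ‖z‖ → R z + η (R z) = z := by
  obtain ⟨R, hR, hR1, hR2⟩ := perturb (ζ := fun x => -η x) hs.neg (fun x => by
    rw [fderiv_fun_neg, norm_neg]
    exact hb x)
  have hR1' : ∀ m, R (m - η m) = m := fun m => by
    rw [sub_eq_add_neg]
    exact hR1 m
  have hR2' : ∀ y, R y - η (R y) = y := fun y => by
    rw [sub_eq_add_neg]
    exact hR2 y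
  refine ⟨R, hR1', hR2', hR.add (hs.comp hR), fun z => ?_, fun z hz => ?_⟩
  · have d1 : HasFDerivAt R (fderiv ℝ R z) z := (hR.differentiable (by simp)).differentiableAt.hasFDerivAt
    have d2 : HasFDerivAt η (fderiv ℝ η (R z)) (R z) :=
      (hs.differentiable (by simp)).differentiableAt.hasFDerivAt
    have d3 : HasFDerivAt (fun y => η (R y)) ((fderiv ℝ η (R z)).comp (fderiv ℝ R z)) z :=
      HasFDerivAt.comp z d2 d1
    have d4 : HasFDerivAt (fun y => R y - η (R y))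
        (fderiv ℝ R z - (fderiv ℝ η (R z)).comp (fderiv ℝ R z)) z := d1.sub d3
    have d5 : (fun y => R y - η (R y)) = fun y => y := funext hR2'
    rw [d5] at d4
    have d6 : fderiv ℝ R z - (fderiv ℝ η (R z)).comp (fderiv ℝ R z) = ContinuousLinearMap.id ℝ W :=
      d4.unique (hasFDerivAt_id z)
    have d7 : ∀ u, fderiv ℝ R z u - fderiv ℝ η (R z) (fderiv ℝ R z u) = u := fun u => by
      have h1 := congrArg (fun A : W →L[ℝ] W => A u) d6
      exact h1
    have d8 : fderiv ℝ (fun y => R y + η (R y)) z =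
        fderiv ℝ R z + (fderiv ℝ η (R z)).comp (fderiv ℝ R z) := (d1.add d3).fderiv
    intro u w
    rw [d8]
    show om (fderiv ℝ R z u + fderiv ℝ η (R z) (fderiv ℝ R z u))
      (fderiv ℝ R z w + fderiv ℝ η (R z) (fderiv ℝ R z w)) = om u w
    rw [x2_om (hH _ _ _), d7, d7]
  · have h1 := h0 z hz
    have h2 := hR1' z
    rw [h1, sub_zero] at h2
    rw [h2, h1, add_zero]

theorem cayley {ξ : W → W} (hs : ContDiff ℝ (⊤ : ℕ∞) ξ) (hb : ∀ x, ‖fderiv ℝ ξ x‖ ≤ 1)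
    (hH : ∀ x u v, om (fderiv ℝ ξ x u) v + om u (fderiv ℝ ξ x v) = 0) {r : ℝ}
    (h0 : ∀ x, r ≤ ‖x‖ → ξ x = 0) :
    ∃ h h' : W → W, IsSympC r h ∧ IsSympC r h' ∧ (∀ x, h' (h x) = x) ∧
      ∀ m, h (m - (1 / 2 : ℝ) • ξ m) = m + (1 / 2 : ℝ) • ξ m := by
  obtain ⟨η, hη⟩ : ∃ η : W → W, η = fun x => (1 / 2 : ℝ) • ξ x := ⟨_, rfl⟩
  have hηx : ∀ x, η x = (1 / 2 : ℝ) • ξ x := fun x => by rw [hη]
  have hηs : ContDiff ℝ (⊤ : ℕ∞) η := by
    rw [hη]
    exact contDiff_const.smul hs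
  have hdξ : ∀ x, HasFDerivAt ξ (fderiv ℝ ξ x) x := fun x =>
    (hs.differentiable (by simp)).differentiableAt.hasFDerivAt
  have hd : ∀ x, fderiv ℝ η x = (1 / 2 : ℝ) • fderiv ℝ ξ x := fun x => by
    rw [hη]
    exact ((hdξ x).const_smul (1 / 2 : ℝ)).fderiv
  have hηb : ∀ x, ‖fderiv ℝ η x‖ ≤ 1 / 2 := fun x => by
    rw [hd, norm_smul]
    have h1 : ‖(1 / 2 : ℝ)‖ = 1 / 2 := by
      rw [Real.norm_eq_abs]
      norm_num
    rw [h1]
    have h2 := hb x
    linarith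
  have hηH : ∀ x u v, om (fderiv ℝ η x u) v + om u (fderiv ℝ η x v) = 0 := fun x u v => by
    rw [hd]
    show om ((1 / 2 : ℝ) • fderiv ℝ ξ x u) v + om u ((1 / 2 : ℝ) • fderiv ℝ ξ x v) = 0
    rw [om_smul_left, om_smul_right, ← mul_add, hH, mul_zero]
  have hη0 : ∀ x, r ≤ ‖x‖ → η x = 0 := fun x hx => by
    rw [hηx, h0 x hx, smul_zero]
  obtain ⟨R, hR1, hR2, hR3, hR4, hR5⟩ := x2_one hηs hηb hηH hη0
  obtain ⟨Q, hQ1, hQ2, hQ3, hQ4, hQ5⟩ := x2_one (η := fun x => -η x) hηs.neg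
    (fun x => by
      rw [fderiv_fun_neg, norm_neg]
      exact hηb x)
    (fun x u v => by
      rw [fderiv_fun_neg]
      show om (-(fderiv ℝ η x u)) v + om u (-(fderiv ℝ η x v)) = 0
      have h1 : ∀ w : W, -w = (-1 : ℝ) • w := fun w => by rw [neg_one_smul]
      rw [h1, h1, om_smul_left, om_smul_right, ← mul_add, hηH, mul_zero])
    (fun x hx => by
      show -η x = 0
      rw [hη0 x hx, neg_zero])
  have hQ1' : ∀ m, Q (m + η m) = m := fun m => by
    have h1 := hQ1 m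
    rwa [sub_neg_eq_add] at h1
  have hQ2' : ∀ y, Q y + η (Q y) = y := fun y => by
    have h1 := hQ2 y
    rwa [sub_neg_eq_add] at h1
  have e1 : ∀ x, Q (R x + η (R x)) + -η (Q (R x + η (R x))) = x := fun x => by
    rw [hQ1', ← sub_eq_add_neg, hR2]
  have e2 : ∀ y, R (Q y + -η (Q y)) + η (R (Q y + -η (Q y))) = y := fun y => by
    rw [← sub_eq_add_neg, hR1, hQ2']
  refine ⟨fun y => R y + η (R y), fun y => Q y + -η (Q y), ⟨hR3, ?_, hR4, hR5⟩, ⟨hQ3, ?_, hQ4, hQ5⟩, e1, fun m => ?_⟩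
  · exact Function.LeftInverse.injective (g := fun y => Q y + -η (Q y)) e1
  · exact Function.LeftInverse.injective (g := fun y => R y + η (R y)) e2
  · rw [← hηx]
    show R (m - η m) + η (R (m - η m)) = m + η m
    rw [hR1]

end H88W
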