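import Pool.Agent.Lib.H88W.X0

/-!
# X3: the inverse of the midpoint map

Proof. Let `η x = g x - x`. For `closedBall m ρ ⊆ U` the map `x ↦ m - η x / 2` is a contraction with constant
`ε / 2 ≤ 1 / 2` of `closedBall m ρ` (convex, mean value inequality, `‖D η‖ ≤ ε`) into
`closedBall m (ε / 2) ⊆ closedBall m ρ`: fixed point `Q m` (`ContractingWith`, or
`IsComplete.exists_fixedPoint`), unique in `closedBall m ρ`; choose `Q m = m` for the other `m`. Smoothness at
`m` with `closedBall m (2 ρ) ⊆ U`: the derivative of `mid g` at `x₀ = Q m` is `1 + Dη/2`, invertible; the local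
inverse of the inverse function theorem is smooth and equals `Q` near `m` by uniqueness (for `m'` near `m`:
`closedBall m' ρ ⊆ U`, and the local inverse at `m'` is near `x₀`, `dist x₀ m ≤ ρ / 2`, so in
`closedBall m' ρ`). The derivative of `Q` at `m` is the inverse of `1 + Dη/2`, of norm `≤ 1/(1 - 1/2) = 2`.
-/

open Set Metric Topology
open scoped ContDiff

set_option linter.unusedSectionVars false

namespace H88W

variable {W : Type*} [NormedAddCommGroup W] [InnerProductSpace ℂ W] [FiniteDimensional ℂ W]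

private theorem x3_alg (m X Y : W) (t : ℝ) : (m - t • X) - (m - t • Y) = t • (Y - X) := by
  rw [smul_sub]
  abel

private theorem x3_mid_iff (g : W → W) (m x : W) : mid g x = m ↔ x = m - (1 / 2 : ℝ) • (g x - x) := by
  unfold mid
  constructor
  · intro h
    rw [← h]
    abel
  · intro h
    conv_lhs => lhs; rw [h]
    abel

private theorem x3_lip {U : Set W} {ε : ℝ} {g : W → W} (hU : IsOpen U) (hg : Near U ε g) {m : W} {ρ : ℝ}
    (hm : closedBall m ρ ⊆ U) {x y : W} (hx : x ∈ closedBall m ρ) (hy : y ∈ closedBall m ρ) :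
    ‖(g y - y) - (g x - x)‖ ≤ ε * ‖y - x‖ := by
  refine Convex.norm_image_sub_le_of_norm_hasFDerivWithin_le (𝕜 := ℝ) (f := fun x => g x - x)
    (f' := fun x => fderiv ℝ g x - ContinuousLinearMap.id ℝ W) (s := closedBall m ρ) ?_ ?_
    (convex_closedBall m ρ) hx hy
  · intro z hz
    have h1 : HasFDerivAt g (fderiv ℝ g z) z :=
      ((hg.smooth.contDiffAt (hU.mem_nhds (hm hz))).differentiableAt (by simp)).hasFDerivAt
    exact (h1.sub (hasFDerivAt_id z)).hasFDerivWithinAt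
  · intro z hz
    exact hg.dclose z (hm hz)

private theorem x3_fix {U : Set W} (hU : IsOpen U) {ρ ε : ℝ} (hρ : 0 < ρ) (hε0 : 0 ≤ ε) (hε1 : ε ≤ 1)
    (hερ : ε ≤ ρ) {g : W → W} (hg : Near U ε g) {m : W} (hm : closedBall m ρ ⊆ U) :
    ∃ z ∈ closedBall m ρ, mid g z = m := by
  have hFD : FiniteDimensional ℝ W := FiniteDimensional.complexToReal W
  have hcs : CompleteSpace W := FiniteDimensional.complete ℝ W
  let T : W → W := fun x => m - (1 / 2 : ℝ) • (g x - x)
  have hmaps : MapsTo T (closedBall m ρ) (closedBall m ρ) := by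
    intro x hx
    rw [mem_closedBall, dist_eq_norm]
    have h1 : T x - m = -((1 / 2 : ℝ) • (g x - x)) := by
      show m - (1 / 2 : ℝ) • (g x - x) - m = _
      abel
    rw [h1, norm_neg, norm_smul, Real.norm_eq_abs, abs_of_pos (by norm_num : (0 : ℝ) < 1 / 2)]
    have h2 := hg.close x (hm hx)
    linarith
  have hK : ContractingWith (1 / 2 : NNReal) (hmaps.restrict T (closedBall m ρ) (closedBall m ρ)) := by
    refine ⟨by
      rw [← NNReal.coe_lt_coe]
      norm_num, ?_⟩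
    refine LipschitzWith.of_dist_le_mul fun a b => ?_
    show dist (T a) (T b) ≤ _ * dist (a : W) b
    rw [dist_eq_norm, dist_eq_norm]
    have h1 : T a - T b = (1 / 2 : ℝ) • ((g b - b) - (g a - a)) := x3_alg _ _ _ _
    rw [h1, norm_smul, Real.norm_eq_abs, abs_of_pos (by norm_num : (0 : ℝ) < 1 / 2)]
    have h2 := x3_lip hU hg hm a.2 b.2
    have h3 : ε * ‖(b : W) - a‖ ≤ 1 * ‖(b : W) - a‖ := mul_le_mul_of_nonneg_right hε1 (norm_nonneg _)
    rw [norm_sub_rev (a : W) b]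
    have h4 : ((1 / 2 : NNReal) : ℝ) = 1 / 2 := by norm_num
    rw [h4]
    linarith
  obtain ⟨z, hz, hfix, -⟩ := hK.exists_fixedPoint' (isClosed_closedBall.isComplete) hmaps
    (mem_closedBall_self hρ.le : m ∈ closedBall m ρ) (edist_ne_top _ _)
  refine ⟨z, hz, ?_⟩
  rw [x3_mid_iff]
  exact hfix.symm

private theorem x3_uniq {U : Set W} (hU : IsOpen U) {ρ ε : ℝ} (hε1 : ε ≤ 1)
    {g : W → W} (hg : Near U ε g) {m : W} (hm : closedBall m ρ ⊆ U) {x y : W}
    (hx : x ∈ closedBall m ρ) (hy : y ∈ closedBall m ρ) (hx' : mid g x = m) (hy' : mid g y = m) : x = y := by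
  rw [x3_mid_iff] at hx' hy'
  have h1 : x - y = (1 / 2 : ℝ) • ((g y - y) - (g x - x)) := by
    have h2 : x - y = (m - (1 / 2 : ℝ) • (g x - x)) - (m - (1 / 2 : ℝ) • (g y - y)) := by
      rw [← hx', ← hy']
    rw [h2, x3_alg]
  have h3 : ‖x - y‖ ≤ 1 / 2 * (ε * ‖y - x‖) := by
    conv_lhs => rw [h1]
    rw [norm_smul, Real.norm_eq_abs, abs_of_pos (by norm_num : (0 : ℝ) < 1 / 2)]
    exact mul_le_mul_of_nonneg_left (x3_lip hU hg hm hx hy) (by norm_num)
  rw [norm_sub_rev y x] at h3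
  have h4 : ε * ‖x - y‖ ≤ 1 * ‖x - y‖ := mul_le_mul_of_nonneg_right hε1 (norm_nonneg _)
  have h5 : ‖x - y‖ ≤ 0 := by linarith
  exact sub_eq_zero.1 (norm_le_zero_iff.1 h5)

theorem mid_inv {U : Set W} (hU : IsOpen U) {ρ ε : ℝ} (hρ : 0 < ρ) (hε0 : 0 ≤ ε) (hε1 : ε ≤ 1)
    (hερ : ε ≤ ρ) {g : W → W} (hg : Near U ε g) :
    ∃ Q : W → W,
      (∀ m, closedBall m ρ ⊆ U → Q m ∈ closedBall m ρ ∧ mid g (Q m) = m ∧
        ∀ x ∈ closedBall m ρ, mid g x = m → x = Q m) ∧
      ∀ m, closedBall m (2 * ρ) ⊆ U → ContDiffAt ℝ (⊤ : ℕ∞) Q m ∧ ‖fderiv ℝ Q m‖ ≤ 2 ∧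
        ∀ u, fderiv ℝ Q m u + (1 / 2 : ℝ) • (fderiv ℝ g (Q m) (fderiv ℝ Q m u) - fderiv ℝ Q m u) = u := by
  classical
  have hFD : FiniteDimensional ℝ W := FiniteDimensional.complexToReal W
  have hcs : CompleteSpace W := FiniteDimensional.complete ℝ W
  let Q : W → W := fun m => if h : closedBall m ρ ⊆ U then
    Classical.choose (x3_fix hU hρ hε0 hε1 hερ hg h) else m
  have hQ : ∀ m, closedBall m ρ ⊆ U → Q m ∈ closedBall m ρ ∧ mid g (Q m) = m := by
    intro m h
    have h1 : Q m = Classical.choose (x3_fix hU hρ hε0 hε1 hερ hg h) := dif_pos h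
    rw [h1]
    exact Classical.choose_spec (x3_fix hU hρ hε0 hε1 hερ hg h)
  refine ⟨Q, fun m h => ⟨(hQ m h).1, (hQ m h).2, fun x hx hx' =>
    x3_uniq hU hε1 hg h hx (hQ m h).1 hx' (hQ m h).2⟩, ?_⟩
  intro m hm2
  have hm1 : closedBall m ρ ⊆ U := (closedBall_subset_closedBall (by linarith)).trans hm2
  obtain ⟨hx0, hmid0⟩ := hQ m hm1
  set x0 : W := Q m with hx0def
  have hx0U : x0 ∈ U := hm1 hx0
  have hnear : dist x0 m ≤ ρ / 2 := by
    have h1 := (x3_mid_iff g m x0).1 hmid0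
    rw [dist_eq_norm]
    have h2 : x0 - m = -((1 / 2 : ℝ) • (g x0 - x0)) := by
      have h3 : x0 - m = (m - (1 / 2 : ℝ) • (g x0 - x0)) - m := by rw [← h1]
      rw [h3]
      abel
    rw [h2, norm_neg, norm_smul, Real.norm_eq_abs, abs_of_pos (by norm_num : (0 : ℝ) < 1 / 2)]
    have h4 := hg.close x0 hx0U
    linarith
  have hgc : ContDiffAt ℝ (⊤ : ℕ∞) g x0 := hg.smooth.contDiffAt (hU.mem_nhds hx0U)
  have hgd : HasFDerivAt g (fderiv ℝ g x0) x0 := (hgc.differentiableAt (by simp)).hasFDerivAt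
  have hmc : ContDiffAt ℝ (⊤ : ℕ∞) (mid g) x0 := by
    unfold mid
    exact contDiffAt_id.add ((hgc.sub contDiffAt_id).const_smul (1 / 2 : ℝ))
  set A : W →L[ℝ] W := fderiv ℝ g x0 - ContinuousLinearMap.id ℝ W with hA
  have hAn : ‖A‖ ≤ 1 := (hg.dclose x0 hx0U).trans hε1
  set B : W →L[ℝ] W := ContinuousLinearMap.id ℝ W + (1 / 2 : ℝ) • A with hB
  have hmd : HasFDerivAt (mid g) B x0 := by
    unfold mid
    exact (hasFDerivAt_id x0).add ((hgd.sub (hasFDerivAt_id x0)).const_smul (1 / 2 : ℝ))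
  have hBlow : ∀ v, ‖v‖ ≤ 2 * ‖B v‖ := by
    intro v
    have h1 : v = B v - (1 / 2 : ℝ) • A v := by
      rw [hB]
      simp
    have h2 : ‖v‖ ≤ ‖B v‖ + 1 / 2 * ‖v‖ := by
      calc ‖v‖ = ‖B v - (1 / 2 : ℝ) • A v‖ := by rw [← h1]
        _ ≤ ‖B v‖ + ‖(1 / 2 : ℝ) • A v‖ := norm_sub_le _ _
        _ ≤ ‖B v‖ + 1 / 2 * ‖v‖ := by
          rw [norm_smul, Real.norm_eq_abs, abs_of_pos (by norm_num : (0 : ℝ) < 1 / 2)]
          have h3 : ‖A v‖ ≤ 1 * ‖v‖ := A.le_of_opNorm_le hAn v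
          linarith
    linarith
  have hBinj : Function.Injective (B : W →ₗ[ℝ] W) := by
    rw [injective_iff_map_eq_zero]
    intro v hv
    have h1 := hBlow v
    have h2 : B v = 0 := hv
    rw [h2, norm_zero, mul_zero] at h1
    exact norm_le_zero_iff.1 h1
  let e : W ≃L[ℝ] W := (LinearEquiv.ofInjectiveEndo (B : W →ₗ[ℝ] W) hBinj).toContinuousLinearEquiv
  have he : (e : W →L[ℝ] W) = B := by
    ext v
    rfl
  have hmd' : HasFDerivAt (mid g) (e : W →L[ℝ] W) x0 := by
    rw [he]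
    exact hmd
  have htop : ((⊤ : ℕ∞) : WithTop ℕ∞) ≠ 0 := by simp
  set L : W → W := hmc.localInverse hmd' htop with hL
  have hLc : ContDiffAt ℝ (⊤ : ℕ∞) L m := by
    have h := hmc.to_localInverse hmd' htop
    rw [hmid0] at h
    exact h
  have hL0 : L m = x0 := by
    have h := hmc.localInverse_apply_image hmd' htop
    rw [hmid0] at h
    exact h
  have hLr : ∀ᶠ y in 𝓝 m, mid g (L y) = y := by
    have h := (hmc.hasStrictFDerivAt' hmd' htop).eventually_right_inverse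
    rw [hmid0] at h
    exact h
  have hLn : ∀ᶠ y in 𝓝 m, dist (L y) x0 < ρ / 4 := by
    have h := hLc.continuousAt
    have h2 := h.eventually (ball_mem_nhds (L m) (by linarith : 0 < ρ / 4))
    rw [hL0] at h2
    exact h2
  have hyn : ∀ᶠ y in 𝓝 m, dist y m < ρ / 4 := ball_mem_nhds m (by linarith)
  have hQL : Q =ᶠ[𝓝 m] L := by
    filter_upwards [hLr, hLn, hyn] with y h1 h2 h3
    have hyU : closedBall y ρ ⊆ U := by
      refine (closedBall_subset_closedBall' ?_).trans hm2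
      linarith
    have h4 : L y ∈ closedBall y ρ := by
      rw [mem_closedBall]
      have h5 : dist (L y) y ≤ dist (L y) x0 + dist x0 m + dist m y := dist_triangle4 _ _ _ _
      rw [dist_comm m y] at h5
      linarith
    exact x3_uniq hU hε1 hg hyU (hQ y hyU).1 h4 (hQ y hyU).2 h1
  have hQc : ContDiffAt ℝ (⊤ : ℕ∞) Q m := hLc.congr_of_eventuallyEq hQL
  have hQd : HasFDerivAt Q (fderiv ℝ Q m) m := (hQc.differentiableAt (by simp)).hasFDerivAt
  have hcomp : (B.comp (fderiv ℝ Q m)) = ContinuousLinearMap.id ℝ W := by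
    have h1 : HasFDerivAt (fun y => mid g (Q y)) (B.comp (fderiv ℝ Q m)) m :=
      (show HasFDerivAt (mid g) B (Q m) from hmd).comp m hQd
    have h2 : (fun y => mid g (Q y)) =ᶠ[𝓝 m] id := by
      filter_upwards [hyn] with y h3
      have hyU : closedBall y ρ ⊆ U := by
        refine (closedBall_subset_closedBall' ?_).trans hm2
        linarith
      exact (hQ y hyU).2
    have h3 : HasFDerivAt (fun y => mid g (Q y)) (ContinuousLinearMap.id ℝ W) m :=
      (hasFDerivAt_id m).congr_of_eventuallyEq h2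
    exact h1.unique h3
  have hBD : ∀ u, B (fderiv ℝ Q m u) = u := by
    intro u
    have h1 := congrArg (fun f : W →L[ℝ] W => f u) hcomp
    simpa using h1
  refine ⟨hQc, ?_, ?_⟩
  · refine ContinuousLinearMap.opNorm_le_bound _ (by norm_num) fun u => ?_
    have h1 := hBlow (fderiv ℝ Q m u)
    rw [hBD] at h1
    exact h1
  · intro u
    have h1 := hBD u
    rw [hB, hA] at h1
    simpa using h1

end H88W
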