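import Mathlib
import Pool.Agent.Lib.H88W.Defs

/-!
# X4: a smooth cut off
-/

open Set Metric Topology
open scoped ContDiff Manifold

set_option linter.unusedSectionVars false

namespace H88W

variable {W : Type*} [NormedAddCommGroup W] [InnerProductSpace ℂ W] [FiniteDimensional ℂ W]

theorem exists_cutoff {K U : Set W} (hK : IsCompact K) (hU : IsOpen U) (hKU : K ⊆ U) :
    ∃ χ : W → ℝ, ContDiff ℝ (⊤ : ℕ∞) χ ∧ HasCompactSupport χ ∧ tsupport χ ⊆ U ∧
      ∃ V : Set W, IsOpen V ∧ K ⊆ V ∧ ∀ x ∈ V, χ x = 1 := by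
  have : FiniteDimensional ℝ W := FiniteDimensional.complexToReal W
  have : ProperSpace W := FiniteDimensional.proper ℝ W
  obtain ⟨L, hL, hKL, hLU⟩ := exists_compact_between hK hU hKU
  obtain ⟨M, hM, hKM, hML⟩ := exists_compact_between hK isOpen_interior hKL
  have hd : Disjoint (interior L)ᶜ M := by
    rw [disjoint_compl_left_iff_subset]
    exact hML
  obtain ⟨f, hf0, hf1, -⟩ := exists_contMDiffMap_zero_one_of_isClosed (n := (⊤ : ℕ∞))
    𝓘(ℝ, W) isOpen_interior.isClosed_compl hM.isClosed hd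
  have hsupp : tsupport (f : W → ℝ) ⊆ L := by
    refine closure_minimal ?_ hL.isClosed
    intro x hx
    by_contra hxL
    exact hx (hf0 (fun h => hxL (interior_subset h)))
  refine ⟨f, f.contMDiff.contDiff, hL.of_isClosed_subset (isClosed_tsupport _) hsupp,
    hsupp.trans hLU, interior M, isOpen_interior, hKM, fun x hx => hf1 (interior_subset hx)⟩

end H88W
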