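import Pool.Agent.Lib.H88W.X5A

/-!
# X5: the cut off field on the whole space

Proof. `K₂ = tsupport χ` is compact in the open `U`: there is `ρ > 0` with `closedBall m (4 ρ) ⊆ U` for all `m` in
`K₂` (`IsCompact.exists_cthickening_subset_open`). `χ`, `Dχ`, `D²χ` are bounded (compact support) by
`c₀, c₁, c₂`. Take `ε ≤ min 1 ρ` with `ε (2 c₀ + 2 c₁ + c₂) ≤ 1`. `Q` from `mid_inv`, `sg` from `exists_sg`, and
`ξ m = χ m • (g (Q m) - Q m) + F (Q m) • sg (Dχ(m))` if `m ∈ K₂`, `0` otherwise; off `K₂` the formula gives `0` as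
well as `χ` and `Dχ` vanish there, so near a point of `K₂` (where `closedBall m (3 ρ) ⊆ U`) `ξ` is the formula of
`field_at`, and the complement of `K₂` is open with `ξ = 0`. Last clause: `m = mid g x` has `χ = 1` near `m`, so
`Dχ(m) = 0`, `m ∈ K₂`, and `x ∈ closedBall m ρ` as `‖x - m‖ = ‖g x - x‖ / 2`, so `Q m = x`.
-/

open Set Metric Topology
open scoped ContDiff

set_option linter.unusedSectionVars false

namespace H88W

variable {W : Type*} [NormedAddCommGroup W] [InnerProductSpace ℂ W] [FiniteDimensional ℂ W]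

private theorem x5_bd {E : Type*} [NormedAddCommGroup E] [NormedSpace ℝ E] {f : W → E}
    (hf : ContDiff ℝ (⊤ : ℕ∞) f) {K : Set W} (hK : IsCompact K) (h0 : ∀ x, x ∉ K → f x = 0) :
    ∃ C : ℝ, 0 ≤ C ∧ ∀ x, ‖fderiv ℝ f x‖ ≤ C := by
  have h1 : Continuous (fderiv ℝ f) := hf.continuous_fderiv (by simp)
  obtain ⟨C, hC⟩ := hK.exists_bound_of_continuousOn h1.continuousOn
  refine ⟨max C 0, le_max_right _ _, fun x => ?_⟩
  by_cases hx : x ∈ K
  · exact (hC x hx).trans (le_max_left _ _)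
  · have h2 : f =ᶠ[𝓝 x] fun _ => (0 : E) := by
      filter_upwards [hK.isClosed.isOpen_compl.mem_nhds hx] with y hy
      exact h0 y hy
    rw [h2.fderiv_eq, fderiv_const_apply, norm_zero]
    exact le_max_right _ _

theorem cutoff_field {U : Set W} (hU : IsOpen U) {χ : W → ℝ} (hχ : ContDiff ℝ (⊤ : ℕ∞) χ)
    (hc : HasCompactSupport χ) (hsub : tsupport χ ⊆ U) :
    ∃ ε : ℝ, 0 < ε ∧ ∀ (g : W → W) (F : W → ℝ), Near U ε g → Gen U ε g F →
      ∃ ξ : W → W, ContDiff ℝ (⊤ : ℕ∞) ξ ∧ (∀ x, ‖fderiv ℝ ξ x‖ ≤ 1) ∧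
        (∀ x u v, om (fderiv ℝ ξ x u) v + om u (fderiv ℝ ξ x v) = 0) ∧
        (∀ m, m ∉ tsupport χ → ξ m = 0) ∧
        ∀ x ∈ U, (∀ᶠ m in 𝓝 (mid g x), χ m = 1) → ξ (mid g x) = g x - x := by
  obtain ⟨δ, hδ, hδU⟩ := (show IsCompact (tsupport χ) from hc).exists_cthickening_subset_open hU hsub
  have hball : ∀ m ∈ tsupport χ, closedBall m δ ⊆ U := fun m hm =>
    (closedBall_subset_cthickening hm δ).trans hδU
  have hK : IsCompact (tsupport χ) := hc
  have hD : ContDiff ℝ (⊤ : ℕ∞) (fderiv ℝ χ) := hχ.fderiv_right (by exact_mod_cast le_rfl)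
  have hz : ∀ m, m ∉ tsupport χ → χ m = 0 := fun m hm => image_eq_zero_of_notMem_tsupport hm
  have hfd : ∀ m, m ∉ tsupport χ → fderiv ℝ χ m = 0 := fun m hm =>
    image_eq_zero_of_notMem_tsupport fun h3 => hm (tsupport_fderiv_subset ℝ h3)
  obtain ⟨c₀, h0⟩ := hc.exists_bound_of_continuous hχ.continuous
  obtain ⟨c₁, hc1, h1⟩ := x5_bd hχ hK hz
  obtain ⟨c₂, hc2, h2⟩ := x5_bd hD hK hfd
  have hc0 : 0 ≤ c₀ := (norm_nonneg _).trans (h0 0)
  have hρ : 0 < δ / 4 := by positivity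
  have hC : 0 < 2 * c₀ + 2 * c₁ + c₂ + 1 := by positivity
  refine ⟨min (min 1 (δ / 4)) (1 / (2 * c₀ + 2 * c₁ + c₂ + 1)), lt_min (lt_min one_pos hρ) (by positivity), ?_⟩
  intro g F hg hF
  have hε0 : 0 ≤ min (min 1 (δ / 4)) (1 / (2 * c₀ + 2 * c₁ + c₂ + 1)) :=
    (lt_min (lt_min one_pos hρ) (by positivity)).le
  have hε1 : min (min 1 (δ / 4)) (1 / (2 * c₀ + 2 * c₁ + c₂ + 1)) ≤ 1 :=
    (min_le_left _ _).trans (min_le_left _ _)
  have hερ : min (min 1 (δ / 4)) (1 / (2 * c₀ + 2 * c₁ + c₂ + 1)) ≤ δ / 4 :=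
    (min_le_left _ _).trans (min_le_right _ _)
  have hεC : min (min 1 (δ / 4)) (1 / (2 * c₀ + 2 * c₁ + c₂ + 1)) * (2 * c₀ + 2 * c₁ + c₂) ≤ 1 := by
    have h3 : min (min 1 (δ / 4)) (1 / (2 * c₀ + 2 * c₁ + c₂ + 1)) * (2 * c₀ + 2 * c₁ + c₂) ≤
        1 / (2 * c₀ + 2 * c₁ + c₂ + 1) * (2 * c₀ + 2 * c₁ + c₂) :=
      mul_le_mul_of_nonneg_right (min_le_right _ _) (by positivity)
    refine h3.trans ?_
    rw [one_div_mul_eq_div, div_le_one hC]
    linarith
  generalize min (min 1 (δ / 4)) (1 / (2 * c₀ + 2 * c₁ + c₂ + 1)) = ε at hg hF hε0 hε1 hερ hεC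
  obtain ⟨Q, hQ1, hQ2⟩ := mid_inv hU hρ hε0 hε1 hερ hg
  obtain ⟨sg, hsg, hsg1⟩ := exists_sg (W := W)
  have hoff : ∀ m, m ∉ tsupport χ → χ m • (g (Q m) - Q m) + F (Q m) • sg (fderiv ℝ χ m) = 0 := by
    intro m hm
    rw [hz m hm, hfd m hm, map_zero, smul_zero, zero_smul, add_zero]
  have hev : ∀ m, m ∉ tsupport χ →
      (fun m => χ m • (g (Q m) - Q m) + F (Q m) • sg (fderiv ℝ χ m)) =ᶠ[𝓝 m] fun _ => (0 : W) := by
    intro m hm
    filter_upwards [(isClosed_tsupport χ).isOpen_compl.mem_nhds hm] with m' hm'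
    exact hoff m' hm'
  have hfa := fun (m : W) (hm : m ∈ tsupport χ) =>
    field_at hU hρ hε0 hε1 hερ hg hF hQ1 hQ2 hχ h0 h1 h2 hsg hsg1
      (m := m) ((closedBall_subset_closedBall (by linarith)).trans (hball m hm))
  have hfz : ∀ m, m ∉ tsupport χ →
      fderiv ℝ (fun m => χ m • (g (Q m) - Q m) + F (Q m) • sg (fderiv ℝ χ m)) m = 0 := by
    intro m hm
    rw [(hev m hm).fderiv_eq]
    exact fderiv_const_apply _
  refine ⟨fun m => χ m • (g (Q m) - Q m) + F (Q m) • sg (fderiv ℝ χ m), ?_, ?_, ?_, hoff, ?_⟩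
  · rw [contDiff_iff_contDiffAt]
    intro m
    by_cases hm : m ∈ tsupport χ
    · exact (hfa m hm).1
    · exact contDiffAt_const.congr_of_eventuallyEq (hev m hm)
  · intro m
    by_cases hm : m ∈ tsupport χ
    · exact (hfa m hm).2.1.trans hεC
    · rw [hfz m hm, norm_zero]
      exact zero_le_one
  · intro m u v
    by_cases hm : m ∈ tsupport χ
    · exact (hfa m hm).2.2 u v
    · rw [hfz m hm]
      have h3 : ∀ w : W, (0 : W →L[ℝ] W) w = 0 := fun w => rfl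
      rw [h3, h3]
      unfold om
      rw [inner_zero_left, inner_zero_right, Complex.zero_im, add_zero]
  · intro x hx hχ1
    have hm1 : χ (mid g x) = 1 := hχ1.self_of_nhds
    have hm : mid g x ∈ tsupport χ := subset_tsupport χ (by
      rw [Function.mem_support, hm1]
      exact one_ne_zero)
    have hf0 : fderiv ℝ χ (mid g x) = 0 := by
      have h3 : χ =ᶠ[𝓝 (mid g x)] fun _ => (1 : ℝ) := hχ1
      rw [h3.fderiv_eq]
      exact fderiv_const_apply _
    have hxm : x ∈ closedBall (mid g x) (δ / 4) := by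
      rw [mem_closedBall, dist_eq_norm]
      have h3 : x - mid g x = -((1 / 2 : ℝ) • (g x - x)) := by
        unfold mid
        abel
      rw [h3, norm_neg, norm_smul, Real.norm_eq_abs, abs_of_pos (by norm_num : (0 : ℝ) < 1 / 2)]
      have h4 := hg.close x hx
      linarith [norm_nonneg (g x - x)]
    have hQx : x = Q (mid g x) :=
      (hQ1 (mid g x) ((closedBall_subset_closedBall (by linarith)).trans (hball _ hm))).2.2 x hxm rfl
    show χ (mid g x) • (g (Q (mid g x)) - Q (mid g x)) + F (Q (mid g x)) • sg (fderiv ℝ χ (mid g x)) = g x - x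
    rw [hf0, map_zero, smul_zero, add_zero, hm1, one_smul, ← hQx]

end H88W
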