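import Pool.Agent.Lib.H88W.X3

/-!
# X5A: the symplectic gradient of the cut off generating function, on the open set where it is defined

`Q` inverts the midpoint map (`mid_inv`). Let `ξ₀ m = g (Q m) - Q m` and `H m = F (Q m)`: `DH(m) u = om (ξ₀ m) u`
(chain rule: `D(mid g)(Q m) (DQ(m) u) = u`). `sg` is the symplectic dual of `exists_sg`. The field is
`ξ m = χ m • ξ₀ m + H m • sg (Dχ(m))`; it satisfies `om (ξ m) u = D(χ H)(m) u`.

* smooth at `m`;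
* `‖Dξ(m)‖ ≤ ε (2 c₀ + c₁ + c₁ + c₂)`: `Dξ = χ Dξ₀ + ξ₀ ⊗ Dχ + sg(Dχ) ⊗ DH + H sg(D²χ)`, with `|χ| ≤ c₀`,
  `‖Dχ‖ ≤ c₁`, `‖D²χ‖ ≤ c₂`, `‖Dξ₀‖ ≤ 2 ε`, `‖ξ₀‖ ≤ ε`, `‖DH‖ ≤ ‖ξ₀‖ ≤ ε`, `|H| ≤ ε`, `‖sg‖ ≤ 1`;
* `om (Dξ(m) u) v = D²(χ H)(m) u v` is symmetric in `u, v` (second derivative of a smooth function,
  `ContDiffAt.isSymmSndFDerivAt` or `second_derivative_symmetric`), so
  `om (Dξ u) v + om u (Dξ v) = om (Dξ u) v - om (Dξ v) u = 0`.
-/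

open Set Metric Topology
open scoped ContDiff

set_option linter.unusedSectionVars false

namespace H88W

variable {W : Type*} [NormedAddCommGroup W] [InnerProductSpace ℂ W] [FiniteDimensional ℂ W]

private theorem x5a_omL_norm (w : W) : ‖(omL w : W →L[ℝ] ℝ)‖ ≤ ‖w‖ := by
  refine ContinuousLinearMap.opNorm_le_bound _ (norm_nonneg _) fun v => ?_
  rw [omL_apply, Real.norm_eq_abs]
  exact om_le w v

theorem field_at {U : Set W} (hU : IsOpen U) {ρ ε : ℝ} (hρ : 0 < ρ) (hε0 : 0 ≤ ε) (hε1 : ε ≤ 1)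
    (hερ : ε ≤ ρ) {g : W → W} (hg : Near U ε g) {F : W → ℝ} (hF : Gen U ε g F) {Q : W → W}
    (hQ1 : ∀ m, closedBall m ρ ⊆ U → Q m ∈ closedBall m ρ ∧ mid g (Q m) = m ∧
      ∀ x ∈ closedBall m ρ, mid g x = m → x = Q m)
    (hQ2 : ∀ m, closedBall m (2 * ρ) ⊆ U → ContDiffAt ℝ (⊤ : ℕ∞) Q m ∧ ‖fderiv ℝ Q m‖ ≤ 2 ∧
      ∀ u, fderiv ℝ Q m u + (1 / 2 : ℝ) • (fderiv ℝ g (Q m) (fderiv ℝ Q m u) - fderiv ℝ Q m u) = u)
    {χ : W → ℝ} (hχ : ContDiff ℝ (⊤ : ℕ∞) χ) {c₀ c₁ c₂ : ℝ} (h0 : ∀ x, |χ x| ≤ c₀)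
    (h1 : ∀ x, ‖fderiv ℝ χ x‖ ≤ c₁) (h2 : ∀ x, ‖fderiv ℝ (fderiv ℝ χ) x‖ ≤ c₂)
    {sg : (W →L[ℝ] ℝ) →L[ℝ] W} (hsg : ∀ f u, om (sg f) u = f u) (hsg1 : ∀ f, ‖sg f‖ ≤ ‖f‖)
    {m : W} (hm : closedBall m (3 * ρ) ⊆ U) :
    ContDiffAt ℝ (⊤ : ℕ∞) (fun m => χ m • (g (Q m) - Q m) + F (Q m) • sg (fderiv ℝ χ m)) m ∧
    ‖fderiv ℝ (fun m => χ m • (g (Q m) - Q m) + F (Q m) • sg (fderiv ℝ χ m)) m‖ ≤
      ε * (2 * c₀ + 2 * c₁ + c₂) ∧
    ∀ u v, om (fderiv ℝ (fun m => χ m • (g (Q m) - Q m) + F (Q m) • sg (fderiv ℝ χ m)) m u) v +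
      om u (fderiv ℝ (fun m => χ m • (g (Q m) - Q m) + F (Q m) • sg (fderiv ℝ χ m)) m v) = 0 := by
  have hso : IsOpen (ball m ρ) := isOpen_ball
  have hms : m ∈ ball m ρ := mem_ball_self hρ
  have hsub2 : ∀ m' ∈ ball m ρ, closedBall m' (2 * ρ) ⊆ U := by
    intro m' hm' x hx
    apply hm
    rw [mem_closedBall] at hx ⊢
    have h3 := mem_ball.1 hm'
    have h4 := dist_triangle x m' m
    linarith
  have hsub1 : ∀ m' ∈ ball m ρ, closedBall m' ρ ⊆ U := fun m' hm' =>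
    (closedBall_subset_closedBall (by linarith)).trans (hsub2 m' hm')
  have hQU : ∀ m' ∈ ball m ρ, Q m' ∈ U := fun m' hm' =>
    hsub1 m' hm' (hQ1 m' (hsub1 m' hm')).1
  have hQC : ∀ m' ∈ ball m ρ, ContDiffAt ℝ (⊤ : ℕ∞) Q m' := fun m' hm' =>
    (hQ2 m' (hsub2 m' hm')).1
  have hQd : ∀ m' ∈ ball m ρ, HasFDerivAt Q (fderiv ℝ Q m') m' := fun m' hm' =>
    ((hQC m' hm').differentiableAt (by simp)).hasFDerivAt
  have hgC : ∀ x ∈ U, ContDiffAt ℝ (⊤ : ℕ∞) g x := fun x hx =>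
    hg.smooth.contDiffAt (hU.mem_nhds hx)
  have hgd : ∀ x ∈ U, HasFDerivAt g (fderiv ℝ g x) x := fun x hx =>
    ((hgC x hx).differentiableAt (by simp)).hasFDerivAt
  have hξ₀C : ∀ m' ∈ ball m ρ, ContDiffAt ℝ (⊤ : ℕ∞) (fun m => g (Q m) - Q m) m' :=
    fun m' hm' => ((hgC _ (hQU m' hm')).comp m' (hQC m' hm')).sub (hQC m' hm')
  have hξ₀d : ∀ m' ∈ ball m ρ, HasFDerivAt (fun m => g (Q m) - Q m)
      ((fderiv ℝ g (Q m') - ContinuousLinearMap.id ℝ W).comp (fderiv ℝ Q m')) m' := by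
    intro m' hm'
    have h3 := ((hgd _ (hQU m' hm')).comp m' (hQd m' hm')).sub (hQd m' hm')
    refine h3.congr_fderiv ?_
    ext u
    simp
  have hHd : ∀ m' ∈ ball m ρ, HasFDerivAt (fun m => F (Q m)) (omL (g (Q m') - Q m')) m' := by
    intro m' hm'
    have h3 := (hF.deriv _ (hQU m' hm')).comp m' (hQd m' hm')
    refine h3.congr_fderiv ?_
    ext u
    have h4 := (hQ2 m' (hsub2 m' hm')).2.2 u
    have h5 : ((1 / 2 : ℝ) • (ContinuousLinearMap.id ℝ W + fderiv ℝ g (Q m')))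
        (fderiv ℝ Q m' u) = u := by
      conv_rhs => rw [← h4]
      simp only [smul_apply, add_apply, ContinuousLinearMap.id_apply]
      module
    rw [ContinuousLinearMap.comp_apply, ContinuousLinearMap.comp_apply, h5]
  have hHC : ContDiffOn ℝ (⊤ : ℕ∞) (fun m => F (Q m)) (ball m ρ) := by
    rw [contDiffOn_infty_iff_fderiv_of_isOpen hso]
    refine ⟨fun m' hm' => (hHd m' hm').differentiableAt.differentiableWithinAt, ?_⟩
    have h3 : ContDiffOn ℝ (⊤ : ℕ∞) (fun m' => omL (W := W) (g (Q m') - Q m')) (ball m ρ) :=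
      fun m' hm' => ((omL (W := W)).contDiff.contDiffAt.comp m' (hξ₀C m' hm')).contDiffWithinAt
    exact h3.congr fun m' hm' => (hHd m' hm').fderiv
  have hχd : ∀ x, HasFDerivAt χ (fderiv ℝ χ x) x := fun x =>
    (hχ.differentiable (by simp)).differentiableAt.hasFDerivAt
  have hχ'C : ContDiff ℝ (⊤ : ℕ∞) (fderiv ℝ χ) := hχ.fderiv_right (by simp)
  have hχ'd : ∀ x, HasFDerivAt (fderiv ℝ χ) (fderiv ℝ (fderiv ℝ χ) x) x := fun x =>
    (hχ'C.differentiable (by simp)).differentiableAt.hasFDerivAt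
  have hξC : ContDiffAt ℝ (⊤ : ℕ∞)
      (fun m => χ m • (g (Q m) - Q m) + F (Q m) • sg (fderiv ℝ χ m)) m :=
    (hχ.contDiffAt.smul (hξ₀C m hms)).add ((hHC.contDiffAt (hso.mem_nhds hms)).smul
      (sg.contDiff.comp hχ'C).contDiffAt)
  have hξd := ((hχd m).fun_smul (hξ₀d m hms)).fun_add
    ((hHd m hms).fun_smul ((sg.hasFDerivAt (x := fderiv ℝ χ m)).comp m (hχ'd m)))
  refine ⟨hξC, ?_, ?_⟩
  · have h3 := hξd.fderiv
    simp only [Function.comp_apply] at h3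
    rw [h3]
    have b0 : ‖g (Q m) - Q m‖ ≤ ε := hg.close _ (hQU m hms)
    have b1 : ‖(fderiv ℝ g (Q m) - ContinuousLinearMap.id ℝ W).comp (fderiv ℝ Q m)‖ ≤ ε * 2 := by
      refine (ContinuousLinearMap.opNorm_comp_le _ _).trans ?_
      exact mul_le_mul (hg.dclose _ (hQU m hms)) (hQ2 m (hsub2 m hms)).2.1 (norm_nonneg _) hε0
    have b2 : |F (Q m)| ≤ ε := hF.small _ (hQU m hms)
    have b3 : ‖(omL (g (Q m) - Q m) : W →L[ℝ] ℝ)‖ ≤ ε := (x5a_omL_norm _).trans b0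
    have b4 : ‖sg (fderiv ℝ χ m)‖ ≤ c₁ := (hsg1 _).trans (h1 m)
    have b5 : ‖sg.comp (fderiv ℝ (fderiv ℝ χ) m)‖ ≤ c₂ := by
      refine (ContinuousLinearMap.opNorm_comp_le _ _).trans ?_
      have h4 : ‖sg‖ ≤ 1 := ContinuousLinearMap.opNorm_le_bound _ zero_le_one fun f => by
        rw [one_mul]
        exact hsg1 f
      calc ‖sg‖ * ‖fderiv ℝ (fderiv ℝ χ) m‖ ≤ 1 * ‖fderiv ℝ (fderiv ℝ χ) m‖ :=
            mul_le_mul_of_nonneg_right h4 (norm_nonneg (fderiv ℝ (fderiv ℝ χ) m))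
        _ ≤ c₂ := by rw [one_mul]; exact h2 m
    have d0 : 0 ≤ c₀ := (abs_nonneg _).trans (h0 m)
    have d1 : 0 ≤ c₁ := (norm_nonneg _).trans (h1 m)
    have e1 : ‖χ m • (fderiv ℝ g (Q m) - ContinuousLinearMap.id ℝ W).comp (fderiv ℝ Q m)‖ ≤
        c₀ * (ε * 2) := by
      rw [norm_smul, Real.norm_eq_abs]
      exact mul_le_mul (h0 m) b1 (norm_nonneg _) d0
    have e2 : ‖(fderiv ℝ χ m).smulRight (g (Q m) - Q m)‖ ≤ c₁ * ε := by
      rw [ContinuousLinearMap.norm_smulRight_apply]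
      exact mul_le_mul (h1 m) b0 (norm_nonneg _) d1
    have e3 : ‖F (Q m) • sg.comp (fderiv ℝ (fderiv ℝ χ) m)‖ ≤ ε * c₂ := by
      rw [norm_smul, Real.norm_eq_abs]
      exact mul_le_mul b2 b5 (norm_nonneg _) hε0
    have e4 : ‖(omL (g (Q m) - Q m) : W →L[ℝ] ℝ).smulRight (sg (fderiv ℝ χ m))‖ ≤ ε * c₁ := by
      rw [ContinuousLinearMap.norm_smulRight_apply]
      exact mul_le_mul b3 b4 (norm_nonneg _) hε0
    refine (norm_add_le _ _).trans ?_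
    refine (add_le_add ((norm_add_le _ _).trans (add_le_add e1 e2))
      ((norm_add_le _ _).trans (add_le_add e3 e4))).trans ?_
    apply le_of_eq
    ring
  · have hKd : ∀ m' ∈ ball m ρ, HasFDerivAt (fun m => χ m * F (Q m))
        (omL (χ m' • (g (Q m') - Q m') + F (Q m') • sg (fderiv ℝ χ m'))) m' := by
      intro m' hm'
      have h3 := (hχd m').fun_mul (hHd m' hm')
      refine h3.congr_fderiv ?_
      ext u
      simp only [add_apply, smul_apply, omL_apply, om_add_left, om_smul_left, hsg, smul_eq_mul]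
    have hKC : ContDiffAt ℝ (⊤ : ℕ∞) (fun m => χ m * F (Q m)) m :=
      hχ.contDiffAt.mul (hHC.contDiffAt (hso.mem_nhds hms))
    have hsym := hKC.isSymmSndFDerivAt (by
      rw [minSmoothness_of_isRCLikeNormedField]
      exact WithTop.coe_le_coe.2 (le_top : (2 : ℕ∞) ≤ ⊤))
    have hev : fderiv ℝ (fun m => χ m * F (Q m)) =ᶠ[𝓝 m] fun m' =>
        omL (χ m' • (g (Q m') - Q m') + F (Q m') • sg (fderiv ℝ χ m')) := by
      filter_upwards [hso.mem_nhds hms] with m' hm'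
      exact (hKd m' hm').fderiv
    have hξd' := (hξC.differentiableAt (by simp)).hasFDerivAt
    have h4 := hev.fderiv_eq.trans ((omL (W := W)).hasFDerivAt.comp m hξd').fderiv
    intro u v
    have h5 := hsym u v
    rw [h4] at h5
    simp only [ContinuousLinearMap.comp_apply, omL_apply] at h5
    rw [h5, om_swap u, add_neg_cancel]

end H88W
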