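import Pool.Agent.Lib.H88W.X2
import Pool.Agent.Lib.H88W.X4
import Pool.Agent.Lib.H88W.X5

/-!
# X6: a map near the identity with a generating function extends

Proof. `χ`, `V` from `exists_cutoff` for `K ⊆ U`; `ε₁` from `cutoff_field`. `V` open, `K` compact in `V`: there is
`δ > 0` with `closedBall x δ ⊆ V` for `x ∈ K`; `ε = min ε₁ δ`. Given `g`, `F` (they are `Near U ε₁`, `Gen U ε₁` too),
take `ξ`; `tsupport χ` is compact in `ball 0 1`, so in `ball 0 r` for some `r < 1`, and `ξ x = 0` for `r ≤ ‖x‖`.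
`cayley` gives `h, h'`. For `x ∈ K`: `m = mid g x ∈ closedBall x δ ⊆ V`, `V` open, `χ = 1` on `V`, so
`ξ m = g x - x`, `m - ξ m / 2 = x`, and `h x = m + ξ m / 2 = g x`.
-/

open Set Metric Topology
open scoped ContDiff

set_option linter.unusedSectionVars false

namespace H88W

variable {W : Type*} [NormedAddCommGroup W] [InnerProductSpace ℂ W] [FiniteDimensional ℂ W]

theorem extend_near {U : Set W} (hU : IsOpen U) (hU1 : U ⊆ ball 0 1) {K : Set W}
    (hK : IsCompact K) (hKU : K ⊆ U) :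
    ∃ ε : ℝ, 0 < ε ∧ ∀ (g : W → W) (F : W → ℝ), Near U ε g → Gen U ε g F →
      ∃ (r : ℝ) (h h' : W → W), r < 1 ∧ IsSympC r h ∧ IsSympC r h' ∧ (∀ x, h' (h x) = x) ∧
        ∀ x ∈ K, h x = g x := by
  have : FiniteDimensional ℝ W := FiniteDimensional.complexToReal W
  have : ProperSpace W := FiniteDimensional.proper ℝ W
  obtain ⟨χ, hχ, hc, hsub, V, hVo, hKV, hV1⟩ := exists_cutoff hK hU hKU
  obtain ⟨ε₁, hε₁, hfield⟩ := cutoff_field hU hχ hc hsub
  obtain ⟨δ, hδ, hδV⟩ := hK.exists_cthickening_subset_open hVo hKV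
  obtain ⟨r, hr1, hr⟩ := exists_lt_subset_ball (isClosed_tsupport χ) (hsub.trans hU1)
  refine ⟨min ε₁ δ, lt_min hε₁ hδ, fun g F hg hF => ?_⟩
  have hg' : Near U ε₁ g := ⟨hg.smooth, hg.symp, fun x hx => (hg.close x hx).trans (min_le_left _ _),
    fun x hx => (hg.dclose x hx).trans (min_le_left _ _)⟩
  have hF' : Gen U ε₁ g F := ⟨hF.deriv, fun x hx => (hF.small x hx).trans (min_le_left _ _)⟩
  obtain ⟨ξ, hξ1, hξ2, hξ3, hξ4, hξ5⟩ := hfield g F hg' hF'
  have h0 : ∀ x, r ≤ ‖x‖ → ξ x = 0 := by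
    intro x hx
    refine hξ4 x fun hx' => ?_
    have h1 := hr hx'
    rw [mem_ball_zero_iff] at h1
    linarith
  obtain ⟨h, h', hh, hh', hinv, hmid⟩ := cayley hξ1 hξ2 hξ3 h0
  refine ⟨r, h, h', hr1, hh, hh', hinv, fun x hx => ?_⟩
  have hxU : x ∈ U := hKU hx
  have hclose : ‖g x - x‖ ≤ δ := (hg.close x hxU).trans (min_le_right _ _)
  have hm : mid g x ∈ V := by
    apply hδV
    apply closedBall_subset_cthickening hx δ
    rw [mem_closedBall, dist_eq_norm]
    unfold mid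
    rw [add_sub_cancel_left, norm_smul, Real.norm_of_nonneg (by norm_num)]
    linarith [norm_nonneg (g x - x)]
  have hξm : ξ (mid g x) = g x - x := by
    refine hξ5 x hxU ?_
    filter_upwards [hVo.mem_nhds hm] with y hy
    exact hV1 y hy
  have h1 := hmid (mid g x)
  rw [hξm] at h1
  have e1 : mid g x - (1 / 2 : ℝ) • (g x - x) = x := by
    unfold mid
    exact add_sub_cancel_right _ _
  have e2 : mid g x + (1 / 2 : ℝ) • (g x - x) = g x := by
    unfold mid
    rw [add_assoc, ← add_smul]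
    norm_num
  rw [e1, e2] at h1
  exact h1

end H88W
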