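import Pool.Agent.Lib.H88W.X0
import Pool.Agent.Lib.H88W.R2

/-!
# X7: nearby embeddings

`G = Function.invFunOn ψ.1 (ball 0 a)` inverts `ψ` on the open set `U = ψ (ball 0 a)`.

* `image_open`: `ψ` is open at each point of the ball (`strict_affine` of R2 with `A = id`, `c = 0`).
* `G_smooth`: inverse function theorem; the derivative of `G` at `ψ z` is the inverse of `Dψ(z)`.
* `near_of_emb`: the closed ball of radius `a < l` is compact in the open ball; the sets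
  `{φ | ∀ z ∈ closedBall 0 a, ‖D^k φ(z) - D^k ψ(z)‖ < ε}`, `k = 0, 1`, are neighbourhoods of `ψ` (`continuous_jet`,
  and uniform convergence on compact sets, `ContinuousMap.tendsto_iff_forall_isCompact_tendstoUniformlyOn`).
  With `x = ψ z`, `g x = φ z`: `g x - x = φ z - ψ z`, `D g(x) = Dφ(z) Dψ(z)⁻¹`,
  `D g(x) - 1 = (Dφ(z) - Dψ(z)) Dψ(z)⁻¹` and `‖Dψ(z)⁻¹‖ ≤ ‖Dψ(z)‖ ≤ M` on the closed ball (`symp_inv_norm`).
-/

open Set Metric Topology
open scoped ContDiff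

set_option linter.unusedSectionVars false

namespace H88W

variable {W : Type*} [NormedAddCommGroup W] [InnerProductSpace ℂ W] [FiniteDimensional ℂ W]

theorem image_open {l a : ℝ} (hal : a ≤ l) (ψ : Emb W l 1) : IsOpen (ψ.1 '' ball (0 : W) a) := by
  rw [isOpen_iff_mem_nhds]
  rintro _ ⟨z, hz, rfl⟩
  have h1 := strict_affine ψ.2.1 (isSymp_id (W := W)) 0 (ball_subset_ball hal hz)
  simp only [ContinuousLinearMap.id_apply, add_zero] at h1
  rw [← h1]
  exact Filter.image_mem_map (isOpen_ball.mem_nhds hz)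

private theorem G_left {l a : ℝ} (hal : a ≤ l) (ψ : Emb W l 1) {z : W} (hz : z ∈ ball (0 : W) a) :
    Function.invFunOn ψ.1 (ball (0 : W) a) (ψ.1 z) = z :=
  (ψ.2.1.inj.mono (ball_subset_ball hal)).leftInvOn_invFunOn hz

theorem G_smooth {l a : ℝ} (ha : 0 < a) (hal : a ≤ l) (ψ : Emb W l 1) :
    ContDiffOn ℝ (⊤ : ℕ∞) (Function.invFunOn ψ.1 (ball (0 : W) a)) (ψ.1 '' ball (0 : W) a) ∧
    (∀ z ∈ ball (0 : W) a, Function.invFunOn ψ.1 (ball (0 : W) a) (ψ.1 z) = z) ∧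
    ∀ z ∈ ball (0 : W) a, ∀ u, fderiv ℝ (Function.invFunOn ψ.1 (ball (0 : W) a)) (ψ.1 z)
      (fderiv ℝ ψ.1 z u) = u := by
  have : FiniteDimensional ℝ W := FiniteDimensional.complexToReal W
  have : CompleteSpace W := FiniteDimensional.complete ℝ W
  have key : ∀ z ∈ ball (0 : W) a,
      ContDiffAt ℝ (⊤ : ℕ∞) (Function.invFunOn ψ.1 (ball (0 : W) a)) (ψ.1 z) ∧
      ∀ u, fderiv ℝ (Function.invFunOn ψ.1 (ball (0 : W) a)) (ψ.1 z) (fderiv ℝ ψ.1 z u) = u := by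
    intro z hz
    have hzl : z ∈ ball (0 : W) l := ball_subset_ball hal hz
    obtain ⟨C, -, hC1, hC2⟩ := symp_inv (ψ.2.1.symp z hzl)
    let e : W ≃L[ℝ] W := ContinuousLinearEquiv.equivOfInverse (fderiv ℝ ψ.1 z) C hC1 hC2
    have h1 : ContDiffAt ℝ (⊤ : ℕ∞) ψ.1 z := ψ.2.1.smooth.contDiffAt (isOpen_ball.mem_nhds hzl)
    have h2 : HasFDerivAt ψ.1 (e : W →L[ℝ] W) z := (h1.differentiableAt (by simp)).hasFDerivAt
    have h3 : HasStrictFDerivAt ψ.1 (e : W →L[ℝ] W) z := h1.hasStrictFDerivAt' h2 (by simp)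
    have hg : ∀ᶠ x in 𝓝 z, Function.invFunOn ψ.1 (ball (0 : W) a) (ψ.1 x) = x := by
      filter_upwards [isOpen_ball.mem_nhds hz] with x hx
      exact G_left hal ψ hx
    have h4 := h3.localInverse_unique hg
    have h5 := h1.to_localInverse h2 (by simp)
    refine ⟨h5.congr_of_eventuallyEq h4, fun u => ?_⟩
    rw [(h3.to_local_left_inverse hg).hasFDerivAt.fderiv]
    exact e.symm_apply_apply u
  refine ⟨?_, fun z hz => G_left hal ψ hz, fun z hz => (key z hz).2⟩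
  rintro _ ⟨z, hz, rfl⟩
  exact (key z hz).1.contDiffWithinAt

private theorem jet_close {l a : ℝ} (hal : a < l) (ψ : Emb W l 1) (k : ℕ) {ε : ℝ} (hε : 0 < ε) :
    ∀ᶠ φ : Emb W l 1 in 𝓝 ψ, ∀ z ∈ closedBall (0 : W) a,
      ‖iteratedFDeriv ℝ k φ.1 z - iteratedFDeriv ℝ k ψ.1 z‖ ≤ ε := by
  have : FiniteDimensional ℝ W := FiniteDimensional.complexToReal W
  have : ProperSpace W := FiniteDimensional.proper ℝ W
  have hK : IsCompact ((↑) ⁻¹' closedBall (0 : W) a : Set (ball (0 : W) l)) := by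
    rw [Subtype.isCompact_iff, Subtype.image_preimage_coe,
      inter_eq_right.2 (closedBall_subset_ball hal)]
    exact isCompact_closedBall _ _
  have h1 : Filter.Tendsto (fun φ : Emb W l 1 => jet k φ) (𝓝 ψ) (𝓝 (jet k ψ)) :=
    (continuous_jet k).tendsto ψ
  have h2 := Metric.tendstoUniformlyOn_iff.1
    (ContinuousMap.tendsto_iff_forall_isCompact_tendstoUniformlyOn.1 h1 _ hK) ε hε
  filter_upwards [h2] with φ hφ z hz
  have h3 := (hφ ⟨z, closedBall_subset_ball hal hz⟩ hz).le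
  rw [dist_comm, dist_eq_norm] at h3
  exact h3

/-- The two first jets are uniformly close on the closed ball. -/
theorem jets_close {l a : ℝ} (hal : a < l) (ψ : Emb W l 1) {ε : ℝ} (hε : 0 < ε) :
    ∀ᶠ φ : Emb W l 1 in 𝓝 ψ, ∀ z ∈ closedBall (0 : W) a,
      ‖φ.1 z - ψ.1 z‖ ≤ ε ∧ ‖fderiv ℝ φ.1 z - fderiv ℝ ψ.1 z‖ ≤ ε := by
  filter_upwards [jet_close hal ψ 0 hε, jet_close hal ψ 1 hε] with φ h0 h1 z hz
  refine ⟨?_, ?_⟩
  · refine le_trans ?_ (h0 z hz)
    have h2 := (iteratedFDeriv ℝ 0 φ.1 z - iteratedFDeriv ℝ 0 ψ.1 z).le_opNorm 0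
    rw [ContinuousMultilinearMap.sub_apply, iteratedFDeriv_zero_apply,
      iteratedFDeriv_zero_apply, Finset.univ_eq_empty, Finset.prod_empty, mul_one] at h2
    exact h2
  · refine ContinuousLinearMap.opNorm_le_bound _ hε.le fun u => ?_
    have h2 := (iteratedFDeriv ℝ 1 φ.1 z - iteratedFDeriv ℝ 1 ψ.1 z).le_opNorm (fun _ => u)
    rw [ContinuousMultilinearMap.sub_apply, iteratedFDeriv_one_apply,
      iteratedFDeriv_one_apply, Finset.prod_const, Finset.card_univ, Fintype.card_fin,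
      pow_one] at h2
    exact h2.trans (mul_le_mul_of_nonneg_right (h1 z hz) (norm_nonneg _))

theorem near_of_emb {l a : ℝ} (ha : 0 < a) (hal : a < l) (ψ : Emb W l 1) {ε : ℝ} (hε : 0 < ε) :
    ∀ᶠ φ : Emb W l 1 in 𝓝 ψ, Near (ψ.1 '' ball (0 : W) a) ε
      (fun x => φ.1 (Function.invFunOn ψ.1 (ball (0 : W) a) x)) := by
  have : FiniteDimensional ℝ W := FiniteDimensional.complexToReal W
  have : ProperSpace W := FiniteDimensional.proper ℝ W
  obtain ⟨hG1, hG2, hG3⟩ := G_smooth ha hal.le ψ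
  have hcont : ContinuousOn (fderiv ℝ ψ.1) (closedBall (0 : W) a) :=
    (ψ.2.1.smooth.continuousOn_fderiv_of_isOpen isOpen_ball (by simp)).mono
      (closedBall_subset_ball hal)
  obtain ⟨M, hM⟩ := (isCompact_closedBall (0 : W) a).exists_bound_of_continuousOn hcont
  have hM0 : 0 ≤ M := (norm_nonneg _).trans (hM 0 (mem_closedBall_self ha.le))
  have hδ : 0 < ε / (1 + M) := by positivity
  have hδ1 : ε / (1 + M) ≤ ε := div_le_self hε.le (by linarith)
  have hδ2 : ε / (1 + M) * M ≤ ε := by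
    rw [div_mul_eq_mul_div, div_le_iff₀ (by linarith)]
    nlinarith
  filter_upwards [jets_close hal ψ hδ] with φ hφ
  have hU : IsOpen (ψ.1 '' ball (0 : W) a) := image_open hal.le ψ
  have hfd : ∀ z ∈ ball (0 : W) a, ∃ C : W →L[ℝ] W, IsSymp C ∧
      (∀ x, fderiv ℝ ψ.1 z (C x) = x) ∧
      fderiv ℝ (fun x => φ.1 (Function.invFunOn ψ.1 (ball (0 : W) a) x)) (ψ.1 z) =
        (fderiv ℝ φ.1 z).comp C := by
    intro z hz
    have hzl : z ∈ ball (0 : W) l := ball_subset_ball hal.le hz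
    obtain ⟨C, hC, hC1, hC2⟩ := symp_inv (ψ.2.1.symp z hzl)
    refine ⟨C, hC, hC2, ?_⟩
    have h1 : HasFDerivAt (Function.invFunOn ψ.1 (ball (0 : W) a))
        (fderiv ℝ (Function.invFunOn ψ.1 (ball (0 : W) a)) (ψ.1 z)) (ψ.1 z) :=
      ((hG1.contDiffAt (hU.mem_nhds (mem_image_of_mem _ hz))).differentiableAt
        (by simp)).hasFDerivAt
    have h2 : HasFDerivAt φ.1 (fderiv ℝ φ.1 z)
        (Function.invFunOn ψ.1 (ball (0 : W) a) (ψ.1 z)) := by
      rw [hG2 z hz]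
      exact ((φ.2.1.smooth.contDiffAt (isOpen_ball.mem_nhds hzl)).differentiableAt
        (by simp)).hasFDerivAt
    have h3 : fderiv ℝ (Function.invFunOn ψ.1 (ball (0 : W) a)) (ψ.1 z) = C := by
      ext y
      have h4 := hG3 z hz (C y)
      rwa [hC2] at h4
    rw [h3] at h1
    exact (HasFDerivAt.comp (ψ.1 z) h2 h1).fderiv
  refine ⟨?_, ?_, ?_, ?_⟩
  · refine φ.2.1.smooth.comp hG1 ?_
    rintro _ ⟨z, hz, rfl⟩
    show Function.invFunOn ψ.1 (ball (0 : W) a) (ψ.1 z) ∈ ball (0 : W) l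
    rw [hG2 z hz]
    exact ball_subset_ball hal.le hz
  · rintro _ ⟨z, hz, rfl⟩
    obtain ⟨C, hC, -, h1⟩ := hfd z hz
    rw [h1]
    exact isSymp_comp (φ.2.1.symp z (ball_subset_ball hal.le hz)) hC
  · rintro _ ⟨z, hz, rfl⟩
    show ‖φ.1 (Function.invFunOn ψ.1 (ball (0 : W) a) (ψ.1 z)) - ψ.1 z‖ ≤ ε
    rw [hG2 z hz]
    exact ((hφ z (ball_subset_closedBall hz)).1).trans hδ1
  · rintro _ ⟨z, hz, rfl⟩
    obtain ⟨C, -, hC2, h1⟩ := hfd z hz
    rw [h1]
    refine ContinuousLinearMap.opNorm_le_bound _ hε.le fun u => ?_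
    have h2 : ((fderiv ℝ φ.1 z).comp C - ContinuousLinearMap.id ℝ W) u =
        (fderiv ℝ φ.1 z - fderiv ℝ ψ.1 z) (C u) := by
      rw [ContinuousLinearMap.sub_apply, ContinuousLinearMap.sub_apply,
        ContinuousLinearMap.comp_apply, ContinuousLinearMap.id_apply, hC2]
    rw [h2]
    have hzc := ball_subset_closedBall hz
    have h3 : ‖C u‖ ≤ M * ‖u‖ :=
      (symp_inv_norm (ψ.2.1.symp z (ball_subset_ball hal.le hz)) hC2 u).trans
        (mul_le_mul_of_nonneg_right (hM z hzc) (norm_nonneg _))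
    calc ‖(fderiv ℝ φ.1 z - fderiv ℝ ψ.1 z) (C u)‖
        ≤ ‖fderiv ℝ φ.1 z - fderiv ℝ ψ.1 z‖ * ‖C u‖ := ContinuousLinearMap.le_opNorm _ _
      _ ≤ ε / (1 + M) * (M * ‖u‖) :=
          mul_le_mul (hφ z hzc).2 h3 (norm_nonneg _) hδ.le
      _ = ε / (1 + M) * M * ‖u‖ := by ring
      _ ≤ ε * ‖u‖ := mul_le_mul_of_nonneg_right hδ2 (norm_nonneg _)

end H88W
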