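import Mathlib

/-!
# Y1: small perturbations of the identity are diffeomorphisms (any finite-dimensional space)

The proof of X1 (`perturb`), with a constant `c < 1` and any finite-dimensional real normed space: in Y2
it is used for `ℝ × W`.
-/

open Set Metric Topology
open scoped ContDiff

namespace H88W

theorem perturb_gen {E : Type*} [NormedAddCommGroup E] [NormedSpace ℝ E] [FiniteDimensional ℝ E]
    {ζ : E → E} (hs : ContDiff ℝ (⊤ : ℕ∞) ζ) {c : ℝ} (hc : c < 1) (hb : ∀ x, ‖fderiv ℝ ζ x‖ ≤ c) :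
    ∃ R : E → E, ContDiff ℝ (⊤ : ℕ∞) R ∧ (∀ x, R (x + ζ x) = x) ∧ ∀ y, R y + ζ (R y) = y := by
  haveI : CompleteSpace E := FiniteDimensional.complete ℝ E
  have hd : Differentiable ℝ ζ := hs.differentiable (by simp)
  have hc0 : 0 ≤ c := (norm_nonneg _).trans (hb 0)
  obtain ⟨C, hC⟩ : ∃ C : NNReal, C = ⟨c, hc0⟩ := ⟨_, rfl⟩
  have hCc : (C : ℝ) = c := by rw [hC]; rfl
  have hL : LipschitzWith C ζ := by
    refine lipschitzWith_of_nnnorm_fderiv_le (𝕜 := ℝ) hd fun x => ?_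
    rw [← NNReal.coe_le_coe, coe_nnnorm, hCc]
    exact hb x
  have hA : ApproximatesLinearOn (fun x => x + ζ x)
      ((ContinuousLinearEquiv.refl ℝ E : E ≃L[ℝ] E) : E →L[ℝ] E) univ C := by
    intro x _ y _
    have h1 : x + ζ x - (y + ζ y) - ((ContinuousLinearEquiv.refl ℝ E : E ≃L[ℝ] E) : E →L[ℝ] E) (x - y) = ζ x - ζ y := by
      show x + ζ x - (y + ζ y) - (x - y) = ζ x - ζ y
      abel
    show ‖x + ζ x - (y + ζ y) - ((ContinuousLinearEquiv.refl ℝ E : E ≃L[ℝ] E) : E →L[ℝ] E) (x - y)‖ ≤ _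
    rw [h1]
    exact hL.norm_sub_le x y
  have hcc : Subsingleton E ∨ C <
      ‖((ContinuousLinearEquiv.refl ℝ E : E ≃L[ℝ] E).symm : E →L[ℝ] E)‖₊⁻¹ := by
    rcases subsingleton_or_nontrivial E with h | h
    · exact Or.inl h
    · right
      have h1 : ‖((ContinuousLinearEquiv.refl ℝ E : E ≃L[ℝ] E).symm : E →L[ℝ] E)‖₊ = 1 := by
        rw [← NNReal.coe_inj, coe_nnnorm, NNReal.coe_one]
        exact ContinuousLinearMap.norm_id
      rw [h1, inv_one, ← NNReal.coe_lt_coe, hCc, NNReal.coe_one]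
      exact hc
  set h : E ≃ₜ E := ApproximatesLinearOn.toHomeomorph (fun x => x + ζ x) hA hcc with hh
  have hval : ∀ x, h x = x + ζ x := fun x => rfl
  have ht : ∀ a, ‖-(fderiv ℝ ζ a)‖ < 1 := by
    intro a
    rw [norm_neg]
    exact lt_of_le_of_lt (hb a) hc
  have hder : ∀ a, HasFDerivAt h
      ((ContinuousLinearEquiv.ofUnit (Units.oneSub (-(fderiv ℝ ζ a)) (ht a)) : E ≃L[ℝ] E) : E →L[ℝ] E) a := by
    intro a
    have h1 : ((ContinuousLinearEquiv.ofUnit (Units.oneSub (-(fderiv ℝ ζ a)) (ht a)) : E ≃L[ℝ] E) : E →L[ℝ] E) =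
        ContinuousLinearMap.id ℝ E + fderiv ℝ ζ a := by
      ext v
      show ((1 : E →L[ℝ] E) - (-(fderiv ℝ ζ a))) v = _
      rw [sub_neg_eq_add]
      rfl
    rw [h1]
    exact (hasFDerivAt_id a).add (hd a).hasFDerivAt
  refine ⟨h.symm, ?_, fun x => ?_, fun y => ?_⟩
  · exact h.contDiff_symm hder (contDiff_id.add hs)
  · rw [← hval]
    exact h.symm_apply_apply x
  · rw [← hval]
    exact h.apply_symm_apply y

end H88W
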