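import Pool.Agent.Lib.H88W.X2
import Pool.Agent.Lib.H88W.Y1

/-!
# Y2: the Cayley transform is isotopic to the identity

Proof. Let `s = Real.smoothTransition` (smooth, `0` for `t ≤ 0`, `1` for `t ≥ 1`, values in `[0, 1]`; its
derivative is bounded: it is continuous and vanishes off `[0, 1]`). For small `κ > 0` the map
`ζ (t, m) = (0, - (1/2) s(κ t) ξ m)` of `ℝ × W` has `‖Dζ‖ ≤ 1/2 + κ C < 1` (`ξ` is bounded, it has compact
support). So `(t, m) ↦ (t, m - (1/2) s(κ t) ξ m)` has a smooth inverse `(t, x) ↦ (t, R t x)` (`perturb_gen`), and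
`H t x = R (t / κ) x + (1/2) s(t) ξ (R (t / κ) x)` is smooth in `(t, x)`. For fixed `t` it is the map of
`cayley` for the field `s(t) ξ` (both send `m - (1/2) s(t) ξ m` to `m + (1/2) s(t) ξ m`, and
`m ↦ m - (1/2) s(t) ξ m` is onto), so `IsSympC r (H t)`; `H 0 = id` as `s(0) = 0`, `H 1 = h`. For `h'` use
`- ξ`.
-/

open Set Metric Topology
open scoped ContDiff

set_option linter.unusedSectionVars false

namespace H88W

variable {W : Type*} [NormedAddCommGroup W] [InnerProductSpace ℂ W] [FiniteDimensional ℂ W]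

/-- `h` is joined to the identity by a smooth isotopy of symplectomorphisms which are the identity at
all points of norm at least `r`. -/
def Isot (r : ℝ) (h : W → W) : Prop :=
  ∃ H : ℝ → W → W, ContDiff ℝ (⊤ : ℕ∞) (Function.uncurry H) ∧ (∀ t, IsSympC r (H t)) ∧
    (∀ x, H 0 x = x) ∧ ∀ x, H 1 x = h x

private theorem y2_cut : ∃ s : ℝ → ℝ, ContDiff ℝ (⊤ : ℕ∞) s ∧ (∀ t, 0 ≤ s t) ∧ (∀ t, s t ≤ 1) ∧ s 0 = 0 ∧ s 1 = 1 ∧
    ∃ C : NNReal, LipschitzWith C s := by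
  let f : ContDiffBump (1 : ℝ) := ⟨1 / 4, 1 / 2, by norm_num, by norm_num⟩
  have hf : ContDiff ℝ (⊤ : ℕ∞) f := f.contDiff
  refine ⟨f, hf, fun t => f.nonneg, fun t => f.le_one, ?_, ?_, ?_⟩
  · refine f.zero_of_le_dist ?_
    show (1 / 2 : ℝ) ≤ dist (0 : ℝ) 1
    rw [Real.dist_eq]
    norm_num
  · refine f.one_of_mem_closedBall ?_
    exact mem_closedBall_self (by show (0 : ℝ) ≤ 1 / 4; norm_num)
  · exact hf.lipschitzWith_of_hasCompactSupport f.hasCompactSupport (by simp)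

private theorem y2_fd {ξ : W → W} (hs : ContDiff ℝ (⊤ : ℕ∞) ξ) (c : ℝ) (x : W) :
    fderiv ℝ (fun x => c • ξ x) x = c • fderiv ℝ ξ x := by
  have h1 : HasFDerivAt ξ (fderiv ℝ ξ x) x := (hs.differentiable (by simp)).differentiableAt.hasFDerivAt
  exact (h1.const_smul c).fderiv

theorem isot_of_cayley {ξ : W → W} (hs : ContDiff ℝ (⊤ : ℕ∞) ξ) (hb : ∀ x, ‖fderiv ℝ ξ x‖ ≤ 1)
    (hH : ∀ x u v, om (fderiv ℝ ξ x u) v + om u (fderiv ℝ ξ x v) = 0) {r : ℝ}
    (h0 : ∀ x, r ≤ ‖x‖ → ξ x = 0) {h : W → W}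
    (hh : ∀ m, h (m - (1 / 2 : ℝ) • ξ m) = m + (1 / 2 : ℝ) • ξ m) : Isot r h := by
  haveI : FiniteDimensional ℝ W := FiniteDimensional.complexToReal W
  haveI : ProperSpace W := FiniteDimensional.proper ℝ W
  -- the cutoff function: a bump function with `s 0 = 0`, `s 1 = 1`
  obtain ⟨s, hs1, hs2, hs3, hs4, hs5, Cs, hs6⟩ := y2_cut
  -- `ξ` is bounded
  obtain ⟨M, hM0, hM⟩ : ∃ M : ℝ, 0 ≤ M ∧ ∀ x, ‖ξ x‖ ≤ M := by
    obtain ⟨M, hM⟩ := (isCompact_closedBall (0 : W) r).exists_bound_of_continuousOn hs.continuous.continuousOn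
    refine ⟨max M 0, le_max_right _ _, fun x => ?_⟩
    by_cases hx : r ≤ ‖x‖
    · rw [h0 x hx, norm_zero]
      exact le_max_right _ _
    · refine (hM x ?_).trans (le_max_left _ _)
      rw [mem_closedBall_zero_iff]
      exact (not_le.1 hx).le
  -- `ξ` is Lipschitz
  have hL : LipschitzWith 1 ξ := by
    refine lipschitzWith_of_nnnorm_fderiv_le (𝕜 := ℝ) (hs.differentiable (by simp)) fun x => ?_
    rw [← NNReal.coe_le_coe, coe_nnnorm]
    exact (hb x).trans (le_of_eq (by simp))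
  obtain ⟨κ, hκ0, hκ⟩ : ∃ κ : ℝ, 0 < κ ∧ κ * ((Cs : ℝ) * M) ≤ 1 / 2 := by
    have h1 : 0 ≤ (Cs : ℝ) * M := mul_nonneg Cs.2 hM0
    refine ⟨1 / (2 * ((Cs : ℝ) * M + 1)), by positivity, ?_⟩
    rw [div_mul_eq_mul_div, div_le_iff₀ (by positivity)]
    linarith
  obtain ⟨ζ, hζ⟩ : ∃ ζ : ℝ × W → ℝ × W, ζ = fun p => ((0 : ℝ), -((1 / 2 : ℝ) • (s (κ * p.1) • ξ p.2))) := ⟨_, rfl⟩
  have hζx : ∀ t m, ζ (t, m) = ((0 : ℝ), -((1 / 2 : ℝ) • (s (κ * t) • ξ m))) := fun t m => by rw [hζ]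
  have hζs : ContDiff ℝ (⊤ : ℕ∞) ζ := by
    rw [hζ]
    refine contDiff_const.prodMk (ContDiff.neg (contDiff_const.smul ?_))
    exact (hs1.comp (contDiff_const.mul contDiff_fst)).smul (hs.comp contDiff_snd)
  have hζL : LipschitzWith (3 / 4) ζ := by
    refine LipschitzWith.of_dist_le_mul fun p p' => ?_
    obtain ⟨t, m⟩ := p
    obtain ⟨t', m'⟩ := p'
    rw [hζx, hζx, Prod.dist_eq, Prod.dist_eq, dist_self, max_eq_right dist_nonneg]
    have e1 : dist (-((1 / 2 : ℝ) • (s (κ * t) • ξ m))) (-((1 / 2 : ℝ) • (s (κ * t') • ξ m'))) =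
        1 / 2 * ‖s (κ * t) • ξ m - s (κ * t') • ξ m'‖ := by
      rw [dist_neg_neg, dist_eq_norm, ← smul_sub, norm_smul, Real.norm_eq_abs]
      norm_num
    have e2 : s (κ * t) • ξ m - s (κ * t') • ξ m' =
        (s (κ * t) - s (κ * t')) • ξ m + s (κ * t') • (ξ m - ξ m') := by
      rw [sub_smul, smul_sub]
      abel
    have e3 : ‖(s (κ * t) - s (κ * t')) • ξ m‖ ≤ 1 / 2 * dist t t' := by
      rw [norm_smul, Real.norm_eq_abs]
      have h1 : |s (κ * t) - s (κ * t')| ≤ Cs * (κ * dist t t') := by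
        have h2 := hs6.dist_le_mul (κ * t) (κ * t')
        rw [Real.dist_eq, Real.dist_eq, ← mul_sub, abs_mul, abs_of_pos hκ0, ← Real.dist_eq t t'] at h2
        exact h2
      calc |s (κ * t) - s (κ * t')| * ‖ξ m‖ ≤ (Cs * (κ * dist t t')) * M :=
            mul_le_mul h1 (hM m) (norm_nonneg _) ((abs_nonneg _).trans h1)
        _ = (κ * ((Cs : ℝ) * M)) * dist t t' := by ring
        _ ≤ 1 / 2 * dist t t' := mul_le_mul_of_nonneg_right hκ dist_nonneg
    have e4 : ‖s (κ * t') • (ξ m - ξ m')‖ ≤ dist m m' := by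
      rw [norm_smul, Real.norm_eq_abs, abs_of_nonneg (hs2 _), ← dist_eq_norm]
      have h1 := hL.dist_le_mul m m'
      rw [NNReal.coe_one, one_mul] at h1
      calc s (κ * t') * dist (ξ m) (ξ m') ≤ 1 * dist (ξ m) (ξ m') :=
            mul_le_mul_of_nonneg_right (hs3 _) dist_nonneg
        _ ≤ dist m m' := by rw [one_mul]; exact h1
    have e5 : ‖s (κ * t) • ξ m - s (κ * t') • ξ m'‖ ≤ 1 / 2 * dist t t' + dist m m' := by
      rw [e2]
      exact (norm_add_le _ _).trans (add_le_add e3 e4)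
    have e6 : dist t t' ≤ max (dist t t') (dist m m') := le_max_left _ _
    have e7 : dist m m' ≤ max (dist t t') (dist m m') := le_max_right _ _
    have e8 : ((3 / 4 : NNReal) : ℝ) = 3 / 4 := by norm_num
    rw [e1, e8]
    linarith
  obtain ⟨R, hR, hR1, hR2⟩ := perturb_gen (E := ℝ × W) hζs (c := 3 / 4) (by norm_num) (fun x => by
    have h1 := norm_fderiv_le_of_lipschitz ℝ hζL (x₀ := x)
    have e8 : ((3 / 4 : NNReal) : ℝ) = 3 / 4 := by norm_num
    rwa [e8] at h1)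
  have hRt : ∀ t x, (R (t, x)).1 = t := fun t x => by
    have h1 := congrArg Prod.fst (hR2 (t, x))
    have h2 : (ζ (R (t, x))).1 = 0 := by rw [hζ]
    rw [Prod.fst_add, h2, add_zero] at h1
    exact h1
  have hRx : ∀ t x, (R (t, x)).2 - (1 / 2 : ℝ) • (s (κ * t) • ξ (R (t, x)).2) = x := fun t x => by
    have h1 := congrArg Prod.snd (hR2 (t, x))
    have h2 : (ζ (R (t, x))).2 = -((1 / 2 : ℝ) • (s (κ * t) • ξ (R (t, x)).2)) := by
      have h3 : R (t, x) = (t, (R (t, x)).2) := Prod.ext (hRt t x) rfl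
      rw [h3, hζx]
    rw [Prod.snd_add, h2, ← sub_eq_add_neg] at h1
    exact h1
  obtain ⟨ρ, hρ⟩ : ∃ ρ : ℝ → W → W, ρ = fun t x => (R (κ⁻¹ * t, x)).2 := ⟨_, rfl⟩
  have hρx : ∀ t x, ρ t x - (1 / 2 : ℝ) • (s t • ξ (ρ t x)) = x := fun t x => by
    have h1 := hRx (κ⁻¹ * t) x
    rw [mul_inv_cancel_left₀ hκ0.ne'] at h1
    rw [hρ]
    exact h1
  have hρs : ContDiff ℝ (⊤ : ℕ∞) (fun p : ℝ × W => ρ p.1 p.2) := by
    rw [hρ]
    exact contDiff_snd.comp (hR.comp ((contDiff_const.mul contDiff_fst).prodMk contDiff_snd))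
  refine ⟨fun t x => ρ t x + (1 / 2 : ℝ) • (s t • ξ (ρ t x)), ?_, fun t => ?_, fun x => ?_, fun x => ?_⟩
  · exact hρs.add (contDiff_const.smul ((hs1.comp contDiff_fst).smul (hs.comp hρs)))
  · obtain ⟨g, g', hg, -, -, hg4⟩ := cayley (ξ := fun x => s t • ξ x) (contDiff_const.smul hs)
      (fun x => by
        rw [y2_fd hs, norm_smul, Real.norm_eq_abs, abs_of_nonneg (hs2 t)]
        calc s t * ‖fderiv ℝ ξ x‖ ≤ 1 * 1 := mul_le_mul (hs3 t) (hb x) (norm_nonneg _) zero_le_one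
          _ = 1 := one_mul 1)
      (fun x u v => by
        rw [y2_fd hs]
        show om (s t • fderiv ℝ ξ x u) v + om u (s t • fderiv ℝ ξ x v) = 0
        rw [om_smul_left, om_smul_right, ← mul_add, hH, mul_zero])
      (r := r) (fun x hx => by
        show s t • ξ x = 0
        rw [h0 x hx, smul_zero])
    have h1 : (fun x => ρ t x + (1 / 2 : ℝ) • (s t • ξ (ρ t x))) = g := by
      funext x
      have h2 := hg4 (ρ t x)
      have h3 := hρx t x
      calc ρ t x + (1 / 2 : ℝ) • (s t • ξ (ρ t x)) = g (ρ t x - (1 / 2 : ℝ) • (s t • ξ (ρ t x))) := h2.symm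
        _ = g x := by rw [h3]
    show IsSympC r (fun x => ρ t x + (1 / 2 : ℝ) • (s t • ξ (ρ t x)))
    rw [h1]
    exact hg
  · have h1 := hρx 0 x
    rw [hs4, zero_smul, smul_zero, sub_zero] at h1
    show ρ 0 x + (1 / 2 : ℝ) • (s 0 • ξ (ρ 0 x)) = x
    rw [hs4, zero_smul, smul_zero, add_zero, h1]
  · have h1 := hρx 1 x
    rw [hs5, one_smul] at h1
    show ρ 1 x + (1 / 2 : ℝ) • (s 1 • ξ (ρ 1 x)) = h x
    rw [hs5, one_smul, ← hh, h1]

end H88W
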