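import Pool.Agent.Lib.H88W.X10
import Pool.Agent.Lib.H88W.Y2

/-!
# Y3: the components are the local orbits, three equivalent conditions
-/

open Set Metric Topology
open scoped ContDiff

set_option linter.unusedSectionVars false

namespace H88W

variable {W : Type*} [NormedAddCommGroup W] [InnerProductSpace ℂ W] [FiniteDimensional ℂ W]

theorem isot_id (r : ℝ) : Isot r (fun z : W => z) :=
  ⟨fun _ z => z, contDiff_snd, fun _ => isSympC_id r, fun _ => rfl, fun _ => rfl⟩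

theorem Isot.comp {r r' : ℝ} {h Ψ : W → W} (hh : Isot r h) (hΨ : Isot r' Ψ) :
    Isot (max r r') (fun z => h (Ψ z)) := by
  obtain ⟨H, hH, hHs, hH0, hH1⟩ := hh
  obtain ⟨K, hK, hKs, hK0, hK1⟩ := hΨ
  refine ⟨fun t z => H t (K t z), ?_, fun t => (hHs t).comp (hKs t), ?_, ?_⟩
  · exact hH.comp (contDiff_fst.prodMk hK)
  · intro x
    change H 0 (K 0 x) = x
    rw [hK0, hH0]
  · intro x
    change H 1 (K 1 x) = h (Ψ x)
    rw [hK1, hH1]

theorem extend_near_isot {U : Set W} (hU : IsOpen U) (hU1 : U ⊆ ball 0 1) {K : Set W}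
    (hK : IsCompact K) (hKU : K ⊆ U) :
    ∃ ε : ℝ, 0 < ε ∧ ∀ (g : W → W) (F : W → ℝ), Near U ε g → Gen U ε g F →
      ∃ (r : ℝ) (h h' : W → W), r < 1 ∧ IsSympC r h ∧ IsSympC r h' ∧ Isot r h ∧ Isot r h' ∧
        (∀ x, h' (h x) = x) ∧ ∀ x ∈ K, h x = g x := by
  have : FiniteDimensional ℝ W := FiniteDimensional.complexToReal W
  have : ProperSpace W := FiniteDimensional.proper ℝ W
  obtain ⟨χ, hχ, hc, hsub, V, hVo, hKV, hV1⟩ := exists_cutoff hK hU hKU
  obtain ⟨ε₁, hε₁, hfield⟩ := cutoff_field hU hχ hc hsub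
  obtain ⟨δ, hδ, hδV⟩ := hK.exists_cthickening_subset_open hVo hKV
  obtain ⟨r, hr1, hr⟩ := exists_lt_subset_ball (isClosed_tsupport χ) (hsub.trans hU1)
  refine ⟨min ε₁ δ, lt_min hε₁ hδ, fun g F hg hF => ?_⟩
  have hg' : Near U ε₁ g := ⟨hg.smooth, hg.symp, fun x hx => (hg.close x hx).trans (min_le_left _ _),
    fun x hx => (hg.dclose x hx).trans (min_le_left _ _)⟩
  have hF' : Gen U ε₁ g F := ⟨hF.deriv, fun x hx => (hF.small x hx).trans (min_le_left _ _)⟩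
  obtain ⟨ξ, hξ1, hξ2, hξ3, hξ4, hξ5⟩ := hfield g F hg' hF'
  have h0 : ∀ x, r ≤ ‖x‖ → ξ x = 0 := by
    intro x hx
    refine hξ4 x fun hx' => ?_
    have h1 := hr hx'
    rw [mem_ball_zero_iff] at h1
    linarith
  obtain ⟨h, h', hh, hh', hinv, hmid⟩ := cayley hξ1 hξ2 hξ3 h0
  have hiso : Isot r h := isot_of_cayley hξ1 hξ2 hξ3 h0 hmid
  have hfd : ∀ x, fderiv ℝ (fun x => -ξ x) x = -fderiv ℝ ξ x := fun x => fderiv_fun_neg
  have hiso' : Isot r h' := by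
    refine isot_of_cayley (ξ := fun x => -ξ x) hξ1.neg ?_ ?_ ?_ ?_
    · intro x
      rw [hfd, norm_neg]
      exact hξ2 x
    · intro x u v
      have h1 := hξ3 x u v
      have e1 : fderiv ℝ (fun x => -ξ x) x u = (-1 : ℝ) • fderiv ℝ ξ x u := by
        rw [hfd, ContinuousLinearMap.neg_apply, neg_one_smul]
      have e2 : fderiv ℝ (fun x => -ξ x) x v = (-1 : ℝ) • fderiv ℝ ξ x v := by
        rw [hfd, ContinuousLinearMap.neg_apply, neg_one_smul]
      rw [e1, e2, om_smul_left, om_smul_right]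
      linarith
    · intro x hx
      rw [h0 x hx, neg_zero]
    · intro m
      have h1 : m - (1 / 2 : ℝ) • (-ξ m) = m + (1 / 2 : ℝ) • ξ m := by
        rw [smul_neg, sub_neg_eq_add]
      rw [h1, ← hmid m, hinv, smul_neg, ← sub_eq_add_neg]
  refine ⟨r, h, h', hr1, hh, hh', hiso, hiso', hinv, fun x hx => ?_⟩
  have hxU : x ∈ U := hKU hx
  have hclose : ‖g x - x‖ ≤ δ := (hg.close x hxU).trans (min_le_right _ _)
  have hm : mid g x ∈ V := by
    apply hδV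
    apply closedBall_subset_cthickening hx δ
    rw [mem_closedBall, dist_eq_norm]
    unfold mid
    rw [add_sub_cancel_left, norm_smul, Real.norm_of_nonneg (by norm_num)]
    linarith [norm_nonneg (g x - x)]
  have hξm : ξ (mid g x) = g x - x := by
    refine hξ5 x hxU ?_
    filter_upwards [hVo.mem_nhds hm] with y hy
    exact hV1 y hy
  have h1 := hmid (mid g x)
  rw [hξm] at h1
  have e1 : mid g x - (1 / 2 : ℝ) • (g x - x) = x := by
    unfold mid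
    exact add_sub_cancel_right _ _
  have e2 : mid g x + (1 / 2 : ℝ) • (g x - x) = g x := by
    unfold mid
    rw [add_assoc, ← add_smul]
    norm_num
  rw [e1, e2] at h1
  exact h1

/-- Embeddings near `ψ` are, on a smaller ball, compositions of `ψ` with symplectomorphisms of the
space supported in the open unit ball and isotopic to the identity. -/
theorem local_ext_isot {l a : ℝ} (ha : 0 < a) (hal : a < l) (ψ : Emb W l 1) :
    ∀ᶠ φ : Emb W l 1 in 𝓝 ψ, ∃ (r : ℝ) (h h' : W → W), r < 1 ∧ IsSympC r h ∧ IsSympC r h' ∧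
      Isot r h ∧ Isot r h' ∧ (∀ x, h' (h x) = x) ∧ ∀ z ∈ ball (0 : W) a, φ.1 z = h (ψ.1 z) := by
  obtain ⟨b, hab, hbl⟩ := exists_between hal
  have hb : 0 < b := ha.trans hab
  have : ProperSpace W := FiniteDimensional.proper ℂ W
  have hU := image_open hbl.le ψ
  have hU1 : ψ.1 '' ball (0 : W) b ⊆ ball 0 1 := by
    rintro _ ⟨z, hz, rfl⟩
    exact ψ.2.1.maps (ball_subset_ball hbl.le hz)
  have hK : IsCompact (ψ.1 '' closedBall (0 : W) a) :=
    (isCompact_closedBall _ _).image_of_continuousOn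
      (ψ.2.1.smooth.continuousOn.mono (closedBall_subset_ball hal))
  have hKU : ψ.1 '' closedBall (0 : W) a ⊆ ψ.1 '' ball (0 : W) b :=
    image_mono (closedBall_subset_ball hab)
  obtain ⟨ε, hε, hext⟩ := extend_near_isot hU hU1 hK hKU
  filter_upwards [near_of_emb hb hbl ψ hε, gen_of_emb hb hbl ψ hε] with φ h1 h2
  obtain ⟨F, hF⟩ := h2
  obtain ⟨r, h, h', hr, hh, hh', hi, hi', hinv, heq⟩ := hext _ F h1 hF
  refine ⟨r, h, h', hr, hh, hh', hi, hi', hinv, ?_⟩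
  intro z hz
  rw [heq (ψ.1 z) ⟨z, ball_subset_closedBall hz, rfl⟩]
  rw [(G_smooth hb hbl.le ψ).2.1 z (ball_subset_ball hab.le hz)]

theorem related_isot_of_mem {l : ℝ} (ψ₀ ψ₁ : Emb W l 1) (h : ψ₁ ∈ connectedComponent ψ₀) :
    Related ψ₀ ψ₁ fun r Ψ => r < 1 ∧ Isot r Ψ := by
  intro a ha hal
  let S : Set (Emb W l 1) := {φ | ∃ (r : ℝ) (Ψ : W → W), IsSympC r Ψ ∧ (r < 1 ∧ Isot r Ψ) ∧
    ∀ z ∈ ball (0 : W) a, φ.1 z = Ψ (ψ₀.1 z)}
  have hopen : IsOpen S := by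
    rw [isOpen_iff_mem_nhds]
    rintro ψ ⟨r, Ψ, hΨ, ⟨hr, hi⟩, hz⟩
    filter_upwards [local_ext_isot ha hal ψ] with φ hφ
    obtain ⟨r', k, k', hr', hk, hk', hki, hki', hinv, heq⟩ := hφ
    refine ⟨max r' r, _, hk.comp hΨ, ⟨max_lt hr' hr, hki.comp hi⟩, ?_⟩
    intro z hza
    rw [heq z hza, hz z hza]
  have hclosed : IsClosed S := by
    rw [isClosed_iff_frequently]
    intro ψ hψ
    obtain ⟨φ, ⟨r, Ψ, hΨ, ⟨hr, hi⟩, hz⟩, r', k, k', hr', hk, hk', hki, hki', hinv, heq⟩ :=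
      (hψ.and_eventually (local_ext_isot ha hal ψ)).exists
    refine ⟨max r' r, _, hk'.comp hΨ, ⟨max_lt hr' hr, hki'.comp hi⟩, ?_⟩
    intro z hza
    change ψ.1 z = k' (Ψ (ψ₀.1 z))
    rw [← hz z hza, heq z hza, hinv]
  have h0 : ψ₀ ∈ S := ⟨0, _, isSympC_id 0, ⟨one_pos, isot_id 0⟩, fun z _ => rfl⟩
  exact IsClopen.connectedComponent_subset ⟨hclosed, hopen⟩ h0 h

/-- **Components are local orbits**, with symplectomorphisms isotopic to the identity. -/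
theorem mem_component_iff_isot {l : ℝ} (hl : 0 < l) (ψ₀ ψ₁ : Emb W l 1) :
    ψ₁ ∈ connectedComponent ψ₀ ↔ Related ψ₀ ψ₁ fun r Ψ => r < 1 ∧ Isot r Ψ := by
  refine ⟨related_isot_of_mem ψ₀ ψ₁, fun h => ?_⟩
  refine action_all hl ψ₀ ψ₁ fun a ha hal => ?_
  obtain ⟨r, Ψ, hΨ, ⟨hr, -⟩, hz⟩ := h a ha hal
  exact ⟨r, Ψ, hr, hΨ, hz⟩

end H88W
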