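import Pool.Agent.Lib.H88W.Y3

/-!
# Z1: the components are detected on smaller balls

`res` is the restriction to a smaller ball. Two embeddings are in one component if and only if their
restrictions to all smaller balls are.
-/

open Set Metric Topology
open scoped ContDiff

set_option linter.unusedSectionVars false

namespace H88W

variable {W : Type*} [NormedAddCommGroup W] [InnerProductSpace ℂ W] [FiniteDimensional ℂ W]

theorem isEmb_res {a l b : ℝ} (h : a ≤ l) {ψ : W → W} (hψ : IsEmb l b ψ) :
    IsEmb a b (indicator (ball 0 a) ψ) := by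
  have hsub : ball (0 : W) a ⊆ ball 0 l := ball_subset_ball h
  have hev : ∀ z ∈ ball (0 : W) a, indicator (ball (0 : W) a) ψ =ᶠ[𝓝 z] ψ := by
    intro z hz
    filter_upwards [isOpen_ball.mem_nhds hz] with y hy
    exact indicator_of_mem hy _
  refine ⟨?_, ?_, ?_, ?_⟩
  · exact (hψ.smooth.mono hsub).congr fun z hz => indicator_of_mem hz _
  · intro x hx y hy hxy
    rw [indicator_of_mem hx, indicator_of_mem hy] at hxy
    exact hψ.inj (hsub hx) (hsub hy) hxy
  · intro z hz
    rw [indicator_of_mem hz]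
    exact hψ.maps (hsub hz)
  · intro z hz
    rw [(hev z hz).fderiv_eq]
    exact hψ.symp z (hsub hz)

/-- The restriction of an embedding to the ball of radius `a`. -/
noncomputable def res {a l b : ℝ} (h : a ≤ l) (ψ : Emb W l b) : Emb W a b :=
  ⟨indicator (ball 0 a) ψ.1, isEmb_res h ψ.2.1, fun _ hz => indicator_of_notMem hz _⟩

theorem res_apply {a l b : ℝ} (h : a ≤ l) (ψ : Emb W l b) {z : W} (hz : z ∈ ball (0 : W) a) :
    (res h ψ).1 z = ψ.1 z := indicator_of_mem hz _

theorem continuous_res {a l b : ℝ} (h : a ≤ l) : Continuous (res h : Emb W l b → Emb W a b) := by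
  apply continuous_emb
  intro k
  let ι : C(ball (0 : W) a, ball (0 : W) l) :=
    ⟨Set.inclusion (ball_subset_ball h), continuous_inclusion _⟩
  have h1 : ∀ ψ : Emb W l b, jet k (res h ψ) = (jet k ψ).comp ι := by
    intro ψ
    ext1 z
    have hev : (res h ψ).1 =ᶠ[𝓝 (z : W)] ψ.1 := by
      filter_upwards [isOpen_ball.mem_nhds z.2] with y hy
      exact res_apply h ψ hy
    exact (hev.iteratedFDeriv ℝ k).eq_of_nhds
  have h2 : Continuous fun ψ : Emb W l b => (jet k ψ).comp ι :=
    (ContinuousMap.continuous_precomp ι).comp (continuous_jet k)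
  exact h2.congr fun ψ => (h1 ψ).symm

/-- **Components are detected on smaller balls.** -/
theorem mem_component_iff_res {l : ℝ} (hl : 0 < l) (ψ₀ ψ₁ : Emb W l 1) :
    ψ₁ ∈ connectedComponent ψ₀ ↔
      ∀ (a : ℝ) (hal : a < l), 0 < a → res hal.le ψ₁ ∈ connectedComponent (res hal.le ψ₀) := by
  constructor
  · intro h a hal _
    exact (continuous_res hal.le).image_connectedComponent_subset ψ₀ ⟨ψ₁, h, rfl⟩
  · intro h
    refine (mem_component_iff hl ψ₀ ψ₁).2 fun a ha hal => ?_
    obtain ⟨b, hab, hbl⟩ := exists_between hal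
    obtain ⟨r, Ψ, hΨ, hr, hz⟩ :=
      (mem_component_iff (ha.trans hab) _ _).1 (h b hbl (ha.trans hab)) a ha hab
    refine ⟨r, Ψ, hΨ, hr, fun z hza => ?_⟩
    have hzb : z ∈ ball (0 : W) b := ball_subset_ball hab.le hza
    have h1 := hz z hza
    rwa [res_apply hbl.le ψ₁ hzb, res_apply hbl.le ψ₀ hzb] at h1

/-- The set of radii with a connected space is closed under increasing limits. -/
theorem connected_of_near {l : ℝ} (hl : 0 < l) (hl1 : l ≤ 1)
    (h : ∀ a < l, ∃ b, a < b ∧ b < l ∧ ConnectedSpace (Emb W b 1)) : ConnectedSpace (Emb W l 1) := by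
  have h1 : ∀ ψ₀ ψ₁ : Emb W l 1, ψ₁ ∈ connectedComponent ψ₀ := by
    intro ψ₀ ψ₁
    refine (mem_component_iff_res hl ψ₀ ψ₁).2 fun a hal ha => ?_
    obtain ⟨b, hab, hbl, hb⟩ := h a hal
    have h2 : res hbl.le ψ₁ ∈ connectedComponent (res hbl.le ψ₀) := by
      rw [PreconnectedSpace.connectedComponent_eq_univ]
      trivial
    have h3 := (mem_component_iff_res (ha.trans hab) _ _).1 h2 a hab ha
    have e : ∀ ψ : Emb W l 1, res hab.le (res hbl.le ψ) = res hal.le ψ := by
      intro ψ
      apply Subtype.ext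
      funext z
      by_cases hz : z ∈ ball (0 : W) a
      · rw [res_apply hab.le _ hz, res_apply hbl.le _ (ball_subset_ball hab.le hz),
          res_apply hal.le _ hz]
      · rw [(res hab.le (res hbl.le ψ)).2.2 z hz, (res hal.le ψ).2.2 z hz]
    rwa [e, e] at h3
  have : PreconnectedSpace (Emb W l 1) := ⟨by
    rw [← (eq_univ_of_forall (h1 (incl hl1)) : connectedComponent (incl (W := W) hl1) = univ)]
    exact isPreconnected_connectedComponent⟩
  exact { toNonempty := ⟨incl hl1⟩ }

end H88W
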