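import Pool.Agent.Lib.H88W.Z1

/-!
# Z2: the components are detected in larger balls

`wid` is the inclusion of the embeddings in the ball of radius `1` in those in the ball of radius `R`.
Two embeddings in the unit ball are in one component if and only if they are in one component of the
embeddings in the ball of radius `R`, for all `R > 1`.

Proof. `φ ↦ R⁻¹ φ (R ·)` is a continuous map from the embeddings of `B(l)` in `B(R)` to the embeddings of
`B(l / R)` in `B(1)`; for an embedding `ψ` in the unit ball the path `s ↦ s⁻¹ ψ (s ·)`, `1 ≤ s ≤ R`, joins the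
image of `ψ` to the restriction of `ψ` to `B(l / R)`. So the restrictions to `B(l / R)` are in one component
for all `R > 1`, and Z1 applies.
-/

open Set Metric Topology
open scoped ContDiff

set_option linter.unusedSectionVars false

namespace H88W

variable {W : Type*} [NormedAddCommGroup W] [InnerProductSpace ℂ W] [FiniteDimensional ℂ W]

/-- An embedding in the ball of radius `b` is one in the ball of radius `c`, `b ≤ c`. -/
def wid {a b c : ℝ} (h : b ≤ c) (ψ : Emb W a b) : Emb W a c :=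
  ⟨ψ.1, ⟨ψ.2.1.smooth, ψ.2.1.inj, fun _ hz => ball_subset_ball h (ψ.2.1.maps hz), ψ.2.1.symp⟩,
    ψ.2.2⟩

theorem continuous_wid {a b c : ℝ} (h : b ≤ c) : Continuous (wid h : Emb W a b → Emb W a c) := by
  apply continuous_emb
  intro k
  exact continuous_jet k

/-- The rescaled map `z ↦ s⁻¹ ψ (s z)` on the ball of radius `a`. -/
noncomputable def rsc (a : ℝ) (s : ℝ) (ψ : W → W) : W → W :=
  indicator (ball 0 a) fun z => s⁻¹ • ψ (s • z)

theorem isEmb_rsc {a l b c s : ℝ} (hs : 0 < s) (hl : s * a ≤ l) (hb : b ≤ s * c) {ψ : W → W}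
    (hψ : IsEmb l b ψ) : IsEmb a c (rsc a s ψ) := by
  have hsub : ∀ z ∈ ball (0 : W) a, s • z ∈ ball (0 : W) l := by
    intro z hz
    rw [mem_ball_zero_iff] at hz ⊢
    rw [norm_smul, Real.norm_of_nonneg hs.le]
    exact (mul_lt_mul_of_pos_left hz hs).trans_le hl
  have hev : ∀ z ∈ ball (0 : W) a, rsc a s ψ =ᶠ[𝓝 z] fun z => s⁻¹ • ψ (s • z) := by
    intro z hz
    filter_upwards [isOpen_ball.mem_nhds hz] with y hy
    exact indicator_of_mem hy _
  have hat : ∀ z ∈ ball (0 : W) a, ContDiffAt ℝ (⊤ : ℕ∞) ψ (s • z) := fun z hz =>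
    hψ.smooth.contDiffAt (isOpen_ball.mem_nhds (hsub z hz))
  refine ⟨?_, ?_, ?_, ?_⟩
  · intro z hz
    have h2 : ContDiffAt ℝ (⊤ : ℕ∞) (fun z : W => s • z) z := (contDiff_const_smul s).contDiffAt
    have h3 : ContDiffAt ℝ (⊤ : ℕ∞) (fun z => s⁻¹ • ψ (s • z)) z :=
      (ContDiffAt.comp (g := ψ) (f := fun z : W => s • z) z (hat z hz) h2).const_smul s⁻¹
    exact (h3.congr_of_eventuallyEq (hev z hz)).contDiffWithinAt
  · intro x hx y hy hxy
    unfold rsc at hxy
    rw [indicator_of_mem hx, indicator_of_mem hy] at hxy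
    have h1 := smul_right_injective W (inv_ne_zero hs.ne') hxy
    exact smul_right_injective W hs.ne' (hψ.inj (hsub x hx) (hsub y hy) h1)
  · intro z hz
    unfold rsc
    rw [indicator_of_mem hz, mem_ball_zero_iff, norm_smul, norm_inv, Real.norm_of_nonneg hs.le,
      inv_mul_lt_iff₀ hs]
    exact (mem_ball_zero_iff.1 (hψ.maps (hsub z hz))).trans_le hb
  · intro z hz
    rw [(hev z hz).fderiv_eq]
    have h1 : HasFDerivAt ψ (fderiv ℝ ψ (s • z)) (s • z) :=
      ((hat z hz).differentiableAt (by simp)).hasFDerivAt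
    have h2 : HasFDerivAt (fun z : W => s • z) (s • ContinuousLinearMap.id ℝ W) z :=
      (hasFDerivAt_id z).const_smul s
    have h3 : HasFDerivAt (fun z => s⁻¹ • ψ (s • z))
        (s⁻¹ • (fderiv ℝ ψ (s • z)).comp (s • ContinuousLinearMap.id ℝ W)) z :=
      (HasFDerivAt.comp z h1 h2).const_smul s⁻¹
    have h4 : s⁻¹ • (fderiv ℝ ψ (s • z)).comp (s • ContinuousLinearMap.id ℝ W) =
        fderiv ℝ ψ (s • z) := by
      ext v
      simp [smul_smul, hs.ne']
    rw [h3.fderiv, h4]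
    exact hψ.symp _ (hsub z hz)

/-- The rescaling of embeddings. -/
noncomputable def rscEmb {a l b c : ℝ} (s : ℝ) (hs : 0 < s) (hl : s * a ≤ l) (hb : b ≤ s * c)
    (ψ : Emb W l b) : Emb W a c :=
  ⟨rsc a s ψ.1, isEmb_rsc hs hl hb ψ.2.1, fun _ hz => indicator_of_notMem hz _⟩

theorem rscEmb_apply {a l b c : ℝ} (s : ℝ) (hs : 0 < s) (hl : s * a ≤ l) (hb : b ≤ s * c)
    (ψ : Emb W l b) {z : W} (hz : z ∈ ball (0 : W) a) :
    (rscEmb s hs hl hb ψ : Emb W a c).1 z = s⁻¹ • ψ.1 (s • z) := by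
  change rsc a s ψ.1 z = _
  exact indicator_of_mem hz _

theorem jet_rscEmb {a l b c : ℝ} (s : ℝ) (hs : 0 < s) (hl : s * a ≤ l) (hb : b ≤ s * c)
    (ψ : Emb W l b) (k : ℕ) (z : ball (0 : W) a) (hz : s • (z : W) ∈ ball (0 : W) l) :
    jet k (rscEmb s hs hl hb ψ : Emb W a c) z =
      (s⁻¹ * s ^ k) • jet k ψ ⟨s • (z : W), hz⟩ := by
  have hev : (rscEmb s hs hl hb ψ : Emb W a c).1 =ᶠ[𝓝 (z : W)] fun z => s⁻¹ • ψ.1 (s • z) := by
    filter_upwards [isOpen_ball.mem_nhds z.2] with y hy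
    exact rscEmb_apply s hs hl hb ψ hy
  have h1 : jet k (rscEmb s hs hl hb ψ : Emb W a c) z =
      iteratedFDeriv ℝ k (fun z => s⁻¹ • ψ.1 (s • z)) (z : W) :=
    (hev.iteratedFDeriv ℝ k).eq_of_nhds
  have hat : ContDiffAt ℝ (⊤ : ℕ∞) ψ.1 (s • (z : W)) :=
    ψ.2.1.smooth.contDiffAt (isOpen_ball.mem_nhds hz)
  have h2 : ContDiffAt ℝ (⊤ : ℕ∞) (fun z => ψ.1 (s • z)) (z : W) :=
    hat.comp (z : W) (contDiffAt_id.const_smul s)
  have hk' : ((k : ℕ∞) : WithTop ℕ∞) ≤ ((⊤ : ℕ∞) : WithTop ℕ∞) := by exact_mod_cast le_top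
  rw [h1, iteratedFDeriv_const_smul_apply' (h2.of_le hk'), iteratedFDeriv_comp_scale hs,
    smul_smul]
  rfl

theorem continuous_rscEmb {a l b c : ℝ} (s : ℝ) (hs : 0 < s) (hl : s * a ≤ l) (hb : b ≤ s * c) :
    Continuous (rscEmb s hs hl hb : Emb W l b → Emb W a c) := by
  apply continuous_emb
  intro k
  have hsub : ∀ z : ball (0 : W) a, s • (z : W) ∈ ball (0 : W) l := by
    intro z
    have hz := mem_ball_zero_iff.1 z.2
    rw [mem_ball_zero_iff, norm_smul, Real.norm_of_nonneg hs.le]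
    exact (mul_lt_mul_of_pos_left hz hs).trans_le hl
  let ι : C(ball (0 : W) a, ball (0 : W) l) :=
    ⟨fun z => ⟨s • (z : W), hsub z⟩, (continuous_subtype_val.const_smul s).subtype_mk _⟩
  let L : C(ContinuousMultilinearMap ℝ (fun _ : Fin k => W) W,
      ContinuousMultilinearMap ℝ (fun _ : Fin k => W) W) :=
    ⟨fun x => (s⁻¹ * s ^ k) • x, continuous_const_smul _⟩
  have h1 : ∀ ψ : Emb W l b, jet k (rscEmb s hs hl hb ψ : Emb W a c) =
      L.comp ((jet k ψ).comp ι) := by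
    intro ψ
    ext1 z
    exact jet_rscEmb s hs hl hb ψ k z (hsub z)
  have h2 : Continuous fun ψ : Emb W l b => L.comp ((jet k ψ).comp ι) :=
    (ContinuousMap.continuous_postcomp _).comp
      ((ContinuousMap.continuous_precomp ι).comp (continuous_jet k))
  exact h2.congr fun ψ => (h1 ψ).symm

/-- The rescalings of an embedding are in one component with its restriction. -/
theorem rsc_component {l a s : ℝ} (ha : 0 < a) (hs : 1 ≤ s) (hl : s * a ≤ l) (hal : a ≤ l)
    (ψ : Emb W l 1) :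
    rscEmb s (one_pos.trans_le hs) hl (by linarith) ψ ∈ connectedComponent (res hal ψ) := by
  have hs1 : ∀ t ∈ Icc (1 : ℝ) s, 0 < t := fun t ht => one_pos.trans_le ht.1
  have hl1 : ∀ t ∈ Icc (1 : ℝ) s, t * a ≤ l := fun t ht =>
    (mul_le_mul_of_nonneg_right ht.2 ha.le).trans hl
  have hb1 : ∀ t ∈ Icc (1 : ℝ) s, (1 : ℝ) ≤ t * 1 := fun t ht => by linarith [ht.1]
  let f : Icc (1 : ℝ) s → Emb W a 1 := fun t =>
    rscEmb t.1 (hs1 t t.2) (hl1 t t.2) (hb1 t t.2) ψ
  have hf : Continuous f := by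
    refine continuous_family (F := fun (t : ℝ) (z : W) => t⁻¹ • ψ.1 (t • z)) ?_ ?_
    · intro t ht z hz
      have hz' : t • z ∈ ball (0 : W) l := by
        rw [mem_ball_zero_iff] at hz ⊢
        rw [norm_smul, Real.norm_of_nonneg (hs1 t ht).le]
        exact (mul_lt_mul_of_pos_left hz (hs1 t ht)).trans_le (hl1 t ht)
      have e1 : ContDiffAt ℝ (⊤ : ℕ∞) (fun q : ℝ × W => q.1 • q.2) (t, z) :=
        (contDiff_fst.smul contDiff_snd).contDiffAt
      have e2 : ContDiffAt ℝ (⊤ : ℕ∞) (fun q : ℝ × W => ψ.1 (q.1 • q.2)) (t, z) :=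
        ContDiffAt.comp (g := ψ.1) (f := fun q : ℝ × W => q.1 • q.2) (t, z)
          (ψ.2.1.smooth.contDiffAt (isOpen_ball.mem_nhds hz')) e1
      have e3 : ContDiffAt ℝ (⊤ : ℕ∞) (fun q : ℝ × W => q.1) (t, z) := contDiffAt_fst
      exact (e3.inv (hs1 t ht).ne').smul e2
    · intro t z hz
      exact rscEmb_apply _ _ _ _ ψ hz
  have : PreconnectedSpace (Icc (1 : ℝ) s) :=
    isPreconnected_iff_preconnectedSpace.1 isPreconnected_Icc
  have hpre := isPreconnected_range hf
  have h0 : f ⟨1, left_mem_Icc.2 hs⟩ = res hal ψ := by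
    apply Subtype.ext
    funext z
    by_cases hz : z ∈ ball (0 : W) a
    · rw [res_apply hal ψ hz]
      refine (rscEmb_apply _ _ _ _ ψ hz).trans ?_
      rw [inv_one, one_smul, one_smul]
    · rw [(f ⟨1, left_mem_Icc.2 hs⟩).2.2 z hz, (res hal ψ).2.2 z hz]
  rw [← h0]
  exact hpre.subset_connectedComponent ⟨_, rfl⟩ ⟨⟨s, right_mem_Icc.2 hs⟩, rfl⟩

/-- **Components are detected in larger balls.** -/
theorem mem_component_iff_wid {l : ℝ} (hl : 0 < l) (ψ₀ ψ₁ : Emb W l 1) :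
    ψ₁ ∈ connectedComponent ψ₀ ↔
      ∀ (R : ℝ) (hR : 1 < R), wid hR.le ψ₁ ∈ connectedComponent (wid hR.le ψ₀) := by
  constructor
  · intro h R hR
    exact (continuous_wid hR.le).image_connectedComponent_subset ψ₀ ⟨ψ₁, h, rfl⟩
  · intro h
    refine (mem_component_iff_res hl ψ₀ ψ₁).2 fun a hal ha => ?_
    have hR : 1 < l / a := (one_lt_div ha).2 hal
    have hR0 : 0 < l / a := one_pos.trans hR
    have e1 : l / a * a ≤ l := (div_mul_cancel₀ l ha.ne').le
    have e2 : l / a ≤ l / a * 1 := by rw [mul_one]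
    have h1 := (continuous_rscEmb (W := W) (l / a) hR0 e1 e2).image_connectedComponent_subset
      (wid hR.le ψ₀) ⟨_, h _ hR, rfl⟩
    have h2 : ∀ ψ : Emb W l 1, rscEmb (l / a) hR0 e1 e2 (wid hR.le ψ) =
        rscEmb (l / a) (one_pos.trans_le hR.le) e1 (by linarith) ψ := fun ψ => rfl
    rw [h2, h2] at h1
    have h3 := rsc_component ha hR.le e1 hal.le ψ₀
    have h4 := rsc_component ha hR.le e1 hal.le ψ₁
    have h5 := connectedComponent_eq h3
    have h6 := connectedComponent_eq h4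
    have h7 := connectedComponent_eq h1
    rw [h5, h7, ← h6]
    exact mem_connectedComponent

end H88W
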