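import Pool.Agent.Lib.H88W.Z2

/-!
# Z3: components and isotopies on smaller balls and in larger balls

Two embeddings of `B(l)` in the unit ball are in one component if and only if for all `a < l` their
restrictions to `B(a)` are joined by a path of embeddings in the unit ball, and if and only if for all
`R > 1` they are joined by a path of embeddings of `B(l)` in the ball of radius `R`.
-/

open Set Metric Topology
open scoped ContDiff

set_option linter.unusedSectionVars false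

namespace H88W

variable {W : Type*} [NormedAddCommGroup W] [InnerProductSpace ℂ W] [FiniteDimensional ℂ W]

theorem emb_ext {a b : ℝ} {f g : Emb W a b} (h : ∀ z ∈ ball (0 : W) a, f.1 z = g.1 z) : f = g := by
  apply Subtype.ext
  funext z
  by_cases hz : z ∈ ball (0 : W) a
  · exact h z hz
  · rw [f.2.2 z hz, g.2.2 z hz]

theorem IsSympC.norm_lt_one {r : ℝ} {Ψ : W → W} (h : IsSympC r Ψ) (hr : r ≤ 1) {z : W}
    (hz : ‖z‖ < 1) : ‖Ψ z‖ < 1 := (h.mono hr).norm_lt hz

theorem isEmb_push {a r : ℝ} {Ψ : W → W} (h : IsSympC r Ψ) (hr : r ≤ 1) {φ : W → W}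
    (hφ : IsEmb a 1 φ) : IsEmb a 1 (indicator (ball 0 a) fun z => Ψ (φ z)) := by
  have hev : ∀ z ∈ ball (0 : W) a,
      indicator (ball (0 : W) a) (fun z => Ψ (φ z)) =ᶠ[𝓝 z] fun z => Ψ (φ z) := by
    intro z hz
    filter_upwards [isOpen_ball.mem_nhds hz] with y hy
    exact indicator_of_mem hy _
  have hat : ∀ z ∈ ball (0 : W) a, ContDiffAt ℝ (⊤ : ℕ∞) φ z := fun z hz =>
    hφ.smooth.contDiffAt (isOpen_ball.mem_nhds hz)
  refine ⟨?_, ?_, ?_, ?_⟩
  · intro z hz
    have h3 : ContDiffAt ℝ (⊤ : ℕ∞) (fun z => Ψ (φ z)) z :=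
      ContDiffAt.comp (g := Ψ) (f := φ) z h.smooth.contDiffAt (hat z hz)
    exact (h3.congr_of_eventuallyEq (hev z hz)).contDiffWithinAt
  · intro x hx y hy hxy
    rw [indicator_of_mem hx, indicator_of_mem hy] at hxy
    exact hφ.inj hx hy (h.inj hxy)
  · intro z hz
    rw [indicator_of_mem hz, mem_ball_zero_iff]
    exact h.norm_lt_one hr (mem_ball_zero_iff.1 (hφ.maps hz))
  · intro z hz
    rw [(hev z hz).fderiv_eq]
    have h1 : HasFDerivAt Ψ (fderiv ℝ Ψ (φ z)) (φ z) :=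
      (h.smooth.differentiable (by simp)).differentiableAt.hasFDerivAt
    have h2 : HasFDerivAt φ (fderiv ℝ φ z) z :=
      ((hat z hz).differentiableAt (by simp)).hasFDerivAt
    have h3 : HasFDerivAt (fun z => Ψ (φ z)) ((fderiv ℝ Ψ (φ z)).comp (fderiv ℝ φ z)) z :=
      HasFDerivAt.comp z h1 h2
    rw [h3.fderiv]
    intro u v
    rw [ContinuousLinearMap.comp_apply, ContinuousLinearMap.comp_apply, h.symp, hφ.symp z hz]

/-- An isotopy supported in the unit ball gives a path of embeddings. -/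
theorem joined_of_isot {a r : ℝ} {Ψ : W → W} (hr : r ≤ 1) (hi : Isot r Ψ) (φ₀ φ₁ : Emb W a 1)
    (h : ∀ z ∈ ball (0 : W) a, φ₁.1 z = Ψ (φ₀.1 z)) : Joined φ₀ φ₁ := by
  obtain ⟨H, hH, hHs, hH0, hH1⟩ := hi
  let f : Icc (0 : ℝ) 1 → Emb W a 1 := fun t =>
    ⟨indicator (ball 0 a) fun z => H t.1 (φ₀.1 z), isEmb_push (hHs t.1) hr φ₀.2.1,
      fun _ hz => indicator_of_notMem hz _⟩
  have hfz : ∀ t : Icc (0 : ℝ) 1, ∀ z ∈ ball (0 : W) a, (f t).1 z = H t.1 (φ₀.1 z) := by
    intro t z hz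
    change indicator (ball 0 a) (fun z => H t.1 (φ₀.1 z)) z = _
    rw [indicator_of_mem hz]
  have hf : Continuous f := by
    refine continuous_family (F := fun (t : ℝ) (z : W) => H t (φ₀.1 z)) ?_ hfz
    intro t _ z hz
    have e1 : ContDiffAt ℝ (⊤ : ℕ∞) (fun q : ℝ × W => φ₀.1 q.2) (t, z) :=
      ContDiffAt.comp (g := φ₀.1) (f := fun q : ℝ × W => q.2) (t, z)
        (φ₀.2.1.smooth.contDiffAt (isOpen_ball.mem_nhds hz)) contDiffAt_snd
    have e2 : ContDiffAt ℝ (⊤ : ℕ∞) (fun q : ℝ × W => (q.1, φ₀.1 q.2)) (t, z) :=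
      contDiffAt_fst.prodMk e1
    exact ContDiffAt.comp (g := Function.uncurry H) (f := fun q : ℝ × W => (q.1, φ₀.1 q.2)) (t, z)
      hH.contDiffAt e2
  refine ⟨{ toFun := f
            continuous_toFun := hf
            source' := ?_
            target' := ?_ }⟩
  · apply emb_ext
    intro z hz
    rw [hfz _ z hz]
    exact hH0 _
  · apply emb_ext
    intro z hz
    rw [hfz _ z hz, h z hz]
    exact hH1 _

/-- The rescalings of an embedding are joined by paths. -/
theorem joined_rsc {a l b c s t : ℝ} (ha : 0 ≤ a) (hc : 0 ≤ c) (hs : 0 < s) (hst : s ≤ t)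
    (hl : t * a ≤ l) (hl' : s * a ≤ l) (hb : b ≤ s * c) (hb' : b ≤ t * c) (ψ : Emb W l b) :
    Joined (rscEmb s hs hl' hb ψ : Emb W a c) (rscEmb t (hs.trans_le hst) hl hb' ψ) := by
  have hs1 : ∀ u ∈ Icc s t, 0 < u := fun u hu => hs.trans_le hu.1
  have hl1 : ∀ u ∈ Icc s t, u * a ≤ l := fun u hu =>
    (mul_le_mul_of_nonneg_right hu.2 ha).trans hl
  have hb1 : ∀ u ∈ Icc s t, b ≤ u * c := fun u hu =>
    hb.trans (mul_le_mul_of_nonneg_right hu.1 hc)
  let f : Icc s t → Emb W a c := fun u => rscEmb u.1 (hs1 u u.2) (hl1 u u.2) (hb1 u u.2) ψ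
  have hf : Continuous f := by
    refine continuous_family (F := fun (t : ℝ) (z : W) => t⁻¹ • ψ.1 (t • z)) ?_ ?_
    · intro u hu z hz
      have hz' : u • z ∈ ball (0 : W) l := by
        rw [mem_ball_zero_iff] at hz ⊢
        rw [norm_smul, Real.norm_of_nonneg (hs1 u hu).le]
        exact (mul_lt_mul_of_pos_left hz (hs1 u hu)).trans_le (hl1 u hu)
      have e1 : ContDiffAt ℝ (⊤ : ℕ∞) (fun q : ℝ × W => q.1 • q.2) (u, z) :=
        (contDiff_fst.smul contDiff_snd).contDiffAt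
      have e2 : ContDiffAt ℝ (⊤ : ℕ∞) (fun q : ℝ × W => ψ.1 (q.1 • q.2)) (u, z) :=
        ContDiffAt.comp (g := ψ.1) (f := fun q : ℝ × W => q.1 • q.2) (u, z)
          (ψ.2.1.smooth.contDiffAt (isOpen_ball.mem_nhds hz')) e1
      have e3 : ContDiffAt ℝ (⊤ : ℕ∞) (fun q : ℝ × W => q.1) (u, z) := contDiffAt_fst
      exact (e3.inv (hs1 u hu).ne').smul e2
    · intro u z hz
      exact rscEmb_apply _ _ _ _ ψ hz
  let γ : unitInterval → Icc s t := fun x =>
    ⟨s + x.1 * (t - s), by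
      constructor
      · nlinarith [x.2.1, sub_nonneg.2 hst]
      · nlinarith [x.2.2, sub_nonneg.2 hst]⟩
  have hγ : Continuous γ := by
    apply Continuous.subtype_mk
    fun_prop
  refine ⟨{ toFun := fun x => f (γ x)
            continuous_toFun := hf.comp hγ
            source' := ?_
            target' := ?_ }⟩
  · have h0 : (γ 0).1 = s := by
      change s + (0 : ℝ) * (t - s) = s
      ring
    apply emb_ext
    intro z hz
    refine (rscEmb_apply _ _ _ _ ψ hz).trans ?_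
    rw [h0, rscEmb_apply _ _ _ _ ψ hz]
  · have h1 : (γ 1).1 = t := by
      change s + (1 : ℝ) * (t - s) = t
      ring
    apply emb_ext
    intro z hz
    refine (rscEmb_apply _ _ _ _ ψ hz).trans ?_
    rw [h1, rscEmb_apply _ _ _ _ ψ hz]

theorem joined_mem_component {X : Type*} [TopologicalSpace X] {x y : X} (h : Joined x y) :
    y ∈ connectedComponent x := pathComponent_subset_component x h

theorem joined_res_of_mem {l : ℝ} (ψ₀ ψ₁ : Emb W l 1) (h : ψ₁ ∈ connectedComponent ψ₀) {a : ℝ}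
    (ha : 0 < a) (hal : a < l) : Joined (res hal.le ψ₀) (res hal.le ψ₁) := by
  obtain ⟨r, Ψ, -, ⟨hr, hi⟩, hz⟩ := related_isot_of_mem ψ₀ ψ₁ h a ha hal
  refine joined_of_isot hr.le hi _ _ fun z hza => ?_
  rw [res_apply hal.le ψ₁ hza, res_apply hal.le ψ₀ hza, hz z hza]

/-- **Components are isotopy classes on smaller balls.** -/
theorem mem_component_iff_joined_res {l : ℝ} (hl : 0 < l) (ψ₀ ψ₁ : Emb W l 1) :
    ψ₁ ∈ connectedComponent ψ₀ ↔
      ∀ (a : ℝ) (h : a < l), 0 < a → Joined (res h.le ψ₀) (res h.le ψ₁) := by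
  refine ⟨fun h a hal ha => joined_res_of_mem ψ₀ ψ₁ h ha hal, fun h => ?_⟩
  exact (mem_component_iff_res hl ψ₀ ψ₁).2 fun a hal ha => joined_mem_component (h a hal ha)

/-- **Components are isotopy classes in larger balls.** -/
theorem mem_component_iff_joined_wid {l : ℝ} (hl : 0 < l) (ψ₀ ψ₁ : Emb W l 1) :
    ψ₁ ∈ connectedComponent ψ₀ ↔
      ∀ (R : ℝ) (h : 1 < R), Joined (wid h.le ψ₀) (wid h.le ψ₁) := by
  constructor
  · intro h R hR
    have hR0 : 0 < R := one_pos.trans hR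
    have hRi : 0 < R⁻¹ := inv_pos.2 hR0
    have hRi1 : R⁻¹ ≤ 1 := inv_le_one_of_one_le₀ hR.le
    have ha : 0 < R⁻¹ * l := mul_pos hRi hl
    have hal : R⁻¹ * l < l := mul_lt_of_lt_one_left hl (inv_lt_one_of_one_lt₀ hR)
    have hc : (1 : ℝ) ≤ R⁻¹ * R := (inv_mul_cancel₀ hR0.ne').ge
    obtain ⟨γ⟩ := joined_res_of_mem ψ₀ ψ₁ h ha hal
    have h1 : Joined (rscEmb R⁻¹ hRi le_rfl hc (res hal.le ψ₀) : Emb W l R)
        (rscEmb R⁻¹ hRi le_rfl hc (res hal.le ψ₁)) :=
      ⟨γ.map (continuous_rscEmb R⁻¹ hRi le_rfl hc)⟩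
    have h2 : ∀ ψ : Emb W l 1, (rscEmb R⁻¹ hRi le_rfl hc (res hal.le ψ) : Emb W l R) =
        rscEmb R⁻¹ hRi hal.le hc ψ := by
      intro ψ
      apply emb_ext
      intro z hz
      rw [rscEmb_apply _ _ _ _ _ hz, rscEmb_apply _ _ _ _ _ hz, res_apply hal.le ψ]
      rw [mem_ball_zero_iff] at hz ⊢
      rw [norm_smul, Real.norm_of_nonneg hRi.le]
      exact mul_lt_mul_of_pos_left hz hRi
    have h3 : ∀ ψ : Emb W l 1, Joined (rscEmb R⁻¹ hRi hal.le hc ψ : Emb W l R) (wid hR.le ψ) := by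
      intro ψ
      have h4 := joined_rsc hl.le hR0.le hRi hRi1 (by rw [one_mul]) hal.le hc
        (by rw [one_mul]; exact hR.le) ψ
      have h5 : (rscEmb 1 (hRi.trans_le hRi1) (by rw [one_mul]) (by rw [one_mul]; exact hR.le) ψ :
          Emb W l R) = wid hR.le ψ := by
        apply emb_ext
        intro z hz
        rw [rscEmb_apply _ _ _ _ _ hz, inv_one, one_smul, one_smul]
        rfl
      rwa [h5] at h4
    rw [h2, h2] at h1
    exact ((h3 ψ₀).symm.trans h1).trans (h3 ψ₁)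
  · intro h
    exact (mem_component_iff_wid hl ψ₀ ψ₁).2 fun R hR => joined_mem_component (h R hR)

end H88W
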